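import Pool.Agent.H43.PL.Pos
set_option autoImplicit false

/-!
# Rows and their variables are neighbours
-/

namespace Pool.Agent.H43.PL

/-- neighbours in the square lattice -/
def Adj (p q : ℤ × ℤ) : Prop :=
  (p.1 = q.1 ∧ (p.2 = q.2 + 1 ∨ q.2 = p.2 + 1)) ∨ (p.2 = q.2 ∧ (p.1 = q.1 + 1 ∨ q.1 = p.1 + 1))

theorem adj_abs {p q : ℤ × ℤ} (h : Adj p q) : |p.1 - q.1| + |p.2 - q.2| = 1 := by
  rcases h with ⟨h1, h2 | h2⟩ | ⟨h1, h2 | h2⟩
  · have e1 : p.1 - q.1 = 0 := by omega
    have e2 : p.2 - q.2 = 1 := by omega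
    rw [e1, e2]; norm_num
  · have e1 : p.1 - q.1 = 0 := by omega
    have e2 : p.2 - q.2 = -1 := by omega
    rw [e1, e2]; norm_num
  · have e1 : p.1 - q.1 = 1 := by omega
    have e2 : p.2 - q.2 = 0 := by omega
    rw [e1, e2]; norm_num
  · have e1 : p.1 - q.1 = -1 := by omega
    have e2 : p.2 - q.2 = 0 := by omega
    rw [e1, e2]; norm_num

theorem Adj.symm {p q : ℤ × ℤ} (h : Adj p q) : Adj q p := by
  unfold Adj at *
  omega

theorem npos_adj {I c j : ℕ} : Adj (npos I c j) (npos I c (j + 1)) := by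
  unfold Adj npos
  split_ifs <;> dsimp only <;> omega

theorem epos_adj {I J r j : ℕ} (hr : r ≤ I) : Adj (epos I J r j) (epos I J r (j + 1)) := by
  unfold Adj epos
  split_ifs <;> dsimp only <;> omega

theorem npos_zero (I c : ℕ) : npos I c 0 = (4 * (c : ℤ) + 1, -1) := by
  unfold npos
  rw [if_pos (by omega)]
  simp

theorem npos_end (I c : ℕ) : npos I c (2 * K I c) = (4 * (c : ℤ) + 1, 8 * (I : ℤ) + 1) := by
  unfold npos K
  rw [if_neg (by omega), if_neg (by omega), if_neg (by omega), if_neg (by omega)]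
  ext
  · rfl
  · push_cast; ring

theorem npos_west {I c h : ℕ} (hI : 2 ≤ I) (hh : h ≤ 9) :
    npos I c (2 * (4 * c + 5 + h)) = (-4 - 2 * (c : ℤ), 2 * (h : ℤ)) := by
  unfold npos
  rw [if_neg (by omega), if_neg (by omega), if_pos (by omega)]
  ext
  · rfl
  · push_cast; ring

theorem epos_zero (I J r : ℕ) : epos I J r 0 = (4 * (J : ℤ), 4 * (r : ℤ)) := by
  unfold epos
  rw [if_pos (by omega)]
  simp

theorem epos_end {I J r : ℕ} (hr : r < I) :
    epos I J r (2 * (6 * (I - r))) = (4 * (J : ℤ), 8 * (I : ℤ) - 4 * r) := by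
  unfold epos
  rw [if_neg (by omega), if_neg (by omega)]
  ext
  · push_cast; ring
  · rfl

theorem epos_mid {I J r : ℕ} (hr : r < I) :
    epos I J r (2 * (3 * (I - r))) = (4 * (J : ℤ) + 2 * (I : ℤ) - 2 * r, 4 * (I : ℤ)) := by
  unfold epos
  rw [if_neg (by omega), if_pos (by omega)]
  ext
  · push_cast [Nat.cast_sub hr.le]; ring
  · push_cast [Nat.cast_sub hr.le]; ring

/-! ### Names -/

theorem posV_N (P : Par) (c k : ℕ) : posV P (kN c k) = npos P.I c (2 * k) := rfl
theorem posV_E (P : Par) (r k : ℕ) : posV P (kE r k) = epos P.I P.J r (2 * k) := rfl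
theorem posV_S (P : Par) (l r c : ℕ) : posV P (kS l r c) = cpos P.I l r c 0 0 := rfl
theorem posV_Y (P : Par) (l r c : ℕ) : posV P (kY l r c) = cpos P.I l r c 1 (-1) := rfl
theorem posV_P (P : Par) (l r c : ℕ) : posV P (kP l r c) = cpos P.I l r c 1 1 := rfl
theorem posV_Z (P : Par) (l r c : ℕ) : posV P (kZ l r c) = cpos P.I l r c 0 2 := rfl
theorem posV_T (P : Par) (l r c : ℕ) : posV P (kT l r c) = cpos P.I l r c 2 2 := rfl
theorem posV_Q (P : Par) (l r c : ℕ) : posV P (kQ l r c) = cpos P.I l r c 3 1 := rfl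
theorem posV_G (P : Par) (l c : ℕ) :
    posV P (kG l c) = (-5 - 2 * (c : ℤ), 8 * (c % 2 : ℕ) + 1 + 4 * (l : ℤ)) := rfl

theorem posV_yv (P : Par) {l r c : ℕ} :
    posV P (yv P.I l r c) = cpos P.I l r c 1 (-1) := by
  unfold yv cpos
  by_cases h : r = 0
  · subst h
    by_cases hl : l = 0
    · rw [if_pos rfl, if_pos hl, posV_N, mul_zero, npos_zero, if_pos hl]
      simp
    · rw [if_pos rfl, if_neg hl, posV_N, npos_end, if_neg hl]
      ext <;> simp
  · rw [if_neg h]
    rfl

theorem posV_sv (P : Par) {l r c : ℕ} (hr : r < P.I) :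
    posV P (sv P.I P.J l r c) = cpos P.I l r c 0 0 := by
  unfold sv cpos
  by_cases h : c = P.J
  · subst h
    by_cases hl : l = 0
    · rw [if_pos rfl, if_pos hl, posV_E, mul_zero, epos_zero, if_pos hl]
      simp
    · rw [if_pos rfl, if_neg hl, posV_E, epos_end hr, if_neg hl]
      ext <;> simp
  · rw [if_neg h]
    rfl

theorem cpos_adj {I l r c r' c' : ℕ} {x y x' y' : ℤ}
    (h : (4 * (c : ℤ) + x = 4 * c' + x' ∧
      (4 * (r : ℤ) + y = 4 * r' + y' + 1 ∨ 4 * (r' : ℤ) + y' = 4 * r + y + 1)) ∨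
      (4 * (r : ℤ) + y = 4 * r' + y' ∧
      (4 * (c : ℤ) + x = 4 * c' + x' + 1 ∨ 4 * (c' : ℤ) + x' = 4 * c + x + 1))) :
    Adj (cpos I l r c x y) (cpos I l r' c' x' y') := by
  unfold Adj cpos
  dsimp only
  split_ifs <;> omega

theorem isVar_N {P : Par} {c k : ℕ} (h1 : c < P.J) (h2 : k ≤ K P.I c) : IsVar P (kN c k) :=
  Or.inl ⟨rfl, rfl, h1, h2⟩
theorem isVar_E {P : Par} {r k : ℕ} (h1 : r < P.I) (h2 : k ≤ 6 * (P.I - r)) : IsVar P (kE r k) :=
  Or.inr (Or.inl ⟨rfl, rfl, h1, h2⟩)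
theorem isVar_Y {P : Par} {l r c : ℕ} (h : l < 2) (h0 : 1 ≤ r) (h1 : r ≤ P.I) (h2 : c < P.J) :
    IsVar P (kY l r c) := Or.inr (Or.inr (Or.inl ⟨rfl, h, h0, h1, h2⟩))
theorem isVar_S {P : Par} {l r c : ℕ} (h : l < 2) (h1 : r < P.I) (h2 : c < P.J) :
    IsVar P (kS l r c) := Or.inr (Or.inr (Or.inr (Or.inl ⟨Or.inl rfl, h, h1, h2⟩)))
theorem isVar_P {P : Par} {l r c : ℕ} (h : l < 2) (h1 : r < P.I) (h2 : c < P.J) :
    IsVar P (kP l r c) := Or.inr (Or.inr (Or.inr (Or.inl ⟨Or.inr (Or.inl rfl), h, h1, h2⟩)))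
theorem isVar_Z {P : Par} {l r c : ℕ} (h : l < 2) (h1 : r < P.I) (h2 : c < P.J) :
    IsVar P (kZ l r c) :=
  Or.inr (Or.inr (Or.inr (Or.inl ⟨Or.inr (Or.inr (Or.inl rfl)), h, h1, h2⟩)))
theorem isVar_T {P : Par} {l r c : ℕ} (h : l < 2) (h1 : r < P.I) (h2 : c < P.J) :
    IsVar P (kT l r c) :=
  Or.inr (Or.inr (Or.inr (Or.inl ⟨Or.inr (Or.inr (Or.inr (Or.inl rfl))), h, h1, h2⟩)))
theorem isVar_Q {P : Par} {l r c : ℕ} (h : l < 2) (h1 : r < P.I) (h2 : c < P.J) :
    IsVar P (kQ l r c) :=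
  Or.inr (Or.inr (Or.inr (Or.inl ⟨Or.inr (Or.inr (Or.inr (Or.inr rfl))), h, h1, h2⟩)))
theorem isVar_G {P : Par} {l c : ℕ} (h : l < 2) (h1 : c + 1 < P.J) (h2 : P.db c = true) :
    IsVar P (kG l c) := Or.inr (Or.inr (Or.inr (Or.inr ⟨rfl, h, h1, rfl, h2⟩)))

theorem isVar_yv {P : Par} {l r c : ℕ} (h : l < 2) (h1 : r ≤ P.I) (h2 : c < P.J) :
    IsVar P (yv P.I l r c) := by
  unfold yv
  split_ifs with h3 h4
  · exact isVar_N h2 (Nat.zero_le _)
  · exact isVar_N h2 le_rfl
  · exact isVar_Y h (by omega) h1 h2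

theorem isVar_sv {P : Par} {l r c : ℕ} (h : l < 2) (h1 : r < P.I) (h2 : c ≤ P.J) :
    IsVar P (sv P.I P.J l r c) := by
  unfold sv
  split_ifs with h3 h4
  · exact isVar_E h1 (Nat.zero_le _)
  · exact isVar_E h1 le_rfl
  · exact isVar_S h h1 (by omega)

/-- a row and its variables -/
structure Good (P : Par) (r : Key) (p : ℤ × Key) : Prop where
  var : IsVar P p.2
  unit : p.1 = 1 ∨ p.1 = -1
  adj : Adj (posR P r) (posV P p.2)

theorem sg_unit (l : ℕ) : sg l = 1 ∨ sg l = -1 := by unfold sg; split_ifs <;> simp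
theorem neg_sg_unit (l : ℕ) : -sg l = 1 ∨ -sg l = -1 := by unfold sg; split_ifs <;> simp

theorem posR_2 (P : Par) (l r c : ℕ) : posR P (2, l, r, c) = cpos P.I l r c 1 0 := rfl
theorem posR_3 (P : Par) (l r c : ℕ) : posR P (3, l, r, c) = cpos P.I l r c 0 1 := rfl
theorem posR_4 (P : Par) (l r c : ℕ) : posR P (4, l, r, c) = cpos P.I l r c 2 1 := rfl
theorem posR_5 (P : Par) (l r c : ℕ) : posR P (5, l, r, c) = cpos P.I l r c 1 2 := rfl
theorem posR_6 (P : Par) (l r c : ℕ) : posR P (6, l, r, c) = cpos P.I l r c 2 3 := rfl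
theorem posR_7 (P : Par) (l r c : ℕ) : posR P (7, l, r, c) = cpos P.I l r c 0 3 := rfl
theorem posR_8 (P : Par) (l r c : ℕ) : posR P (8, l, r, c) = cpos P.I l r c 3 0 := rfl
theorem posR_9 (P : Par) (l r c : ℕ) : posR P (9, l, r, c) = cpos P.I l r 0 (-1) 0 := rfl

theorem good {P : Par} (hP : P.Ok) {r : Key} (hr : IsRow P r) : ∀ p ∈ terms P r, Good P r p := by
  obtain ⟨t, l, a, b⟩ := r
  have hI := hP.I2
  have hc := hP.c0
  simp only [IsRow] at hr
  rcases hr with ⟨rfl, rfl, h1, h2⟩ | ⟨rfl, rfl, h1, h2⟩ | ⟨ht, h0, h1, h2⟩ | ⟨rfl, h0, h1, rfl⟩ |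
    ⟨rfl, rfl, h1, rfl⟩ | ⟨rfl, rfl, h1, rfl⟩ | ⟨ht, h0, h1, rfl, h2⟩ | ⟨rfl, h0, rfl, rfl⟩
  · -- NR
    intro p hp
    change p ∈ [(1, kN a b), (-1, kN a (b + 1))] at hp
    simp only [List.mem_cons, List.not_mem_nil, or_false] at hp
    rcases hp with rfl | rfl
    · exact ⟨isVar_N h1 h2.le, Or.inl rfl, npos_adj.symm⟩
    · exact ⟨isVar_N h1 h2, Or.inr rfl, npos_adj⟩
  · -- ER
    intro p hp
    change p ∈ [(1, kE a (b + 1)), (-1, kE a b)] at hp
    simp only [List.mem_cons, List.not_mem_nil, or_false] at hp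
    rcases hp with rfl | rfl
    · exact ⟨isVar_E h1 h2, Or.inl rfl, epos_adj h1.le⟩
    · exact ⟨isVar_E h1 h2.le, Or.inr rfl, (epos_adj h1.le).symm⟩
  · rcases ht with rfl | rfl | rfl | ⟨rfl, -⟩ | ⟨rfl, -⟩ | rfl | rfl
    · intro p hp
      change p ∈ [(sg l, kP l a b), (-sg l, kS l a b), (-sg l, yv P.I l a b)] at hp
      simp only [List.mem_cons, List.not_mem_nil, or_false] at hp
      rcases hp with rfl | rfl | rfl
      · exact ⟨isVar_P h0 h1 h2, sg_unit l, by rw [posR_2, posV_P]; exact cpos_adj (by omega)⟩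
      · exact ⟨isVar_S h0 h1 h2, neg_sg_unit l, by rw [posR_2, posV_S]; exact cpos_adj (by omega)⟩
      · exact ⟨isVar_yv h0 h1.le h2, neg_sg_unit l,
          by rw [posR_2, posV_yv]; exact cpos_adj (by omega)⟩
    · intro p hp
      change p ∈ [(sg l, kZ l a b), (sg l, kS l a b), (-sg l, kP l a b)] at hp
      simp only [List.mem_cons, List.not_mem_nil, or_false] at hp
      rcases hp with rfl | rfl | rfl
      · exact ⟨isVar_Z h0 h1 h2, sg_unit l, by rw [posR_3, posV_Z]; exact cpos_adj (by omega)⟩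
      · exact ⟨isVar_S h0 h1 h2, sg_unit l, by rw [posR_3, posV_S]; exact cpos_adj (by omega)⟩
      · exact ⟨isVar_P h0 h1 h2, neg_sg_unit l, by rw [posR_3, posV_P]; exact cpos_adj (by omega)⟩
    · intro p hp
      change p ∈ [(sg l, kQ l a b), (sg l, kT l a b), (-sg l, kP l a b)] at hp
      simp only [List.mem_cons, List.not_mem_nil, or_false] at hp
      rcases hp with rfl | rfl | rfl
      · exact ⟨isVar_Q h0 h1 h2, sg_unit l, by rw [posR_4, posV_Q]; exact cpos_adj (by omega)⟩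
      · exact ⟨isVar_T h0 h1 h2, sg_unit l, by rw [posR_4, posV_T]; exact cpos_adj (by omega)⟩
      · exact ⟨isVar_P h0 h1 h2, neg_sg_unit l, by rw [posR_4, posV_P]; exact cpos_adj (by omega)⟩
    · intro p hp
      change p ∈ [(sg l, kZ l a b), (-sg l, kT l a b)] at hp
      simp only [List.mem_cons, List.not_mem_nil, or_false] at hp
      rcases hp with rfl | rfl
      · exact ⟨isVar_Z h0 h1 h2, sg_unit l, by rw [posR_5, posV_Z]; exact cpos_adj (by omega)⟩
      · exact ⟨isVar_T h0 h1 h2, neg_sg_unit l, by rw [posR_5, posV_T]; exact cpos_adj (by omega)⟩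
    · intro p hp
      change p ∈ [(1, kT l a b)] at hp
      simp only [List.mem_cons, List.not_mem_nil, or_false] at hp
      subst hp
      exact ⟨isVar_T h0 h1 h2, Or.inl rfl, by rw [posR_6, posV_T]; exact cpos_adj (by omega)⟩
    · intro p hp
      change p ∈ [(sg l, kY l (a + 1) b), (-sg l, kZ l a b)] at hp
      simp only [List.mem_cons, List.not_mem_nil, or_false] at hp
      rcases hp with rfl | rfl
      · exact ⟨isVar_Y h0 (by omega) h1 h2, sg_unit l,
          by rw [posR_7, posV_Y]; exact cpos_adj (by push_cast; omega)⟩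
      · exact ⟨isVar_Z h0 h1 h2, neg_sg_unit l, by rw [posR_7, posV_Z]; exact cpos_adj (by omega)⟩
    · intro p hp
      change p ∈ [(sg l, sv P.I P.J l a (b + 1)), (-sg l, kQ l a b)] at hp
      simp only [List.mem_cons, List.not_mem_nil, or_false] at hp
      rcases hp with rfl | rfl
      · exact ⟨isVar_sv h0 h1 h2, sg_unit l,
          by rw [posR_8, posV_sv _ h1]; exact cpos_adj (by push_cast; omega)⟩
      · exact ⟨isVar_Q h0 h1 h2, neg_sg_unit l, by rw [posR_8, posV_Q]; exact cpos_adj (by omega)⟩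
  · intro p hp
    change p ∈ [(1, kS l a 0)] at hp
    simp only [List.mem_cons, List.not_mem_nil, or_false] at hp
    subst hp
    exact ⟨isVar_S h0 h1 (by omega), Or.inl rfl,
      by rw [posR_9, posV_S]; exact cpos_adj (by omega)⟩
  · intro p hp
    change p ∈ [(1, kY 1 P.I a), (-1, kY 0 P.I a)] at hp
    have e : posR P (10, 0, a, 0) = (4 * (a : ℤ) + 1, 4 * (P.I : ℤ)) := rfl
    simp only [List.mem_cons, List.not_mem_nil, or_false] at hp
    rcases hp with rfl | rfl
    · refine ⟨isVar_Y (by omega) (by omega) le_rfl h1, Or.inl rfl, ?_⟩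
      rw [e, posV_Y, cpos, if_neg (by omega)]
      unfold Adj
      dsimp only
      omega
    · refine ⟨isVar_Y (by omega) (by omega) le_rfl h1, Or.inr rfl, ?_⟩
      rw [e, posV_Y, cpos, if_pos (by omega)]
      unfold Adj
      dsimp only
      omega
  · intro p hp
    change p ∈ [(1, kE (2 * a) (3 * (P.I - 2 * a))),
      (-1, kE (2 * a + 1) (3 * (P.I - 2 * a - 1)))] at hp
    have e : posR P (11, 0, a, 0) = (4 * (P.J : ℤ) + 2 * P.I - 4 * a - 1, 4 * (P.I : ℤ)) := rfl
    simp only [List.mem_cons, List.not_mem_nil, or_false] at hp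
    rcases hp with rfl | rfl
    · refine ⟨isVar_E (by omega) (by omega), Or.inl rfl, ?_⟩
      rw [e, posV_E, epos_mid (by omega)]
      unfold Adj
      push_cast
      omega
    · refine ⟨isVar_E (by omega) (by omega), Or.inr rfl, ?_⟩
      rw [e, posV_E, Nat.sub_sub, epos_mid (by omega)]
      unfold Adj
      push_cast
      omega
  · have hh : a % 2 < 2 := Nat.mod_lt _ (by norm_num)
    obtain rfl | rfl : l = 0 ∨ l = 1 := by omega
    · rcases ht with rfl | rfl
      · intro p hp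
        change p ∈ [(1, kN (a + 1) (4 * a + 9 + 4 * (a % 2))),
          (-1, kN a (4 * a + 5 + 4 * (a % 2))), (-1, kG 0 a)] at hp
        have e : posR P (12, 0, a, 0) = (-5 - 2 * (a : ℤ), 8 * (a % 2 : ℕ) + 4 * ((0 : ℕ) : ℤ)) :=
          rfl
        simp only [List.mem_cons, List.not_mem_nil, or_false] at hp
        rcases hp with rfl | rfl | rfl
        · refine ⟨isVar_N (by omega) (by unfold K; omega), Or.inl rfl, ?_⟩
          rw [e, posV_N, show 4 * a + 9 + 4 * (a % 2) = 4 * (a + 1) + 5 + 4 * (a % 2) by ring,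
            npos_west (by omega) (by omega)]
          unfold Adj
          push_cast
          omega
        · refine ⟨isVar_N (by omega) (by unfold K; omega), Or.inr rfl, ?_⟩
          rw [e, posV_N, npos_west (by omega) (by omega)]
          unfold Adj
          push_cast
          omega
        · refine ⟨isVar_G (by omega) h1 h2, Or.inr rfl, ?_⟩
          rw [e, posV_G]
          unfold Adj
          push_cast
          omega
      · intro p hp
        change p ∈ [(1, kG 0 a), (-1, kN a (4 * a + 6 + 4 * (a % 2)))] at hp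
        have e : posR P (13, 0, a, 0) =
          (-5 - 2 * (a : ℤ), 8 * (a % 2 : ℕ) + 2 + 4 * ((0 : ℕ) : ℤ)) := rfl
        simp only [List.mem_cons, List.not_mem_nil, or_false] at hp
        rcases hp with rfl | rfl
        · refine ⟨isVar_G (by omega) h1 h2, Or.inl rfl, ?_⟩
          rw [e, posV_G]
          unfold Adj
          push_cast
          omega
        · refine ⟨isVar_N (by omega) (by unfold K; omega), Or.inr rfl, ?_⟩
          rw [e, posV_N, show 4 * a + 6 + 4 * (a % 2) = 4 * a + 5 + (4 * (a % 2) + 1) by ring,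
            npos_west (by omega) (by omega)]
          unfold Adj
          push_cast
          omega
    · rcases ht with rfl | rfl
      · intro p hp
        change p ∈ [(1, kN a (4 * a + 7 + 4 * (a % 2))), (1, kG 1 a),
          (-1, kN (a + 1) (4 * a + 11 + 4 * (a % 2)))] at hp
        have e : posR P (12, 1, a, 0) = (-5 - 2 * (a : ℤ), 8 * (a % 2 : ℕ) + 4 * ((1 : ℕ) : ℤ)) :=
          rfl
        simp only [List.mem_cons, List.not_mem_nil, or_false] at hp
        rcases hp with rfl | rfl | rfl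
        · refine ⟨isVar_N (by omega) (by unfold K; omega), Or.inl rfl, ?_⟩
          rw [e, posV_N, show 4 * a + 7 + 4 * (a % 2) = 4 * a + 5 + (4 * (a % 2) + 2) by ring,
            npos_west (by omega) (by omega)]
          unfold Adj
          push_cast
          omega
        · refine ⟨isVar_G (by omega) h1 h2, Or.inl rfl, ?_⟩
          rw [e, posV_G]
          unfold Adj
          push_cast
          omega
        · refine ⟨isVar_N (by omega) (by unfold K; omega), Or.inr rfl, ?_⟩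
          rw [e, posV_N,
            show 4 * a + 11 + 4 * (a % 2) = 4 * (a + 1) + 5 + (4 * (a % 2) + 2) by ring,
            npos_west (by omega) (by omega)]
          unfold Adj
          push_cast
          omega
      · intro p hp
        change p ∈ [(1, kN a (4 * a + 8 + 4 * (a % 2))), (-1, kG 1 a)] at hp
        have e : posR P (13, 1, a, 0) =
          (-5 - 2 * (a : ℤ), 8 * (a % 2 : ℕ) + 2 + 4 * ((1 : ℕ) : ℤ)) := rfl
        simp only [List.mem_cons, List.not_mem_nil, or_false] at hp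
        rcases hp with rfl | rfl
        · refine ⟨isVar_N (by omega) (by unfold K; omega), Or.inl rfl, ?_⟩
          rw [e, posV_N, show 4 * a + 8 + 4 * (a % 2) = 4 * a + 5 + (4 * (a % 2) + 3) by ring,
            npos_west (by omega) (by omega)]
          unfold Adj
          push_cast
          omega
        · refine ⟨isVar_G (by omega) h1 h2, Or.inr rfl, ?_⟩
          rw [e, posV_G]
          unfold Adj
          push_cast
          omega
  · obtain rfl | rfl : l = 0 ∨ l = 1 := by omega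
    · intro p hp
      change p ∈ [(1, kN P.c0 (4 * P.c0 + 13))] at hp
      have e : posR P (14, 0, 0, 0) = (-3 - 2 * (P.c0 : ℤ), 16 + 2 * ((0 : ℕ) : ℤ)) := rfl
      simp only [List.mem_cons, List.not_mem_nil, or_false] at hp
      subst hp
      refine ⟨isVar_N hc (by unfold K; omega), Or.inl rfl, ?_⟩
      rw [e, posV_N, show 4 * P.c0 + 13 = 4 * P.c0 + 5 + 8 by ring,
        npos_west (by omega) (by omega)]
      unfold Adj
      dsimp only
      omega
    · intro p hp
      change p ∈ [(-1, kN P.c0 (4 * P.c0 + 14))] at hp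
      have e : posR P (14, 1, 0, 0) = (-3 - 2 * (P.c0 : ℤ), 16 + 2 * ((1 : ℕ) : ℤ)) := rfl
      simp only [List.mem_cons, List.not_mem_nil, or_false] at hp
      subst hp
      refine ⟨isVar_N hc (by unfold K; omega), Or.inr rfl, ?_⟩
      rw [e, posV_N, show 4 * P.c0 + 14 = 4 * P.c0 + 5 + 9 by ring,
        npos_west (by omega) (by omega)]
      unfold Adj
      dsimp only
      omega

end Pool.Agent.H43.PL
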