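import Pool.Agent.H43.PL.Lin
set_option autoImplicit false

/-!
# The affine map of the planar system
-/

namespace Pool.Agent.H43.PL

open Pool.Agent.Y644.QS

/-- coordinates, with value zero of the constant -/
def cor0 {n : ℕ} (x : Fin n → ℝ) (j : ℕ) : ℝ := if h : j < n then x ⟨j, h⟩ else 0

theorem wire_cor_add {n : ℕ} (W : ℕ) (x y : Fin n → ℝ) :
    wire W (cor (x + y)) = fun d => wire W (cor0 x) d + wire W (cor y) d := by
  funext d
  unfold wire cor cor0
  split_ifs
  · rw [Pi.add_apply]; ring
  · ring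

theorem wire_cor0_add {n : ℕ} (W : ℕ) (x y : Fin n → ℝ) :
    wire W (cor0 (x + y)) = fun d => wire W (cor0 x) d + wire W (cor0 y) d := by
  funext d
  unfold wire cor0
  split_ifs
  · rw [Pi.add_apply]; ring
  · ring

theorem wire_cor0_smul {n : ℕ} (W : ℕ) (s : ℝ) (x : Fin n → ℝ) :
    wire W (cor0 (s • x)) = fun d => s * wire W (cor0 x) d := by
  funext d
  unfold wire cor0
  split_ifs
  · rw [Pi.smul_apply, smul_eq_mul]; ring
  · ring

/-- the affine map -/
noncomputable def Tm (P : Par) (W n : ℕ) : (Fin n → ℝ) →ᵃ[ℝ] (Fin (Vl P).length → ℝ) where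
  toFun x := vec P (wire W (cor x))
  linear :=
    { toFun := fun x => vec P (wire W (cor0 x))
      map_add' := fun x y => by
        funext j
        simp only [vec, wire_cor0_add, Pi.add_apply, val_add]
      map_smul' := fun s x => by
        funext j
        simp only [vec, wire_cor0_smul, Pi.smul_apply, val_smul, smul_eq_mul, RingHom.id_apply] }
  map_vadd' x y := by
    funext j
    simp only [vadd_eq_add, vec, wire_cor_add, val_add, LinearMap.coe_mk, AddHom.coe_mk,
      Pi.add_apply]

theorem Tm_apply (P : Par) (W n : ℕ) (x : Fin n → ℝ) : Tm P W n x = vec P (wire W (cor x)) := rfl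

variable {m n : ℕ} {A : Fin m → Fin n → ℚ} {b : Fin m → ℚ} {c v : Fin n → ℚ}

theorem key_var {x : Inp} {j : ℕ} (hj : j < x.2.2.1.length) :
    IsVar (par x) (kN (j * Wd x) 0) := by
  refine isVar_N ?_ (Nat.zero_le _)
  change j * Wd x < (x.2.2.1.length + 1) * Wd x
  exact Nat.mul_lt_mul_of_pos_right (by omega) (Wd_pos x)

/-- the coordinates of the original variables -/
def em (A : Fin m → Fin n → ℚ) (b : Fin m → ℚ) (c v : Fin n → ℚ) (j : Fin n) :
    Fin (Vl (par (inp A b c v))).length :=
  ⟨(Vl (par (inp A b c v))).idxOf (kN (j * Wd (inp A b c v)) 0),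
    List.idxOf_lt_length_of_mem (mem_Vl.2 (key_var (by rw [len_c]; exact j.2)))⟩

theorem Vl_em (j : Fin n) :
    (Vl (par (inp A b c v)))[em A b c v j] = kN (j * Wd (inp A b c v)) 0 := by
  unfold em
  exact List.getElem_idxOf _

/-- the factor of the objective function -/
def kap (c : Fin n → ℚ) : ℝ := zden (List.ofFn c ++ [0])

theorem carries (A : Fin m → Fin n → ℚ) (b : Fin m → ℚ) (c v : Fin n → ℚ) :
    Carries A b c (mA (par (inp A b c v))) (mb (par (inp A b c v))) (mc (par (inp A b c v)))
      (Tm (par (inp A b c v)) (Wd (inp A b c v)) n) (em A b c v) (kap c) := by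
  have hok := par_ok (inp A b c v)
  refine ⟨?_, ?_, fun x j => ?_, fun x => ?_⟩
  · unfold kap
    exact_mod_cast zden_pos _
  · rw [polyhedron_eq hok]
    ext y
    constructor
    · rintro ⟨Y, hY, rfl⟩
      obtain ⟨x, hx, h⟩ := wire_of_adm hY
      refine ⟨x, hx, ?_⟩
      rw [Tm_apply]
      funext j
      unfold vec
      exact (val_congr (mem_Vl.1 (List.getElem_mem _)) h).symm
    · rintro ⟨x, hx, rfl⟩
      exact ⟨_, adm_wire x hx, rfl⟩
  · rw [Tm_apply]
    unfold vec
    rw [Vl_em, val_N, wire_mul (Wd_pos _)]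
    unfold cor
    rw [dif_pos j.2]
  · rw [Tm_apply, obj_vec hok]
    have h1 := ps_sub (inp A b c v) rfl x m
    rw [Zr_last, zsum] at h1
    have h2 : (par (inp A b c v)).m = m := len_rowsA
    rw [h2, h1]
    unfold kap obj
    push_cast
    ring

end Pool.Agent.H43.PL
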