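import Pool.Agent.H43.PL.PolyD
import Pool.Agent.H43.PL.Map
set_option autoImplicit false

/-!
# Coding and decoding
-/

namespace Pool.Agent.H43.PL

open Pool.Agent.Y644.QS Pool.Agent.NPC Pool.Agent.NPC.H532.RP Pool.Agent.H687R2.LLL

theorem ofFn_getElem' {α β : Type*} (L : List α) (f : α → β) :
    (List.ofFn fun i : Fin L.length => f L[i]) = L.map f := by
  refine List.ext_getElem (by simp) fun i h1 h2 => ?_
  simp

theorem mkRat_one' (z : ℤ) : mkRat z 1 = (z : ℚ) := by
  rw [Rat.mkRat_eq_div]; simp

variable {m n : ℕ} {A : Fin m → Fin n → ℚ} {b : Fin m → ℚ} {c v : Fin n → ℚ}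

/-- the start vertex of the planar linear program -/
def stX (x : Inp) : Fin (Vl (par x)).length → ℚ :=
  fun j => mkRat (valX x (Vl (par x))[j]) (dn x)

theorem encL_eq (X : Inp) : encL X =
    Y644.QS.inp (mA (par X)) (mb (par X)) (mc (par X)) (stX X) := by
  have h4 : (List.ofFn (stX X)) = (Vl (par X)).map fun v => mkRat (valX X v) (dn X) :=
    ofFn_getElem' (Vl (par X)) fun w => mkRat (valX X w) (dn X)
  have h3 : (List.ofFn (mc (par X))) = (Vl (par X)).map fun v =>
      mkRat (coef (cterms (par X)) v) 1 := by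
    simp only [mkRat_one']
    exact ofFn_getElem' (Vl (par X)) fun w => ((coef (cterms (par X)) w : ℤ) : ℚ)
  have h2 : (List.ofFn (mb (par X))) = (Rl (par X)).map fun r => mkRat (rhs (par X) r) 1 := by
    simp only [mkRat_one']
    exact ofFn_getElem' (Rl (par X)) fun w => ((rhs (par X) w : ℤ) : ℚ)
  have h1 : (List.ofFn fun i => List.ofFn (mA (par X) i)) =
      (Rl (par X)).map fun r => (Vl (par X)).map fun v => mkRat (coef (terms (par X) r) v) 1 := by
    simp only [mkRat_one']
    rw [← ofFn_getElem']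
    congr 1
    funext i
    exact ofFn_getElem' (Vl (par X)) fun w => ((coef (terms (par X) (Rl (par X))[i]) w : ℤ) : ℚ)
  unfold encL
  rw [← h1, ← h2, ← h3, ← h4]
  rfl

/-- the start vertex of the planar linear program -/
def stv (A : Fin m → Fin n → ℚ) (b : Fin m → ℚ) (c v : Fin n → ℚ) :
    Fin (Vl (par (Y644.QS.inp A b c v))).length → ℚ := stX (Y644.QS.inp A b c v)

theorem encL_inp : encL (Y644.QS.inp A b c v) =
    Y644.QS.inp (mA (par (Y644.QS.inp A b c v))) (mb (par (Y644.QS.inp A b c v)))
      (mc (par (Y644.QS.inp A b c v))) (stv A b c v) := encL_eq _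

/-! ### The start vertex -/

theorem ps_cast (be : ℕ → ℕ → Bool) (Y : ℕ → ℤ) (r : ℕ) : ∀ c : ℕ,
    ((ps be Y r c : ℤ) : ℝ) = ps be (fun d => (Y d : ℝ)) r c
  | 0 => by simp [ps]
  | c + 1 => by
    simp only [ps]
    push_cast
    rw [ps_cast be Y r c]

theorem val_cast (P : Par) (Y : ℕ → ℤ) (v : Key) :
    ((val P Y v : ℤ) : ℝ) = val P (fun d => (Y d : ℝ)) v := by
  unfold val
  split_ifs <;> first | exact ps_cast _ _ _ _ | rfl | (push_cast; rw [ps_cast]) | simp

theorem psL_eq (x : Inp) (r : ℕ) {c : ℕ} (hc : c ≤ pJ x) : psL x r c = ps (pbe x) (wv x) r c := by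
  have key : ∀ N : ℕ, ((List.range N).map fun d =>
      if d < c ∧ pbe x r d = true then wv x d else 0).sum = ps (pbe x) (wv x) r (min N c) := by
    intro N
    induction N with
    | zero => simp [ps]
    | succ N ih =>
      rw [List.range_succ, List.map_append, List.sum_append, ih]
      simp only [List.map_cons, List.map_nil, List.sum_cons, List.sum_nil, add_zero]
      rcases lt_or_ge N c with h | h
      · rw [min_eq_left h.le, min_eq_left (by omega : N + 1 ≤ c)]
        simp [ps, h]
      · rw [min_eq_right h, min_eq_right (by omega : c ≤ N + 1), if_neg (by omega), add_zero]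
  unfold psL
  rw [key, min_eq_right hc]

theorem valX_eq {x : Inp} {v : Key} (hv : IsVar (par x) v) : valX x v = val (par x) (wv x) v := by
  obtain ⟨t, l, a, b⟩ := v
  simp only [IsVar] at hv
  rcases hv with ⟨rfl, rfl, h1, h2⟩ | ⟨rfl, rfl, h1, h2⟩ | ⟨rfl, h0, h1, h2, h3⟩ |
    ⟨ht, h0, h1, h2⟩ | ⟨rfl, h0, h1, rfl, h2⟩
  · rfl
  · change psL x a (pJ x) = ps (pbe x) (wv x) a (pJ x)
    exact psL_eq x a le_rfl
  · rfl
  · change b < pJ x at h2
    rcases ht with rfl | rfl | rfl | rfl | rfl
    · exact psL_eq x a (c := b) (by omega)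
    · change psL x a b + wv x b = ps (pbe x) (wv x) a b + wv x b
      rw [psL_eq x a (c := b) (by omega)]
    · rfl
    · rfl
    · exact psL_eq x a (c := b + 1) (by omega)
  · rfl

theorem dn_eq : ((dn (Y644.QS.inp A b c v) : ℕ) : ℝ) =
    (zden (List.ofFn v ++ [1]) : ℝ) := by
  unfold dn
  have h1 : (startV (Y644.QS.inp A b c v)).getD n 0 = (zden (List.ofFn v ++ [1]) : ℤ) := by
    have h2 := getD_zrow (List.ofFn v ++ [1]) n
    rw [getD_ofFn_append_last, mul_one] at h2
    rw [startV_inp]
    exact_mod_cast h2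
  rw [len_c, h1, Int.toNat_natCast]

theorem wv_eq {d : ℕ} (hd : d < pJ (Y644.QS.inp A b c v)) :
    ((wv (Y644.QS.inp A b c v) d : ℤ) : ℝ) = (zden (List.ofFn v ++ [1]) : ℝ) *
      wire (Wd (Y644.QS.inp A b c v)) (cor (re v)) d := by
  have hW := Wd_pos (Y644.QS.inp A b c v)
  have h1 : d / Wd (Y644.QS.inp A b c v) < n + 1 := by
    refine (Nat.div_lt_iff_lt_mul hW).2 ?_
    unfold pJ at hd
    rwa [len_c] at hd
  have h2 : d % Wd (Y644.QS.inp A b c v) < Wd (Y644.QS.inp A b c v) := Nat.mod_lt _ hW
  unfold wv wire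
  rw [pw_eq h2.le]
  push_cast
  rw [startV_inp, getD_zrow']
  have h3 : (((List.ofFn v ++ [1]).getD (d / Wd (Y644.QS.inp A b c v)) 0 : ℚ) : ℝ) =
      cor (re v) (d / Wd (Y644.QS.inp A b c v)) := by
    unfold cor
    split_ifs with h4
    · have h5 : (List.ofFn v ++ [1]).getD (d / Wd (Y644.QS.inp A b c v)) 0 =
          v ⟨d / Wd (Y644.QS.inp A b c v), h4⟩ :=
        getD_ofFn_append v 1 ⟨d / Wd (Y644.QS.inp A b c v), h4⟩
      rw [h5]
      rfl
    · rw [show d / Wd (Y644.QS.inp A b c v) = n by omega, getD_ofFn_append_last]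
      simp
  rw [h3]
  ring

theorem re_stv : re (stv A b c v) =
    Tm (par (Y644.QS.inp A b c v)) (Wd (Y644.QS.inp A b c v)) n (re v) := by
  funext j
  have hv : IsVar (par (Y644.QS.inp A b c v)) (Vl (par (Y644.QS.inp A b c v)))[j] :=
    mem_Vl.1 (List.getElem_mem _)
  rw [Tm_apply]
  unfold vec re stv stX
  rw [Rat.mkRat_eq_div]
  push_cast
  rw [dn_eq, valX_eq hv, val_cast, val_congr hv (fun d hd => wv_eq hd), val_smul]
  have h3 : (0 : ℝ) < zden (List.ofFn v ++ [1]) := by exact_mod_cast zden_pos _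
  field_simp
  rfl

/-! ### Decoding -/

theorem place_eq {L : List Key} (hL : L.Nodup) {k : ℕ} (hk : k < L.length) :
    place L L[k] = k := by
  unfold place
  have h1 : ∀ N ≤ L.length, ((List.range N).map fun i =>
      if L.getD i (0, 0, 0, 0) = L[k] then i else 0).sum = if k < N then k else 0 := by
    intro N
    induction N with
    | zero => intro _; simp
    | succ N ih =>
      intro hN
      rw [List.range_succ, List.map_append, List.sum_append, ih (by omega)]
      simp only [List.map_cons, List.map_nil, List.sum_cons, List.sum_nil, add_zero]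
      rw [List.getD_eq_getElem _ _ (by omega : N < L.length)]
      by_cases h : N = k
      · subst h
        simp
      · have h2 : ¬ L[N] = L[k] := fun e => h (hL.getElem_inj_iff.1 e)
        rw [if_neg h2, add_zero]
        by_cases h3 : k < N
        · rw [if_pos h3, if_pos (by omega)]
        · rw [if_neg h3, if_neg (by omega)]
  rw [h1 _ le_rfl, if_pos hk]

theorem idx_eq (j : Fin n) : idx (Y644.QS.inp A b c v) j = em A b c v j := by
  unfold idx
  rw [← Vl_em (A := A) (b := b) (c := c) (v := v) j]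
  exact place_eq (nodup_Vl _) _

theorem selL_eq (y : Fin (Vl (par (Y644.QS.inp A b c v))).length → ℚ) :
    selL (Y644.QS.inp A b c v) (List.ofFn y) = List.ofFn (y ∘ em A b c v) := by
  unfold selL
  rw [len_c]
  refine List.ext_getElem (by simp) fun i h1 h2 => ?_
  have hi : i < n := by simpa using h2
  rw [List.getElem_map, List.getElem_range, List.getElem_ofFn]
  have h3 : idx (Y644.QS.inp A b c v) i = em A b c v ⟨i, hi⟩ := idx_eq ⟨i, hi⟩
  rw [h3, List.getD_eq_getElem _ _ (by simp)]
  simp

theorem decL_eq {N : ℕ} {x : ℕ → Fin (Vl (par (Y644.QS.inp A b c v))).length → ℚ}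
    {d : Option (Fin (Vl (par (Y644.QS.inp A b c v))).length → ℚ)} :
    decL (Y644.QS.inp A b c v) ((List.range (N + 1)).map (fun k => List.ofFn (x k)),
      d.map List.ofFn) =
    ((List.range (N + 1)).map (fun k => List.ofFn (x k ∘ em A b c v)),
      (d.map fun f => f ∘ em A b c v).map List.ofFn) := by
  unfold decL
  refine Prod.ext ?_ ?_
  · simp only [List.map_map]
    refine List.map_congr_left fun k _ => ?_
    exact selL_eq (x k)
  · simp only [Option.map_map]
    cases d with
    | none => rfl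
    | some f =>
      simp only [Option.map_some, Function.comp_apply]
      rw [selL_eq]

/-- the method for all linear programs, from a method for planar ones -/
def lift (F : List Bool → List Bool) (x : List Bool) : Outp :=
  (unbits Inp x).elim ([], none) fun y =>
    decL y ((unbits Outp (F (bits (encL y)))).getD ([], none))

theorem lift_inp {F : List Bool → List Bool} {N : ℕ}
    {x : ℕ → Fin (Vl (par (Y644.QS.inp A b c v))).length → ℚ}
    {d : Option (Fin (Vl (par (Y644.QS.inp A b c v))).length → ℚ)}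
    (h : F (bits (Y644.QS.inp (mA (par (Y644.QS.inp A b c v))) (mb (par (Y644.QS.inp A b c v)))
      (mc (par (Y644.QS.inp A b c v))) (stv A b c v))) =
      bits (((List.range (N + 1)).map (fun k => List.ofFn (x k)), d.map List.ofFn) : Outp)) :
    lift F (bits (Y644.QS.inp A b c v)) =
      ((List.range (N + 1)).map (fun k => List.ofFn (x k ∘ em A b c v)),
      (d.map fun f => f ∘ em A b c v).map List.ofFn) := by
  unfold lift
  rw [unbits_bits, Option.elim_some, encL_inp, h, unbits_bits, Option.getD_some]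
  exact decL_eq

end Pool.Agent.H43.PL
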