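import Pool.Agent.H43.PL.Mat
set_option autoImplicit false

/-!
# Every variable is in at most three rows
-/

namespace Pool.Agent.H43.PL

/-- the third row of a node of a vertical wire -/
def xN (I c k : ℕ) : Key :=
  if k = 0 then (2, 0, 0, c)
  else if k = K I c then (2, 1, 0, c)
  else if k = 4 * c + 13 then (14, 0, 0, 0)
  else if k = 4 * c + 14 then (14, 1, 0, 0)
  else if k = 4 * c + 5 + 4 * (c % 2) then (12, 0, c, 0)
  else if k = 4 * c + 6 + 4 * (c % 2) then (13, 0, c, 0)
  else if k = 4 * c + 7 + 4 * (c % 2) then (12, 1, c, 0)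
  else if k = 4 * c + 8 + 4 * (c % 2) then (13, 1, c, 0)
  else if k = 4 * (c - 1) + 9 + 4 * ((c - 1) % 2) then (12, 0, c - 1, 0)
  else (12, 1, c - 1, 0)

/-- the third row of a node of a horizontal wire -/
def xE (I J r k : ℕ) : Key :=
  if k = 0 then (8, 0, r, J - 1)
  else if k = 6 * (I - r) then (8, 1, r, J - 1)
  else (11, 0, r / 2, 0)

/-- the rows of a variable -/
def rowsOf (P : Par) (v : Key) : List Key :=
  if v.1 = 0 then [(0, 0, v.2.2.1, v.2.2.2 - 1), (0, 0, v.2.2.1, v.2.2.2),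
    xN P.I v.2.2.1 v.2.2.2]
  else if v.1 = 1 then [(1, 0, v.2.2.1, v.2.2.2 - 1), (1, 0, v.2.2.1, v.2.2.2),
    xE P.I P.J v.2.2.1 v.2.2.2]
  else if v.1 = 2 then [(2, v.2.1, v.2.2.1, v.2.2.2), (3, v.2.1, v.2.2.1, v.2.2.2),
    if v.2.2.2 = 0 then (9, v.2.1, v.2.2.1, 0) else (8, v.2.1, v.2.2.1, v.2.2.2 - 1)]
  else if v.1 = 3 then [(2, v.2.1, v.2.2.1, v.2.2.2), (7, v.2.1, v.2.2.1 - 1, v.2.2.2),
    (10, 0, v.2.2.2, 0)]
  else if v.1 = 4 then [(2, v.2.1, v.2.2.1, v.2.2.2), (3, v.2.1, v.2.2.1, v.2.2.2),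
    (4, v.2.1, v.2.2.1, v.2.2.2)]
  else if v.1 = 5 then [(3, v.2.1, v.2.2.1, v.2.2.2), (5, v.2.1, v.2.2.1, v.2.2.2),
    (7, v.2.1, v.2.2.1, v.2.2.2)]
  else if v.1 = 6 then [(4, v.2.1, v.2.2.1, v.2.2.2), (5, v.2.1, v.2.2.1, v.2.2.2),
    (6, v.2.1, v.2.2.1, v.2.2.2)]
  else if v.1 = 7 then [(4, v.2.1, v.2.2.1, v.2.2.2), (8, v.2.1, v.2.2.1, v.2.2.2)]
  else [(12, v.2.1, v.2.2.1, 0), (13, v.2.1, v.2.2.1, 0)]

theorem length_rowsOf (P : Par) (v : Key) : (rowsOf P v).length ≤ 3 := by
  unfold rowsOf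
  split_ifs <;> simp

theorem rowsOf_N (P : Par) (c k : ℕ) :
    rowsOf P (kN c k) = [(0, 0, c, k - 1), (0, 0, c, k), xN P.I c k] := rfl
theorem rowsOf_E (P : Par) (r k : ℕ) :
    rowsOf P (kE r k) = [(1, 0, r, k - 1), (1, 0, r, k), xE P.I P.J r k] := rfl
theorem rowsOf_S (P : Par) (l r c : ℕ) : rowsOf P (kS l r c) =
    [(2, l, r, c), (3, l, r, c), if c = 0 then (9, l, r, 0) else (8, l, r, c - 1)] := rfl
theorem rowsOf_Y (P : Par) (l r c : ℕ) : rowsOf P (kY l r c) =
    [(2, l, r, c), (7, l, r - 1, c), (10, 0, c, 0)] := rfl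
theorem rowsOf_P (P : Par) (l r c : ℕ) : rowsOf P (kP l r c) =
    [(2, l, r, c), (3, l, r, c), (4, l, r, c)] := rfl
theorem rowsOf_Z (P : Par) (l r c : ℕ) : rowsOf P (kZ l r c) =
    [(3, l, r, c), (5, l, r, c), (7, l, r, c)] := rfl
theorem rowsOf_T (P : Par) (l r c : ℕ) : rowsOf P (kT l r c) =
    [(4, l, r, c), (5, l, r, c), (6, l, r, c)] := rfl
theorem rowsOf_Q (P : Par) (l r c : ℕ) : rowsOf P (kQ l r c) =
    [(4, l, r, c), (8, l, r, c)] := rfl
theorem rowsOf_G (P : Par) (l c : ℕ) : rowsOf P (kG l c) = [(12, l, c, 0), (13, l, c, 0)] := rfl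

theorem xN_0 (I c : ℕ) : xN I c 0 = (2, 0, 0, c) := rfl
theorem xN_K (I c : ℕ) : xN I c (K I c) = (2, 1, 0, c) := by
  unfold xN
  rw [if_neg (by unfold K; omega), if_pos rfl]
theorem xN_a {I : ℕ} (_ : 2 ≤ I) (c : ℕ) : xN I c (4 * c + 13) = (14, 0, 0, 0) := by
  unfold xN K
  rw [if_neg (by omega), if_neg (by omega), if_pos rfl]
theorem xN_b {I : ℕ} (_ : 2 ≤ I) (c : ℕ) : xN I c (4 * c + 14) = (14, 1, 0, 0) := by
  unfold xN K
  rw [if_neg (by omega), if_neg (by omega), if_neg (by omega), if_pos rfl]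
theorem xN_c {I : ℕ} (_ : 2 ≤ I) (c : ℕ) :
    xN I c (4 * c + 5 + 4 * (c % 2)) = (12, 0, c, 0) := by
  have hh : c % 2 < 2 := Nat.mod_lt _ (by norm_num)
  unfold xN K
  rw [if_neg (by omega), if_neg (by omega), if_neg (by omega), if_neg (by omega), if_pos rfl]
theorem xN_d {I : ℕ} (_ : 2 ≤ I) (c : ℕ) :
    xN I c (4 * c + 6 + 4 * (c % 2)) = (13, 0, c, 0) := by
  have hh : c % 2 < 2 := Nat.mod_lt _ (by norm_num)
  unfold xN K
  rw [if_neg (by omega), if_neg (by omega), if_neg (by omega), if_neg (by omega),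
    if_neg (by omega), if_pos rfl]
theorem xN_e {I : ℕ} (_ : 2 ≤ I) (c : ℕ) :
    xN I c (4 * c + 7 + 4 * (c % 2)) = (12, 1, c, 0) := by
  have hh : c % 2 < 2 := Nat.mod_lt _ (by norm_num)
  unfold xN K
  rw [if_neg (by omega), if_neg (by omega), if_neg (by omega), if_neg (by omega),
    if_neg (by omega), if_neg (by omega), if_pos rfl]
theorem xN_f {I : ℕ} (_ : 2 ≤ I) (c : ℕ) :
    xN I c (4 * c + 8 + 4 * (c % 2)) = (13, 1, c, 0) := by
  have hh : c % 2 < 2 := Nat.mod_lt _ (by norm_num)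
  unfold xN K
  rw [if_neg (by omega), if_neg (by omega), if_neg (by omega), if_neg (by omega),
    if_neg (by omega), if_neg (by omega), if_neg (by omega), if_pos rfl]
theorem xN_g {I : ℕ} (_ : 2 ≤ I) (c : ℕ) :
    xN I (c + 1) (4 * c + 9 + 4 * (c % 2)) = (12, 0, c, 0) := by
  have hh : c % 2 < 2 := Nat.mod_lt _ (by norm_num)
  have h1 : c + 1 - 1 = c := by omega
  unfold xN K
  rw [h1, if_neg (by omega), if_neg (by omega), if_neg (by omega), if_neg (by omega),
    if_neg (by omega), if_neg (by omega), if_neg (by omega), if_neg (by omega), if_pos rfl]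
theorem xN_h {I : ℕ} (_ : 2 ≤ I) (c : ℕ) :
    xN I (c + 1) (4 * c + 11 + 4 * (c % 2)) = (12, 1, c, 0) := by
  have hh : c % 2 < 2 := Nat.mod_lt _ (by norm_num)
  have h1 : c + 1 - 1 = c := by omega
  unfold xN K
  rw [h1, if_neg (by omega), if_neg (by omega), if_neg (by omega), if_neg (by omega),
    if_neg (by omega), if_neg (by omega), if_neg (by omega), if_neg (by omega),
    if_neg (by omega)]

theorem mem_rowsOf {P : Par} (hP : P.Ok) {r : Key} (hr : IsRow P r) :
    ∀ p ∈ terms P r, r ∈ rowsOf P p.2 := by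
  obtain ⟨t, l, a, b⟩ := r
  have hI := hP.I2
  have hc := hP.c0
  simp only [IsRow] at hr
  rcases hr with ⟨rfl, rfl, h1, h2⟩ | ⟨rfl, rfl, h1, h2⟩ | ⟨ht, h0, h1, h2⟩ | ⟨rfl, h0, h1, rfl⟩ |
    ⟨rfl, rfl, h1, rfl⟩ | ⟨rfl, rfl, h1, rfl⟩ | ⟨ht, h0, h1, rfl, h2⟩ | ⟨rfl, h0, rfl, rfl⟩
  · -- NR
    intro p hp
    change p ∈ [(1, kN a b), (-1, kN a (b + 1))] at hp
    simp only [List.mem_cons, List.not_mem_nil, or_false] at hp
    rcases hp with rfl | rfl
    · rw [rowsOf_N]; simp
    · rw [rowsOf_N]; simp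
  · -- ER
    intro p hp
    change p ∈ [(1, kE a (b + 1)), (-1, kE a b)] at hp
    simp only [List.mem_cons, List.not_mem_nil, or_false] at hp
    rcases hp with rfl | rfl
    · rw [rowsOf_E]; simp
    · rw [rowsOf_E]; simp
  · rcases ht with rfl | rfl | rfl | ⟨rfl, -⟩ | ⟨rfl, -⟩ | rfl | rfl
    · intro p hp
      change p ∈ [(sg l, kP l a b), (-sg l, kS l a b), (-sg l, yv P.I l a b)] at hp
      simp only [List.mem_cons, List.not_mem_nil, or_false] at hp
      rcases hp with rfl | rfl | rfl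
      · rw [rowsOf_P]; simp
      · rw [rowsOf_S]; simp
      · change _ ∈ rowsOf P (yv P.I l a b)
        unfold yv
        split_ifs with g1 g2
        · subst g1 g2
          rw [rowsOf_N, xN_0]; simp
        · subst g1
          obtain rfl : l = 1 := by omega
          rw [rowsOf_N, xN_K]; simp
        · rw [rowsOf_Y]; simp
    · intro p hp
      change p ∈ [(sg l, kZ l a b), (sg l, kS l a b), (-sg l, kP l a b)] at hp
      simp only [List.mem_cons, List.not_mem_nil, or_false] at hp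
      rcases hp with rfl | rfl | rfl
      · rw [rowsOf_Z]; simp
      · rw [rowsOf_S]; simp
      · rw [rowsOf_P]; simp
    · intro p hp
      change p ∈ [(sg l, kQ l a b), (sg l, kT l a b), (-sg l, kP l a b)] at hp
      simp only [List.mem_cons, List.not_mem_nil, or_false] at hp
      rcases hp with rfl | rfl | rfl
      · rw [rowsOf_Q]; simp
      · rw [rowsOf_T]; simp
      · rw [rowsOf_P]; simp
    · intro p hp
      change p ∈ [(sg l, kZ l a b), (-sg l, kT l a b)] at hp
      simp only [List.mem_cons, List.not_mem_nil, or_false] at hp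
      rcases hp with rfl | rfl
      · rw [rowsOf_Z]; simp
      · rw [rowsOf_T]; simp
    · intro p hp
      change p ∈ [(1, kT l a b)] at hp
      simp only [List.mem_cons, List.not_mem_nil, or_false] at hp
      subst hp
      rw [rowsOf_T]; simp
    · intro p hp
      change p ∈ [(sg l, kY l (a + 1) b), (-sg l, kZ l a b)] at hp
      simp only [List.mem_cons, List.not_mem_nil, or_false] at hp
      rcases hp with rfl | rfl
      · rw [rowsOf_Y]; simp
      · rw [rowsOf_Z]; simp
    · intro p hp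
      change p ∈ [(sg l, sv P.I P.J l a (b + 1)), (-sg l, kQ l a b)] at hp
      simp only [List.mem_cons, List.not_mem_nil, or_false] at hp
      rcases hp with rfl | rfl
      · change _ ∈ rowsOf P (sv P.I P.J l a (b + 1))
        unfold sv
        split_ifs with g1 g2
        · subst g2
          rw [rowsOf_E]
          unfold xE
          rw [if_pos rfl, ← g1]
          simp
        · obtain rfl : l = 1 := by omega
          rw [rowsOf_E]
          unfold xE
          rw [if_neg (by omega), if_pos rfl, ← g1]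
          simp
        · rw [rowsOf_S, if_neg (by omega)]
          simp
      · rw [rowsOf_Q]; simp
  · intro p hp
    change p ∈ [(1, kS l a 0)] at hp
    simp only [List.mem_cons, List.not_mem_nil, or_false] at hp
    subst hp
    rw [rowsOf_S]; simp
  · intro p hp
    change p ∈ [(1, kY 1 P.I a), (-1, kY 0 P.I a)] at hp
    simp only [List.mem_cons, List.not_mem_nil, or_false] at hp
    rcases hp with rfl | rfl
    · rw [rowsOf_Y]; simp
    · rw [rowsOf_Y]; simp
  · intro p hp
    change p ∈ [(1, kE (2 * a) (3 * (P.I - 2 * a))),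
      (-1, kE (2 * a + 1) (3 * (P.I - 2 * a - 1)))] at hp
    simp only [List.mem_cons, List.not_mem_nil, or_false] at hp
    rcases hp with rfl | rfl
    · rw [rowsOf_E]
      unfold xE
      rw [if_neg (by omega), if_neg (by omega), show 2 * a / 2 = a by omega]
      simp
    · rw [rowsOf_E]
      unfold xE
      rw [if_neg (by omega), if_neg (by omega), show (2 * a + 1) / 2 = a by omega]
      simp
  · obtain rfl | rfl : l = 0 ∨ l = 1 := by omega
    · rcases ht with rfl | rfl
      · intro p hp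
        change p ∈ [(1, kN (a + 1) (4 * a + 9 + 4 * (a % 2))),
          (-1, kN a (4 * a + 5 + 4 * (a % 2))), (-1, kG 0 a)] at hp
        simp only [List.mem_cons, List.not_mem_nil, or_false] at hp
        rcases hp with rfl | rfl | rfl
        · rw [rowsOf_N, xN_g (by omega)]; simp
        · rw [rowsOf_N, xN_c (by omega)]; simp
        · rw [rowsOf_G]; simp
      · intro p hp
        change p ∈ [(1, kG 0 a), (-1, kN a (4 * a + 6 + 4 * (a % 2)))] at hp
        simp only [List.mem_cons, List.not_mem_nil, or_false] at hp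
        rcases hp with rfl | rfl
        · rw [rowsOf_G]; simp
        · rw [rowsOf_N, xN_d (by omega)]; simp
    · rcases ht with rfl | rfl
      · intro p hp
        change p ∈ [(1, kN a (4 * a + 7 + 4 * (a % 2))), (1, kG 1 a),
          (-1, kN (a + 1) (4 * a + 11 + 4 * (a % 2)))] at hp
        simp only [List.mem_cons, List.not_mem_nil, or_false] at hp
        rcases hp with rfl | rfl | rfl
        · rw [rowsOf_N, xN_e (by omega)]; simp
        · rw [rowsOf_G]; simp
        · rw [rowsOf_N, xN_h (by omega)]; simp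
      · intro p hp
        change p ∈ [(1, kN a (4 * a + 8 + 4 * (a % 2))), (-1, kG 1 a)] at hp
        simp only [List.mem_cons, List.not_mem_nil, or_false] at hp
        rcases hp with rfl | rfl
        · rw [rowsOf_N, xN_f (by omega)]; simp
        · rw [rowsOf_G]; simp
  · obtain rfl | rfl : l = 0 ∨ l = 1 := by omega
    · intro p hp
      change p ∈ [(1, kN P.c0 (4 * P.c0 + 13))] at hp
      simp only [List.mem_cons, List.not_mem_nil, or_false] at hp
      subst hp
      rw [rowsOf_N, xN_a (by omega)]; simp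
    · intro p hp
      change p ∈ [(-1, kN P.c0 (4 * P.c0 + 14))] at hp
      simp only [List.mem_cons, List.not_mem_nil, or_false] at hp
      subst hp
      rw [rowsOf_N, xN_b (by omega)]; simp

theorem mA_col {P : Par} (hP : P.Ok) (j : Fin (Vl P).length) :
    {i | mA P i j ≠ 0}.ncard ≤ 3 := by
  refine (ncard_le (nodup_Rl P) (rowsOf P (Vl P)[j]) fun i hi => ?_).trans (length_rowsOf _ _)
  have h1 : IsRow P (Rl P)[i] := (mem_Rl hP).1 (List.getElem_mem _)
  have h2 : coef (terms P (Rl P)[i]) (Vl P)[j] ≠ 0 := by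
    intro h
    apply hi
    unfold mA
    rw [h]
    rfl
  obtain ⟨p, hp, hp'⟩ := List.mem_map.1 (mem_of_coef h2)
  rw [← hp']
  exact mem_rowsOf hP h1 p hp

end Pool.Agent.H43.PL
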