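import Mathlib
set_option autoImplicit false

/-!
# A planar layout of linear programs: the data

Variables and rows are keys `(tag, layer, a, b)`; both are placed at points of the square lattice.
-/

namespace Pool.Agent.H43.PL

/-- keys of variables and rows -/
abbrev Key : Type := ℕ × ℕ × ℕ × ℕ

/-- parameters: `I` horizontal wires, `J` vertical wires, `m` inequalities, the wire `c0` of the
constant, the incidences `be`, the doublings `db`, and the mode -/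
structure Par where
  /-- number of horizontal wires -/
  I : ℕ
  /-- number of vertical wires -/
  J : ℕ
  /-- number of inequalities -/
  m : ℕ
  /-- the wire with value one -/
  c0 : ℕ
  /-- the incidences -/
  be : ℕ → ℕ → Bool
  /-- the next wire has twice the value -/
  db : ℕ → Bool
  /-- the mode -/
  box : Bool

/-- length of the chain of a vertical wire -/
def K (I c : ℕ) : ℕ := 8 * c + 10 + 4 * I

/-- node of the chain of a vertical wire -/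
def kN (c k : ℕ) : Key := (0, 0, c, k)
/-- node of the chain of a horizontal wire -/
def kE (r k : ℕ) : Key := (1, 0, r, k)
/-- partial sum -/
def kS (l r c : ℕ) : Key := (2, l, r, c)
/-- vertical wire, below row `r` -/
def kY (l r c : ℕ) : Key := (3, l, r, c)
/-- inner variable of a cell -/
def kP (l r c : ℕ) : Key := (4, l, r, c)
/-- inner variable of a cell -/
def kZ (l r c : ℕ) : Key := (5, l, r, c)
/-- inner variable of a cell -/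
def kT (l r c : ℕ) : Key := (6, l, r, c)
/-- inner variable of a cell -/
def kQ (l r c : ℕ) : Key := (7, l, r, c)
/-- inner variable of a doubling -/
def kG (l c : ℕ) : Key := (8, l, c, 0)

/-- vertical wire before row `r` -/
def yv (I l r c : ℕ) : Key := if r = 0 then kN c (if l = 0 then 0 else K I c) else kY l r c

/-- horizontal wire before column `c` -/
def sv (I J l r c : ℕ) : Key := if c = J then kE r (if l = 0 then 0 else 6 * (I - r)) else kS l r c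

/-- sign of a layer -/
def sg (l : ℕ) : ℤ := if l = 0 then 1 else -1

/-- the left side of a row -/
def terms (P : Par) (r : Key) : List (ℤ × Key) :=
  if r.1 = 0 then [(1, kN r.2.2.1 r.2.2.2), (-1, kN r.2.2.1 (r.2.2.2 + 1))]
  else if r.1 = 1 then [(1, kE r.2.2.1 (r.2.2.2 + 1)), (-1, kE r.2.2.1 r.2.2.2)]
  else if r.1 = 2 then [(sg r.2.1, kP r.2.1 r.2.2.1 r.2.2.2), (-sg r.2.1, kS r.2.1 r.2.2.1 r.2.2.2),
    (-sg r.2.1, yv P.I r.2.1 r.2.2.1 r.2.2.2)]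
  else if r.1 = 3 then [(sg r.2.1, kZ r.2.1 r.2.2.1 r.2.2.2), (sg r.2.1, kS r.2.1 r.2.2.1 r.2.2.2),
    (-sg r.2.1, kP r.2.1 r.2.2.1 r.2.2.2)]
  else if r.1 = 4 then [(sg r.2.1, kQ r.2.1 r.2.2.1 r.2.2.2), (sg r.2.1, kT r.2.1 r.2.2.1 r.2.2.2),
    (-sg r.2.1, kP r.2.1 r.2.2.1 r.2.2.2)]
  else if r.1 = 5 then [(sg r.2.1, kZ r.2.1 r.2.2.1 r.2.2.2), (-sg r.2.1, kT r.2.1 r.2.2.1 r.2.2.2)]
  else if r.1 = 6 then [(1, kT r.2.1 r.2.2.1 r.2.2.2)]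
  else if r.1 = 7 then [(sg r.2.1, kY r.2.1 (r.2.2.1 + 1) r.2.2.2),
    (-sg r.2.1, kZ r.2.1 r.2.2.1 r.2.2.2)]
  else if r.1 = 8 then [(sg r.2.1, sv P.I P.J r.2.1 r.2.2.1 (r.2.2.2 + 1)),
    (-sg r.2.1, kQ r.2.1 r.2.2.1 r.2.2.2)]
  else if r.1 = 9 then [(1, kS r.2.1 r.2.2.1 0)]
  else if r.1 = 10 then [(1, kY 1 P.I r.2.2.1), (-1, kY 0 P.I r.2.2.1)]
  else if r.1 = 11 then [(1, kE (2 * r.2.2.1) (3 * (P.I - 2 * r.2.2.1))),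
    (-1, kE (2 * r.2.2.1 + 1) (3 * (P.I - 2 * r.2.2.1 - 1)))]
  else if r.1 = 12 then
    (if r.2.1 = 0 then
      [(1, kN (r.2.2.1 + 1) (4 * r.2.2.1 + 9 + 4 * (r.2.2.1 % 2))),
        (-1, kN r.2.2.1 (4 * r.2.2.1 + 5 + 4 * (r.2.2.1 % 2))), (-1, kG 0 r.2.2.1)]
    else [(1, kN r.2.2.1 (4 * r.2.2.1 + 7 + 4 * (r.2.2.1 % 2))), (1, kG 1 r.2.2.1),
        (-1, kN (r.2.2.1 + 1) (4 * r.2.2.1 + 11 + 4 * (r.2.2.1 % 2)))])
  else if r.1 = 13 then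
    (if r.2.1 = 0 then
      [(1, kG 0 r.2.2.1), (-1, kN r.2.2.1 (4 * r.2.2.1 + 6 + 4 * (r.2.2.1 % 2)))]
    else [(1, kN r.2.2.1 (4 * r.2.2.1 + 8 + 4 * (r.2.2.1 % 2))), (-1, kG 1 r.2.2.1)])
  else if r.2.1 = 0 then [(1, kN P.c0 (4 * P.c0 + 13))] else [(-1, kN P.c0 (4 * P.c0 + 14))]

/-- the right side of a row -/
def rhs (P : Par) (r : Key) : ℤ :=
  if r.1 = 14 then (if r.2.1 = 0 then 1 else -1)
  else if P.box = true then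
    (if r.1 = 5 then (if P.be r.2.2.1 r.2.2.2 = true then 1 else 0)
    else if r.1 = 6 then (if P.be r.2.2.1 r.2.2.2 = true then 0 else 1) else 0)
  else 0

/-- the objective function -/
def cterms (P : Par) : List (ℤ × Key) :=
  [(1, kE (2 * P.m) (3 * (P.I - 2 * P.m))), (-1, kE (2 * P.m + 1) (3 * (P.I - 2 * P.m - 1)))]

/-- the keys of variables -/
def IsVar (P : Par) (v : Key) : Prop :=
  (v.1 = 0 ∧ v.2.1 = 0 ∧ v.2.2.1 < P.J ∧ v.2.2.2 ≤ K P.I v.2.2.1) ∨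
  (v.1 = 1 ∧ v.2.1 = 0 ∧ v.2.2.1 < P.I ∧ v.2.2.2 ≤ 6 * (P.I - v.2.2.1)) ∨
  (v.1 = 3 ∧ v.2.1 < 2 ∧ 1 ≤ v.2.2.1 ∧ v.2.2.1 ≤ P.I ∧ v.2.2.2 < P.J) ∨
  ((v.1 = 2 ∨ v.1 = 4 ∨ v.1 = 5 ∨ v.1 = 6 ∨ v.1 = 7) ∧ v.2.1 < 2 ∧ v.2.2.1 < P.I ∧
    v.2.2.2 < P.J) ∨
  (v.1 = 8 ∧ v.2.1 < 2 ∧ v.2.2.1 + 1 < P.J ∧ v.2.2.2 = 0 ∧ P.db v.2.2.1 = true)

/-- the keys of rows -/
def IsRow (P : Par) (r : Key) : Prop :=
  (r.1 = 0 ∧ r.2.1 = 0 ∧ r.2.2.1 < P.J ∧ r.2.2.2 < K P.I r.2.2.1) ∨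
  (r.1 = 1 ∧ r.2.1 = 0 ∧ r.2.2.1 < P.I ∧ r.2.2.2 < 6 * (P.I - r.2.2.1)) ∨
  ((r.1 = 2 ∨ r.1 = 3 ∨ r.1 = 4 ∨ (r.1 = 5 ∧ (P.box = true ∨ P.be r.2.2.1 r.2.2.2 = false)) ∨
    (r.1 = 6 ∧ (P.box = true ∨ P.be r.2.2.1 r.2.2.2 = true)) ∨ r.1 = 7 ∨ r.1 = 8) ∧
    r.2.1 < 2 ∧ r.2.2.1 < P.I ∧ r.2.2.2 < P.J) ∨
  (r.1 = 9 ∧ r.2.1 < 2 ∧ r.2.2.1 < P.I ∧ r.2.2.2 = 0) ∨
  (r.1 = 10 ∧ r.2.1 = 0 ∧ r.2.2.1 < P.J ∧ r.2.2.2 = 0) ∨
  (r.1 = 11 ∧ r.2.1 = 0 ∧ r.2.2.1 < P.m ∧ r.2.2.2 = 0) ∨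
  ((r.1 = 12 ∨ r.1 = 13) ∧ r.2.1 < 2 ∧ r.2.2.1 + 1 < P.J ∧ r.2.2.2 = 0 ∧ P.db r.2.2.1 = true) ∨
  (r.1 = 14 ∧ r.2.1 < 2 ∧ r.2.2.1 = 0 ∧ r.2.2.2 = 0)

instance (P : Par) (v : Key) : Decidable (IsVar P v) := by unfold IsVar; infer_instance
instance (P : Par) (v : Key) : Decidable (IsRow P v) := by unfold IsRow; infer_instance

/-- points on the chain of a vertical wire -/
def npos (I c j : ℕ) : ℤ × ℤ :=
  if j ≤ c + 2 then (4 * c + 1, -1 - j)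
  else if j ≤ 7 * c + 7 then (5 * c + 3 - j, -(c + 3))
  else if j ≤ 9 * c + 13 + 8 * I then (-4 - 2 * c, j - 8 * c - 10)
  else if j ≤ 15 * c + 18 + 8 * I then (j - 11 * c - 17 - 8 * I, 8 * I + c + 3)
  else (4 * c + 1, 16 * I + 16 * c + 21 - j)

/-- points on the chain of a horizontal wire -/
def epos (I J r j : ℕ) : ℤ × ℤ :=
  if j ≤ 2 * (I - r) then (4 * J + j, 4 * r)
  else if j ≤ 10 * (I - r) then (4 * J + 2 * (I - r : ℕ), 4 * r + j - 2 * (I - r : ℕ))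
  else (4 * J + 12 * (I - r : ℕ) - j, 8 * I - 4 * r)

/-- points in the cells -/
def cpos (I l r c : ℕ) (x y : ℤ) : ℤ × ℤ :=
  (4 * c + x, if l = 0 then 4 * r + y else 8 * I - 4 * r - y)

/-- the places of the variables -/
def posV (P : Par) (v : Key) : ℤ × ℤ :=
  if v.1 = 0 then npos P.I v.2.2.1 (2 * v.2.2.2)
  else if v.1 = 1 then epos P.I P.J v.2.2.1 (2 * v.2.2.2)
  else if v.1 = 2 then cpos P.I v.2.1 v.2.2.1 v.2.2.2 0 0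
  else if v.1 = 3 then cpos P.I v.2.1 v.2.2.1 v.2.2.2 1 (-1)
  else if v.1 = 4 then cpos P.I v.2.1 v.2.2.1 v.2.2.2 1 1
  else if v.1 = 5 then cpos P.I v.2.1 v.2.2.1 v.2.2.2 0 2
  else if v.1 = 6 then cpos P.I v.2.1 v.2.2.1 v.2.2.2 2 2
  else if v.1 = 7 then cpos P.I v.2.1 v.2.2.1 v.2.2.2 3 1
  else (-5 - 2 * v.2.2.1, 8 * (v.2.2.1 % 2 : ℕ) + 1 + 4 * v.2.1)

/-- the places of the rows -/
def posR (P : Par) (r : Key) : ℤ × ℤ :=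
  if r.1 = 0 then npos P.I r.2.2.1 (2 * r.2.2.2 + 1)
  else if r.1 = 1 then epos P.I P.J r.2.2.1 (2 * r.2.2.2 + 1)
  else if r.1 = 2 then cpos P.I r.2.1 r.2.2.1 r.2.2.2 1 0
  else if r.1 = 3 then cpos P.I r.2.1 r.2.2.1 r.2.2.2 0 1
  else if r.1 = 4 then cpos P.I r.2.1 r.2.2.1 r.2.2.2 2 1
  else if r.1 = 5 then cpos P.I r.2.1 r.2.2.1 r.2.2.2 1 2
  else if r.1 = 6 then cpos P.I r.2.1 r.2.2.1 r.2.2.2 2 3
  else if r.1 = 7 then cpos P.I r.2.1 r.2.2.1 r.2.2.2 0 3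
  else if r.1 = 8 then cpos P.I r.2.1 r.2.2.1 r.2.2.2 3 0
  else if r.1 = 9 then cpos P.I r.2.1 r.2.2.1 0 (-1) 0
  else if r.1 = 10 then (4 * r.2.2.1 + 1, 4 * P.I)
  else if r.1 = 11 then (4 * P.J + 2 * P.I - 4 * r.2.2.1 - 1, 4 * P.I)
  else if r.1 = 12 then (-5 - 2 * r.2.2.1, 8 * (r.2.2.1 % 2 : ℕ) + 4 * r.2.1)
  else if r.1 = 13 then (-5 - 2 * r.2.2.1, 8 * (r.2.2.1 % 2 : ℕ) + 2 + 4 * r.2.1)
  else (-3 - 2 * P.c0, 16 + 2 * r.2.1)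

/-- the standing assumptions -/
structure Par.Ok (P : Par) : Prop where
  I2 : 2 * P.m + 2 = P.I
  c0 : P.c0 < P.J

/-- partial sums -/
def ps {R : Type*} [AddCommMonoid R] (be : ℕ → ℕ → Bool) (Y : ℕ → R) (r : ℕ) : ℕ → R
  | 0 => 0
  | c + 1 => ps be Y r c + if be r c = true then Y c else 0

/-- the values of the variables for given values of the vertical wires -/
def val {R : Type*} [AddCommMonoid R] (P : Par) (Y : ℕ → R) (v : Key) : R :=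
  if v.1 = 1 then ps P.be Y v.2.2.1 P.J
  else if v.1 = 2 then ps P.be Y v.2.2.1 v.2.2.2
  else if v.1 = 4 then ps P.be Y v.2.2.1 v.2.2.2 + Y v.2.2.2
  else if v.1 = 6 then (if P.be v.2.2.1 v.2.2.2 = true then 0 else Y v.2.2.2)
  else if v.1 = 7 then ps P.be Y v.2.2.1 (v.2.2.2 + 1)
  else if v.1 = 0 ∨ v.1 = 8 then Y v.2.2.1
  else Y v.2.2.2

end Pool.Agent.H43.PL
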