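import Pool.Graph.R_seed8.Y644.QS.Seq
set_option autoImplicit false

/-!
# Linear programs on the square lattice: definitions
-/

namespace Pool.Agent.H43.PL

open Pool.Agent.Y644.QS Pool.Agent.NPC

/-- A linear program on the square lattice: all entries of `A`, `b` and `c` are `0`, `1` or `-1`;
`b` and `c` have at most two nonzero entries, and every row and every column of `A` has at most
three; the rows and the columns of `A` can be placed at different points of the square lattice
such that all nonzero entries are between lattice neighbours. -/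
structure Lattice (m n : ℕ) (A : Fin m → Fin n → ℚ) (b : Fin m → ℚ) (c : Fin n → ℚ) : Prop where
  entry : ∀ i j, A i j = 0 ∨ A i j = 1 ∨ A i j = -1
  rhs : ∀ i, b i = 0 ∨ b i = 1 ∨ b i = -1
  cost : ∀ j, c j = 0 ∨ c j = 1 ∨ c j = -1
  rhs_two : {i | b i ≠ 0}.ncard ≤ 2
  cost_two : {j | c j ≠ 0}.ncard ≤ 2
  row_three : ∀ i, {j | A i j ≠ 0}.ncard ≤ 3
  col_three : ∀ j, {i | A i j ≠ 0}.ncard ≤ 3
  planar : ∃ (f : Fin m → ℤ × ℤ) (g : Fin n → ℤ × ℤ),
    Function.Injective f ∧ Function.Injective g ∧ (∀ i j, f i ≠ g j) ∧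
    ∀ i j, A i j ≠ 0 → |(f i).1 - (g j).1| + |(f i).2 - (g j).2| = 1

/-- The linear program `(A', b', c')` is the linear program `(A, b, c)` in other coordinates: its
polyhedron is the image of the polyhedron of `(A, b, c)` under the affine map `T`, which has the
projection to the coordinates `e j` as a left inverse, and `T` multiplies the objective function
by `κ > 0`. -/
structure Carries {m n m' n' : ℕ} (A : Fin m → Fin n → ℚ) (b : Fin m → ℚ) (c : Fin n → ℚ)
    (A' : Fin m' → Fin n' → ℚ) (b' : Fin m' → ℚ) (c' : Fin n' → ℚ)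
    (T : (Fin n → ℝ) →ᵃ[ℝ] (Fin n' → ℝ)) (e : Fin n → Fin n') (κ : ℝ) : Prop where
  pos : 0 < κ
  image : polyhedron A' b' = T '' polyhedron A b
  proj : ∀ (x : Fin n → ℝ) (j : Fin n), T x (e j) = x j
  cost : ∀ x : Fin n → ℝ, obj c' (T x) = κ * obj c x

/-- the input size of a linear program -/
def size {m n : ℕ} (A : Fin m → Fin n → ℚ) (b : Fin m → ℚ) (c : Fin n → ℚ) : ℕ :=
  (bits (List.ofFn fun i => List.ofFn (A i), List.ofFn b, List.ofFn c)).length

end Pool.Agent.H43.PL
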