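import Pool.Agent.H43.PL.Code
import Pool.Agent.H43.PL.Col
import Pool.Graph.R_seed8.H550R2.Iso.Raw
set_option autoImplicit false

/-!
# Linear programs on the square lattice
-/

namespace Pool.Agent.H43.PL

open Pool.Agent.Y644.QS Pool.Agent.NPC Pool.Agent.NPC.H532.RP Pool.Agent.H687R2.LLL

theorem lattice_par (x : Inp) : Lattice _ _ (mA (par x)) (mb (par x)) (mc (par x)) where
  entry := mA_entry (par_ok x)
  rhs := mb_entry (par x)
  cost := mc_entry
  rhs_two := mb_card (par_ok x) rfl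
  cost_two := mc_card (par x)
  row_three := mA_row (par_ok x)
  col_three := mA_col (par_ok x)
  planar := places (par_ok x)

theorem size_eq {m n : ℕ} (A : Fin m → Fin n → ℚ) (b : Fin m → ℚ) (c : Fin n → ℚ) :
    size A b c = sz (List.ofFn fun i => List.ofFn (A i), List.ofFn b, List.ofFn c) :=
  bits_length _

theorem par_inp {m n : ℕ} (A : Fin m → Fin n → ℚ) (b : Fin m → ℚ) (c v : Fin n → ℚ) :
    par (Y644.QS.inp A b c v) =
      par (List.ofFn fun i => List.ofFn (A i), List.ofFn b, List.ofFn c, []) := rfl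

theorem poly_enc : PolyTime (fun x => bits ((unbits Inp x).elim ([], [], [], []) encL)) := by
  refine polyTime_bits ?_
  exact Poly.optElim (h := fun _ y => encL y) poly_unbits (NPC.Poly.const _)
    (NPC.H43PL.poly_encL (Poly.snd Poly.id))

theorem enc_inp (x : Inp) :
    bits ((unbits Inp (bits x)).elim ([], [], [], []) encL) = bits (encL x) := by
  rw [unbits_bits]; rfl

theorem poly_lift {F : List Bool → List Bool} (hF : PolyTime F) :
    PolyTime (fun x => bits (lift F x)) := by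
  refine polyTime_bits ?_
  unfold lift
  have h1 : Poly F := PIso.poly_iff.2 hF
  have h2 : Poly (fun y : Inp => (bits (encL y) : List Bool)) :=
    (NPC.H43PL.poly_encL Poly.id).bitsList
  have h3 : Poly (fun y : Inp => (unbits Outp (F (bits (encL y)))).getD ([], none)) :=
    Poly.optGetD (poly_unbits.comp (h1.comp h2)) (NPC.Poly.const _)
  exact Poly.optElim (h := fun _ y => decL y ((unbits Outp (F (bits (encL y)))).getD ([], none)))
    poly_unbits (NPC.Poly.const _) (NPC.H43PL.poly_decL (Poly.snd Poly.id) (h3.comp (Poly.snd Poly.id)))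

theorem exists_size_bound : ∃ q : Polynomial ℕ, ∀ x : Inp,
    (Rl (par x)).length + (Vl (par x)).length ≤ q.eval (sz x) := by
  obtain ⟨q1, h1⟩ := (NPC.H43PL.poly_Rl Poly.id).sz_le
  obtain ⟨q2, h2⟩ := (NPC.H43PL.poly_Vl Poly.id).sz_le
  refine ⟨q1 + q2, fun x => ?_⟩
  rw [Polynomial.eval_add]
  have e1 := h1 x
  have e2 := h2 x
  have e3 := length_lt_sz (Rl (par x))
  have e4 := length_lt_sz (Vl (par x))
  omega

theorem exists_size_bound' : ∃ q : Polynomial ℕ, ∀ (m n : ℕ) (A : Fin m → Fin n → ℚ)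
    (b : Fin m → ℚ) (c v : Fin n → ℚ), (Rl (par (Y644.QS.inp A b c v))).length +
      (Vl (par (Y644.QS.inp A b c v))).length ≤ q.eval (size A b c) := by
  obtain ⟨q, h⟩ := exists_size_bound
  refine ⟨q.comp (Polynomial.X + 2), fun m n A b c v => ?_⟩
  rw [par_inp]
  refine (h _).trans ?_
  rw [Polynomial.eval_comp]
  refine eval_mono q ?_
  simp only [Polynomial.eval_add, Polynomial.eval_X, Polynomial.eval_ofNat]
  rw [size_eq, sz_pair, sz_pair, sz_pair, sz_pair, sz_pair, sz_list_nil]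
  omega

/-- small numbers have bounded codes -/
theorem sz_unit {q : ℚ} (h : q = 0 ∨ q = 1 ∨ q = -1) :
    sz q ≤ sz (0 : ℚ) + sz (1 : ℚ) + sz (-1 : ℚ) := by
  rcases h with rfl | rfl | rfl <;> omega

theorem lattice_size : ∃ q : Polynomial ℕ, ∀ (m n : ℕ) (A : Fin m → Fin n → ℚ)
    (b : Fin m → ℚ) (c : Fin n → ℚ), Lattice m n A b c → size A b c ≤ q.eval (m + n) := by
  set B : ℕ := sz (0 : ℚ) + sz (1 : ℚ) + sz (-1 : ℚ) with hB
  refine ⟨Polynomial.X * (Polynomial.X * Polynomial.C (B + 1) + 2) + 1 +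
    (Polynomial.X * Polynomial.C (B + 1) + 1) + (Polynomial.X * Polynomial.C (B + 1) + 1) + 2,
    fun m n A b c h => ?_⟩
  have h1 : sz (List.ofFn c) ≤ (List.ofFn c).length * (B + 1) + 1 :=
    sz_le_length_mul _ _ fun a ha => by
      obtain ⟨j, rfl⟩ := (List.mem_ofFn' _ _).1 ha
      exact sz_unit (h.cost j)
  have h2 : sz (List.ofFn b) ≤ (List.ofFn b).length * (B + 1) + 1 :=
    sz_le_length_mul _ _ fun a ha => by
      obtain ⟨j, rfl⟩ := (List.mem_ofFn' _ _).1 ha
      exact sz_unit (h.rhs j)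
  have h3 : ∀ i, sz (List.ofFn (A i)) ≤ n * (B + 1) + 1 := fun i => by
    have := sz_le_length_mul (List.ofFn (A i)) B fun a ha => by
      obtain ⟨j, rfl⟩ := (List.mem_ofFn' _ _).1 ha
      exact sz_unit (h.entry i j)
    rwa [List.length_ofFn] at this
  have h4 : sz (List.ofFn fun i => List.ofFn (A i)) ≤
      (List.ofFn fun i => List.ofFn (A i)).length * (n * (B + 1) + 1 + 1) + 1 :=
    sz_le_length_mul _ _ fun a ha => by
      obtain ⟨i, rfl⟩ := (List.mem_ofFn' _ _).1 ha
      exact h3 i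
  rw [List.length_ofFn] at h1 h2 h4
  rw [size_eq, sz_pair, sz_pair]
  simp only [Polynomial.eval_add, Polynomial.eval_mul, Polynomial.eval_X, Polynomial.eval_C,
    Polynomial.eval_ofNat, Polynomial.eval_one]
  have e1 : n * (B + 1) ≤ (m + n) * (B + 1) := Nat.mul_le_mul_right _ (by omega)
  have e2 : m * (B + 1) ≤ (m + n) * (B + 1) := Nat.mul_le_mul_right _ (by omega)
  have e3 : m * (n * (B + 1) + 1 + 1) ≤ (m + n) * ((m + n) * (B + 1) + 2) :=
    Nat.mul_le_mul (by omega) (by omega)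
  omega

end Pool.Agent.H43.PL
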