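import Pool.Agent.H43.PL.Pos
set_option autoImplicit false

/-!
# Different variables have different places
-/

namespace Pool.Agent.H43.PL

theorem injV {P : Par} (hP : P.Ok) {t l a b t' l' a' b' : ℕ} {x y : ℤ}
    (h : SpecV P t l a b x y) (h' : SpecV P t' l' a' b' x y) :
    t = t' ∧ l = l' ∧ a = a' ∧ b = b' := by
  have hI := hP.I2
  cases h <;> cases h' <;>
    first
    | (exfalso; omega)
    | (refine ⟨rfl, rfl, ?_, ?_⟩ <;> omega)
    | (refine ⟨rfl, ?_, ?_, rfl⟩ <;> omega)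

theorem posV_inj {P : Par} (hP : P.Ok) {v w : Key} (hv : IsVar P v) (hw : IsVar P w)
    (h : posV P v = posV P w) : v = w := by
  obtain ⟨t, l, a, b⟩ := v
  obtain ⟨t', l', a', b'⟩ := w
  have h1 := specV hv
  have h2 := specV hw
  rw [h] at h1
  obtain ⟨rfl, rfl, rfl, rfl⟩ := injV hP h1 h2
  rfl

end Pool.Agent.H43.PL
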