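import Pool.Agent.H43.PL.Defs
set_option autoImplicit false

/-!
# Linear programs carried by affine maps
-/

namespace Pool.Agent.H43.PL

open Pool.Agent.Y644.QS

section

variable {n n' : ℕ} {T : (Fin n → ℝ) →ᵃ[ℝ] (Fin n' → ℝ)} {e : Fin n → Fin n'}
  {P : Set (Fin n → ℝ)}

theorem T_inj (hp : ∀ (x : Fin n → ℝ) (j : Fin n), T x (e j) = x j) : Function.Injective T := by
  intro x y h
  funext j
  rw [← hp x j, ← hp y j, h]

theorem mem_image_T (hp : ∀ (x : Fin n → ℝ) (j : Fin n), T x (e j) = x j) {x : Fin n → ℝ} :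
    T x ∈ T '' P ↔ x ∈ P := (T_inj hp).mem_set_image

theorem extreme_down (hp : ∀ (x : Fin n → ℝ) (j : Fin n), T x (e j) = x j) {x : Fin n → ℝ}
    (h : T x ∈ Set.extremePoints ℝ (T '' P)) : x ∈ Set.extremePoints ℝ P := by
  refine ⟨(mem_image_T hp).1 h.1, fun y hy z hz hx => ?_⟩
  have h1 : T x ∈ openSegment ℝ (T y) (T z) := by
    rw [← image_openSegment]
    exact Set.mem_image_of_mem _ hx
  exact T_inj hp (h.2 (Set.mem_image_of_mem _ hy) (Set.mem_image_of_mem _ hz) h1)

theorem extreme_up (hp : ∀ (x : Fin n → ℝ) (j : Fin n), T x (e j) = x j) {x : Fin n → ℝ}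
    (h : x ∈ Set.extremePoints ℝ P) : T x ∈ Set.extremePoints ℝ (T '' P) := by
  refine ⟨Set.mem_image_of_mem _ h.1, ?_⟩
  rintro _ ⟨y, hy, rfl⟩ _ ⟨z, hz, rfl⟩ hx
  rw [← image_openSegment] at hx
  obtain ⟨w, hw, hw'⟩ := hx
  rw [T_inj hp hw'] at hw
  rw [h.2 hy hz hw]

theorem exposed_down (hp : ∀ (x : Fin n → ℝ) (j : Fin n), T x (e j) = x j) {S : Set (Fin n → ℝ)}
    (h : IsExposed ℝ (T '' P) (T '' S)) : IsExposed ℝ P S := by
  intro hS
  obtain ⟨l, hl⟩ := h (hS.image T)
  refine ⟨l.comp T.linear.toContinuousLinearMap, ?_⟩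
  have key : ∀ x y : Fin n → ℝ, l (T y) ≤ l (T x) ↔
      (l.comp T.linear.toContinuousLinearMap) y ≤ (l.comp T.linear.toContinuousLinearMap) x := by
    intro x y
    have e1 : ∀ z : Fin n → ℝ, l (T z) =
        (l.comp T.linear.toContinuousLinearMap) z + l (T 0) := by
      intro z
      have : T z = T.linear z + T 0 := by
        have := congrFun T.decomp z
        simpa using this
      rw [this, map_add]
      rfl
    rw [e1 x, e1 y]
    exact add_le_add_iff_right _
  ext x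
  rw [← mem_image_T (P := S) hp, hl]
  constructor
  · rintro ⟨h1, h2⟩
    exact ⟨(mem_image_T hp).1 h1, fun y hy => (key x y).1 (h2 _ (Set.mem_image_of_mem _ hy))⟩
  · rintro ⟨h1, h2⟩
    refine ⟨Set.mem_image_of_mem _ h1, ?_⟩
    rintro _ ⟨y, hy, rfl⟩
    exact (key x y).2 (h2 y hy)

theorem obj_add {c : Fin n → ℚ} (x y : Fin n → ℝ) : obj c (x + y) = obj c x + obj c y := by
  simp [obj, mul_add, Finset.sum_add_distrib]

theorem T_lin (x : Fin n → ℝ) : T x = T.linear x + T 0 := by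
  have := congrFun T.decomp x
  simpa using this

theorem re_comp (x : Fin n' → ℚ) (e : Fin n → Fin n') : re (x ∘ e) = re x ∘ e := rfl

theorem re_inj {x y : Fin n → ℚ} (h : re x = re y) : x = y := by
  funext j
  have := congrFun h j
  simpa [re] using this

end

variable {m n m' n' : ℕ} {A : Fin m → Fin n → ℚ} {b : Fin m → ℚ} {c : Fin n → ℚ}
    {A' : Fin m' → Fin n' → ℚ} {b' : Fin m' → ℚ} {c' : Fin n' → ℚ}
    {T : (Fin n → ℝ) →ᵃ[ℝ] (Fin n' → ℝ)} {e : Fin n → Fin n'} {κ : ℝ}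

theorem Carries.lift (h : Carries A b c A' b' c' T e κ) {x : Fin n' → ℝ}
    (hx : x ∈ polyhedron A' b') : x = T (x ∘ e) := by
  rw [h.image] at hx
  obtain ⟨y, -, rfl⟩ := hx
  congr 1
  funext j
  exact (h.proj y j).symm

theorem Carries.cost_lin (h : Carries A b c A' b' c' T e κ) (d : Fin n → ℝ) :
    obj c' (T.linear d) = κ * obj c d := by
  have h1 := h.cost d
  have h2 := h.cost 0
  rw [T_lin, obj_add, h2] at h1
  have h3 : obj c (0 : Fin n → ℝ) = 0 := by simp [obj]
  rw [h3, mul_zero, add_zero] at h1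
  exact h1

/-- Simplex paths can be carried back. -/
theorem Carries.path (h : Carries A b c A' b' c' T e κ) {v : Fin n → ℚ} {v' : Fin n' → ℚ}
    (hv : re v' = T (re v)) {N : ℕ} {x : ℕ → Fin n' → ℚ} {d : Option (Fin n' → ℚ)}
    (hx : IsSimplexPath (polyhedron A' b') c' v' N x d) :
    IsSimplexPath (polyhedron A b) c v N (fun k => x k ∘ e) (d.map fun f => f ∘ e) := by
  obtain ⟨h1, h2, h3, h4, h5⟩ := hx
  have hl : ∀ k ≤ N, re (x k) = T (re (x k ∘ e)) := fun k hk => h.lift (h2 k hk).1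
  refine ⟨?_, fun k hk => ?_, fun k hk => ?_, fun hd y hy => ?_, fun f hf => ?_⟩
  · refine re_inj ?_
    change re (x 0 ∘ e) = re v
    rw [h1]
    funext j
    rw [re_comp, hv, Function.comp_apply]
    exact h.proj _ j
  · have := h2 k hk
    rw [h.image, hl k hk] at this
    exact extreme_down h.proj this
  · obtain ⟨g1, g2⟩ := h3 k hk
    rw [h.image, hl k hk.le, hl (k + 1) hk, ← image_segment] at g1
    rw [hl k hk.le, hl (k + 1) hk, h.cost, h.cost] at g2
    exact ⟨exposed_down h.proj g1, lt_of_mul_lt_mul_left g2 h.pos.le⟩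
  · have hd' : d = none := by
      cases d with
      | none => rfl
      | some f => simp at hd
    have g1 := h4 hd' (T y) (by rw [h.image]; exact Set.mem_image_of_mem _ hy)
    rw [hl N le_rfl, h.cost, h.cost] at g1
    exact le_of_mul_le_mul_left g1 h.pos
  · rw [Option.map_eq_some_iff] at hf
    obtain ⟨f', hf', rfl⟩ := hf
    obtain ⟨g1, g2⟩ := h5 f' hf'
    have g3 : re (x N) + re f' ∈ polyhedron A' b' := by
      refine g1.subset ⟨1, zero_le_one, ?_⟩
      rw [one_smul]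
    have g4 := h.lift g3
    have g5 : re f' = T.linear (re (f' ∘ e)) := by
      have e1 : (re (x N) + re f') ∘ e = re (x N ∘ e) + re (f' ∘ e) := rfl
      rw [e1, T_lin, map_add] at g4
      have e2 := hl N le_rfl
      rw [T_lin] at e2
      have e3 : re (x N) + re f' = re (x N) + T.linear (re (f' ∘ e)) := by
        rw [g4]
        conv_rhs => rw [e2]
        abel
      exact add_left_cancel e3
    have g6 : {z : Fin n' → ℝ | ∃ t : ℝ, 0 ≤ t ∧ z = re (x N) + t • re f'} =
        T '' {z | ∃ t : ℝ, 0 ≤ t ∧ z = re (x N ∘ e) + t • re (f' ∘ e)} := by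
      have e4 : ∀ t : ℝ, T (re (x N ∘ e) + t • re (f' ∘ e)) = re (x N) + t • re f' := by
        intro t
        rw [T_lin, map_add, map_smul, ← g5]
        have e2 := hl N le_rfl
        rw [T_lin] at e2
        conv_rhs => rw [e2]
        abel
      ext z
      constructor
      · rintro ⟨t, ht, rfl⟩
        exact ⟨_, ⟨t, ht, rfl⟩, e4 t⟩
      · rintro ⟨_, ⟨t, ht, rfl⟩, rfl⟩
        exact ⟨t, ht, e4 t⟩
    rw [h.image, g6] at g1
    rw [g5, h.cost_lin] at g2
    exact ⟨exposed_down h.proj g1, (mul_pos_iff_of_pos_left h.pos).1 g2⟩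

end Pool.Agent.H43.PL
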