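import Pool.Agent.H43.PL.Mat
import Pool.Agent.H43.PL.Transfer
set_option autoImplicit false

/-!
# The planar system of a linear program
-/

namespace Pool.Agent.H43.PL

open Pool.Agent.Y644.QS Pool.Agent.NPC Pool.Agent.NPC.H532.RP Pool.Agent.H687R2.LLL

/-- binary digits of the positive part -/
def bt (W : ℕ) (z : ℤ) (l : ℕ) : Bool := decide (z.toNat / (pw W 2 l).toNat % 2 = 1)

/-- the integer rows of the inequalities and of the objective function -/
def Zr (x : Inp) : List (List ℤ) := rowsA x ++ [crow x]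

/-- a bound for the length of all numbers -/
def Wd (x : Inp) : ℕ := sz (Zr x)

/-- entries of the integer rows, with signs -/
def ent (x : Inp) (r j : ℕ) : ℤ :=
  if r % 2 = 0 then ((Zr x).getD (r / 2) []).getD j 0 else -((Zr x).getD (r / 2) []).getD j 0

/-- number of horizontal wires -/
def pI (x : Inp) : ℕ := 2 * (rowsA x).length + 2
/-- number of vertical wires -/
def pJ (x : Inp) : ℕ := (x.2.2.1.length + 1) * Wd x
/-- number of inequalities -/
def pm (x : Inp) : ℕ := (rowsA x).length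
/-- the wire of the constant -/
def pc (x : Inp) : ℕ := x.2.2.1.length * Wd x
/-- the incidences -/
def pbe (x : Inp) (r c : ℕ) : Bool := bt (Wd x) (ent x r (c / Wd x)) (c % Wd x)
/-- the doublings -/
def pdb (x : Inp) (c : ℕ) : Bool := decide ((c + 1) % Wd x ≠ 0)

/-- the parameters of the planar system -/
def par (x : Inp) : Par where
  I := pI x
  J := pJ x
  m := pm x
  c0 := pc x
  be := pbe x
  db := pdb x
  box := false

theorem Wd_pos (x : Inp) : 0 < Wd x := by
  have := length_lt_sz (Zr x)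
  unfold Wd
  omega

theorem par_ok (x : Inp) : (par x).Ok := by
  refine ⟨rfl, ?_⟩
  change x.2.2.1.length * Wd x < (x.2.2.1.length + 1) * Wd x
  have := Wd_pos x
  nlinarith

theorem bt_eq {W l : ℕ} (h : l ≤ W) (z : ℤ) : bt W z l = decide (z.toNat / 2 ^ l % 2 = 1) := by
  unfold bt
  rw [pw_eq h]
  have : ((2 : ℤ) ^ l).toNat = 2 ^ l := by
    rw [show ((2 : ℤ) ^ l) = ((2 ^ l : ℕ) : ℤ) by push_cast; rfl]
    exact Int.toNat_natCast _
  rw [this]

theorem getD_mem_or {α : Type} (l : List α) (i : ℕ) (d : α) : l.getD i d ∈ l ∨ l.getD i d = d := by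
  by_cases h : i < l.length
  · left; rw [List.getD_eq_getElem _ _ h]; exact List.getElem_mem _
  · right; rw [List.getD_eq_default _ _ (by omega)]

theorem ent_lt (x : Inp) (r j : ℕ) : (ent x r j).toNat < 2 ^ Wd x := by
  have h1 : (ent x r j).toNat ≤ (((Zr x).getD (r / 2) []).getD j 0).natAbs := by
    unfold ent
    split_ifs <;> omega
  refine lt_of_le_of_lt h1 ?_
  rcases getD_mem_or ((Zr x).getD (r / 2) []) j 0 with h2 | h2
  · rcases getD_mem_or (Zr x) (r / 2) [] with h3 | h3
    · refine lt_of_le_of_lt (natAbs_le_nrm h2) (lt_of_lt_of_le (nrm_lt _) ?_)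
      exact Nat.pow_le_pow_right (by norm_num) (sz_le_of_mem h3).le
    · rw [h3] at h2; simp at h2
  · rw [h2]
    simp

theorem ent_sub (x : Inp) (i j : ℕ) : ((ent x (2 * i) j).toNat : ℝ) - (ent x (2 * i + 1) j).toNat =
    (((Zr x).getD i []).getD j 0 : ℤ) := by
  unfold ent
  rw [if_pos (by omega), if_neg (by omega), show 2 * i / 2 = i by omega,
    show (2 * i + 1) / 2 = i by omega]
  generalize ((Zr x).getD i []).getD j 0 = z
  have := Int.toNat_sub_toNat_neg z
  have h2 : (((z.toNat : ℤ) - ((-z).toNat : ℤ) : ℤ) : ℝ) = (z : ℝ) := by rw [this]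
  push_cast at h2
  exact h2

section

variable {R : Type*} [CommRing R]

/-- values of the vertical wires -/
def wire (W : ℕ) (xx : ℕ → R) (c : ℕ) : R := 2 ^ (c % W) * xx (c / W)

theorem wire_mul {W : ℕ} (hW : 0 < W) (xx : ℕ → R) (k : ℕ) : wire W xx (k * W) = xx k := by
  unfold wire
  rw [Nat.mul_mod_left, Nat.mul_div_cancel _ hW, pow_zero, one_mul]

theorem ps_block (x : Inp) (xx : ℕ → R) (r k : ℕ) : ∀ t : ℕ, t ≤ Wd x →
    ps (par x).be (wire (Wd x) xx) r (k * Wd x + t) =
      ps (par x).be (wire (Wd x) xx) r (k * Wd x) +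
        (((ent x r k).toNat % 2 ^ t : ℕ) : R) * xx k
  | 0, _ => by simp [Nat.mod_one]
  | t + 1, ht => by
    have hW : 0 < Wd x := by omega
    rw [← add_assoc, ps, ps_block x xx r k t (by omega)]
    have h1 : (k * Wd x + t) / Wd x = k := by
      rw [mul_comm, Nat.mul_add_div hW, Nat.div_eq_of_lt (by omega), add_zero]
    have h2 : (k * Wd x + t) % Wd x = t := by
      rw [mul_comm, Nat.mul_add_mod, Nat.mod_eq_of_lt (by omega)]
    have h3 : (par x).be r (k * Wd x + t) = decide ((ent x r k).toNat / 2 ^ t % 2 = 1) := by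
      change bt (Wd x) (ent x r ((k * Wd x + t) / Wd x)) ((k * Wd x + t) % Wd x) = _
      rw [h1, h2, bt_eq (by omega)]
    have h4 : wire (Wd x) xx (k * Wd x + t) = 2 ^ t * xx k := by
      unfold wire; rw [h1, h2]
    rw [h3, h4, Nat.mod_pow_succ]
    rcases Nat.mod_two_eq_zero_or_one ((ent x r k).toNat / 2 ^ t) with h5 | h5
    · rw [h5]; simp
    · rw [h5]; simp; ring

theorem ps_blocks (x : Inp) (xx : ℕ → R) (r : ℕ) : ∀ k : ℕ,
    ps (par x).be (wire (Wd x) xx) r (k * Wd x) =
      ∑ j ∈ Finset.range k, ((ent x r j).toNat : R) * xx j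
  | 0 => by simp [ps]
  | k + 1 => by
    rw [Nat.succ_mul, ps_block x xx r k _ le_rfl, ps_blocks x xx r k, Finset.sum_range_succ,
      Nat.mod_eq_of_lt (ent_lt x r k)]

end

variable {m n : ℕ} {A : Fin m → Fin n → ℚ} {b : Fin m → ℚ} {c v : Fin n → ℚ}

/-- coordinates, with value one of the constant -/
def cor {R : Type*} [One R] (x : Fin n → R) (j : ℕ) : R := if h : j < n then x ⟨j, h⟩ else 1

theorem row_sum (x : Fin n → ℝ) (l : List ℤ) :
    ∑ j ∈ Finset.range (n + 1), (l.getD j 0 : ℝ) * cor x j =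
      ∑ j : Fin n, (l.getD j 0 : ℝ) * x j + (l.getD n 0 : ℝ) := by
  rw [Finset.sum_range_succ, Finset.sum_range]
  congr 1
  · refine Finset.sum_congr rfl fun j _ => ?_
    unfold cor
    rw [dif_pos j.2]
  · unfold cor
    rw [dif_neg (lt_irrefl _), mul_one]

theorem len_c : (inp A b c v).2.2.1.length = n := by simp [Pool.Agent.Y644.QS.inp]

theorem rowsA_inp : rowsA (inp A b c v) =
    List.ofFn fun i => zrow (List.ofFn (A i) ++ [-b i]) := by
  unfold rowsA Pool.Agent.Y644.QS.inp
  refine List.ext_getElem (by simp) fun i h1 h2 => ?_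
  simp

theorem len_rowsA : (rowsA (inp A b c v)).length = m := by rw [rowsA_inp]; simp

theorem Zr_lt {i : ℕ} (hi : i < m) : (Zr (inp A b c v)).getD i [] =
    zrow (List.ofFn (A ⟨i, hi⟩) ++ [-b ⟨i, hi⟩]) := by
  unfold Zr
  rw [List.getD_append _ _ _ _ (by rw [len_rowsA]; exact hi), rowsA_inp,
    List.getD_eq_getElem _ _ (by simpa using hi)]
  simp

theorem Zr_last : (Zr (inp A b c v)).getD m [] = zrow (List.ofFn c ++ [0]) := by
  unfold Zr
  rw [List.getD_append_right _ _ _ _ (by rw [len_rowsA]), len_rowsA]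
  simp [crow, Pool.Agent.Y644.QS.inp]

theorem zsum (a : Fin n → ℚ) (q : ℚ) (x : Fin n → ℝ) :
    ∑ j : Fin n, (((zrow (List.ofFn a ++ [q])).getD j 0 : ℤ) : ℝ) * x j +
      (((zrow (List.ofFn a ++ [q])).getD n 0 : ℤ) : ℝ) =
    (zden (List.ofFn a ++ [q]) : ℝ) * (∑ j, (a j : ℝ) * x j + q) := by
  rw [getD_zrow', getD_ofFn_append_last, mul_add, Finset.mul_sum]
  congr 1
  refine Finset.sum_congr rfl fun j _ => ?_
  rw [getD_zrow', getD_ofFn_append]
  ring

/-- the difference of two horizontal wires -/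
theorem ps_sub (X : Inp) (hX : X = inp A b c v) (x : Fin n → ℝ) (i : ℕ) :
    ps (par X).be (wire (Wd X) (cor x)) (2 * i) (par X).J -
      ps (par X).be (wire (Wd X) (cor x)) (2 * i + 1) (par X).J =
    ∑ j : Fin n, (((Zr X).getD i []).getD j 0 : ℝ) * x j + (((Zr X).getD i []).getD n 0 : ℝ) := by
  have hJ : (par X).J = (n + 1) * Wd X := by
    change (X.2.2.1.length + 1) * Wd X = _
    rw [hX, len_c]
  rw [hJ, ps_blocks, ps_blocks, ← Finset.sum_sub_distrib, ← row_sum]
  refine Finset.sum_congr rfl fun j _ => ?_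
  rw [← sub_mul, ent_sub]

theorem adm_wire (x : Fin n → ℝ) (hx : x ∈ polyhedron A b) :
    Adm (par (inp A b c v)) (wire (Wd (inp A b c v)) (cor x)) := by
  have hW := Wd_pos (inp A b c v)
  have hn : (inp A b c v).2.2.1.length = n := len_c
  have hm : (rowsA (inp A b c v)).length = m := len_rowsA
  have hsub := fun i => ps_sub (inp A b c v) rfl x i
  generalize hX : inp A b c v = X at *
  refine ⟨fun d hd => ?_, ?_, fun d hd hdb => ?_, fun i hi => ?_, fun h => ?_⟩
  · unfold wire cor
    split_ifs with h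
    · exact mul_nonneg (by positivity) (hx.2 _)
    · positivity
  · change wire (Wd X) (cor x) (X.2.2.1.length * Wd X) = 1
    rw [wire_mul hW, hn]
    unfold cor
    rw [dif_neg (lt_irrefl _)]
  · change decide ((d + 1) % Wd X ≠ 0) = true at hdb
    rw [decide_eq_true_eq] at hdb
    have h1 : (d + 1) / Wd X = d / Wd X := by
      rw [Nat.succ_div, if_neg (fun h => hdb (Nat.mod_eq_zero_of_dvd h))]
      rfl
    have h2 : (d + 1) % Wd X = d % Wd X + 1 := by
      have e1 := Nat.div_add_mod (d + 1) (Wd X)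
      have e2 := Nat.div_add_mod d (Wd X)
      rw [h1] at e1
      omega
    unfold wire
    rw [h1, h2, pow_succ]
    ring
  · change i < (rowsA X).length at hi
    rw [hm] at hi
    have h1 := hsub i
    rw [← hX, Zr_lt hi, zsum, hX] at h1
    have h2 := hx.1 ⟨i, hi⟩
    have h3 : (0 : ℝ) < zden (List.ofFn (A ⟨i, hi⟩) ++ [-b ⟨i, hi⟩]) := by
      exact_mod_cast zden_pos _
    have h4 : ∑ j, (A ⟨i, hi⟩ j : ℝ) * x j + ((-b ⟨i, hi⟩ : ℚ) : ℝ) ≤ 0 := by
      push_cast
      linarith
    nlinarith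
  · change false = true at h
    simp at h

theorem wire_of_adm {Y : ℕ → ℝ} (hY : Adm (par (inp A b c v)) Y) :
    ∃ x ∈ polyhedron A b, ∀ d < (par (inp A b c v)).J,
      Y d = wire (Wd (inp A b c v)) (cor x) d := by
  have hW := Wd_pos (inp A b c v)
  have hn : (inp A b c v).2.2.1.length = n := len_c
  have hm : (rowsA (inp A b c v)).length = m := len_rowsA
  have hsub := fun (x : Fin n → ℝ) i => ps_sub (inp A b c v) rfl x i
  have hZ : ∀ i (hi : i < m), (Zr (inp A b c v)).getD i [] =
    zrow (List.ofFn (A ⟨i, hi⟩) ++ [-b ⟨i, hi⟩]) := fun i hi => Zr_lt hi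
  generalize hX : inp A b c v = X at *
  have hJ : (par X).J = (n + 1) * Wd X := by
    change (X.2.2.1.length + 1) * Wd X = _
    rw [hn]
  let x : Fin n → ℝ := fun j => Y (j * Wd X)
  have hone : Y (n * Wd X) = 1 := by
    have := hY.one
    change Y (X.2.2.1.length * Wd X) = 1 at this
    rwa [hn] at this
  have hblock : ∀ k ≤ n, ∀ t < Wd X, Y (k * Wd X + t) = 2 ^ t * Y (k * Wd X) := by
    intro k hk t
    induction t with
    | zero => intro _; simp
    | succ t ih =>
      intro ht
      have h1 := ih (by omega)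
      have h2 : (k * Wd X + t + 1) % Wd X ≠ 0 := by
        rw [add_assoc, mul_comm, Nat.mul_add_mod, Nat.mod_eq_of_lt (by omega)]
        omega
      have h3 : k * Wd X + t + 1 < (par X).J := by
        rw [hJ]
        have : k * Wd X ≤ n * Wd X := Nat.mul_le_mul_right _ hk
        have : (n + 1) * Wd X = n * Wd X + Wd X := by ring
        omega
      have h4 := hY.dbl (k * Wd X + t) h3 (by
        change decide ((k * Wd X + t + 1) % Wd X ≠ 0) = true
        simpa using h2)
      rw [← add_assoc, h4, h1, pow_succ]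
      ring
  have hwire : ∀ d < (par X).J, Y d = wire (Wd X) (cor x) d := by
    intro d hd
    rw [hJ] at hd
    have h1 : d / Wd X < n + 1 := (Nat.div_lt_iff_lt_mul hW).2 hd
    have h2 : d % Wd X < Wd X := Nat.mod_lt _ hW
    have h3 := hblock (d / Wd X) (by omega) (d % Wd X) h2
    have h4 : d / Wd X * Wd X + d % Wd X = d := by
      rw [mul_comm]; exact Nat.div_add_mod d (Wd X)
    rw [h4] at h3
    rw [h3]
    unfold wire cor
    congr 1
    split_ifs with h5
    · rfl
    · rw [show d / Wd X = n by omega, hone]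
  refine ⟨x, ⟨fun i => ?_, fun j => ?_⟩, hwire⟩
  · have h1 := hsub x i
    have h2 := hY.le i (by change (i : ℕ) < (rowsA X).length; rw [hm]; exact i.2)
    rw [ps_congr hwire, ps_congr hwire] at h2
    rw [hZ i i.2, zsum] at h1
    have h3 : (0 : ℝ) < zden (List.ofFn (A i) ++ [-b i]) := by
      exact_mod_cast zden_pos _
    have h4 : (zden (List.ofFn (A i) ++ [-b i]) : ℝ) *
        (∑ j, (A i j : ℝ) * x j + ((-b i : ℚ) : ℝ)) ≤ 0 := by
      refine le_trans (le_of_eq h1.symm) (by linarith)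
    have h5 : ∑ j, (A i j : ℝ) * x j + ((-b i : ℚ) : ℝ) ≤ 0 := by
      by_contra h6
      push Not at h6
      have := mul_pos h3 h6
      linarith
    push_cast at h5
    linarith
  · refine hY.nonneg _ ?_
    rw [hJ]
    have h1 : (j : ℕ) < n := j.2
    have h2 : (j : ℕ) * Wd X < n * Wd X := Nat.mul_lt_mul_of_pos_right h1 hW
    have : (n + 1) * Wd X = n * Wd X + Wd X := by ring
    omega

end Pool.Agent.H43.PL
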