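import Pool.Agent.H43.PL.Sol
import Pool.Agent.H43.PL.InjV
import Pool.Agent.H43.PL.InjR
import Pool.Graph.R_seed8.Y644.QS.Final
set_option autoImplicit false

/-!
# The matrix of the planar system
-/

namespace Pool.Agent.H43.PL

open Pool.Agent.Y644.QS

/-- all keys with bounded entries -/
def keys (T A : ℕ) : List Key :=
  List.range T ×ˢ (List.range 2 ×ˢ (List.range A ×ˢ List.range A))

theorem mem_keys {T A : ℕ} {v : Key} :
    v ∈ keys T A ↔ v.1 < T ∧ v.2.1 < 2 ∧ v.2.2.1 < A ∧ v.2.2.2 < A := by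
  obtain ⟨t, l, a, b⟩ := v
  simp [keys, List.mem_product]

theorem nodup_keys (T A : ℕ) : (keys T A).Nodup :=
  List.nodup_range.product (List.nodup_range.product (List.nodup_range.product List.nodup_range))

/-- a bound for the keys -/
def Sz (P : Par) : ℕ := 8 * P.J + 6 * P.I + 16

/-- the list of variables -/
def Vl (P : Par) : List Key := (keys 9 (Sz P)).filter fun v => decide (IsVar P v)

/-- the list of rows -/
def Rl (P : Par) : List Key := (keys 15 (Sz P)).filter fun v => decide (IsRow P v)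

theorem nodup_Vl (P : Par) : (Vl P).Nodup := (nodup_keys _ _).filter _
theorem nodup_Rl (P : Par) : (Rl P).Nodup := (nodup_keys _ _).filter _

theorem mem_Vl {P : Par} {v : Key} : v ∈ Vl P ↔ IsVar P v := by
  unfold Vl
  rw [List.mem_filter, decide_eq_true_eq, mem_keys]
  refine ⟨fun h => h.2, fun h => ⟨?_, h⟩⟩
  obtain ⟨t, l, a, b⟩ := v
  unfold IsVar K at h
  unfold Sz
  dsimp only at *
  rcases h with h | h | h | ⟨h, h'⟩ | h <;> omega

theorem mem_Rl {P : Par} (hP : P.Ok) {v : Key} : v ∈ Rl P ↔ IsRow P v := by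
  have hI := hP.I2
  unfold Rl
  rw [List.mem_filter, decide_eq_true_eq, mem_keys]
  refine ⟨fun h => h.2, fun h => ⟨?_, h⟩⟩
  obtain ⟨t, l, a, b⟩ := v
  unfold Sz
  simp only [IsRow, K] at h
  dsimp only
  rcases h with h | h | ⟨h, h'⟩ | h | h | h | ⟨h, h'⟩ | h
  · omega
  · omega
  · have : t < 15 := by
      rcases h with h | h | h | ⟨h, -⟩ | ⟨h, -⟩ | h | h <;> omega
    omega
  · omega
  · omega
  · omega
  · have : t < 15 := by omega
    omega
  · omega

/-- the coefficient of a variable -/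
def coef (ts : List (ℤ × Key)) (v : Key) : ℤ := (ts.map fun p => if p.2 = v then p.1 else 0).sum

theorem coef_nil (v : Key) : coef [] v = 0 := rfl
theorem coef_cons (p : ℤ × Key) (ts : List (ℤ × Key)) (v : Key) :
    coef (p :: ts) v = (if p.2 = v then p.1 else 0) + coef ts v := rfl

theorem coef_eq_zero {ts : List (ℤ × Key)} {v : Key} (h : v ∉ ts.map Prod.snd) :
    coef ts v = 0 := by
  induction ts with
  | nil => rfl
  | cons p ts ih =>
    rw [List.map_cons, List.mem_cons, not_or] at h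
    rw [coef_cons, if_neg (fun e => h.1 e.symm), ih h.2, zero_add]

theorem coef_unit {ts : List (ℤ × Key)} {v : Key} (h : (ts.map Prod.snd).Nodup)
    (h1 : ∀ p ∈ ts, p.1 = 1 ∨ p.1 = -1) : coef ts v = 0 ∨ coef ts v = 1 ∨ coef ts v = -1 := by
  induction ts with
  | nil => exact Or.inl rfl
  | cons p ts ih =>
    rw [List.map_cons, List.nodup_cons] at h
    rw [coef_cons]
    by_cases hv : p.2 = v
    · subst hv
      rw [if_pos rfl, coef_eq_zero h.1, add_zero]
      exact Or.inr (h1 p (by simp))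
    · rw [if_neg hv, zero_add]
      exact ih h.2 fun q hq => h1 q (by simp [hq])

/-- a vector as a function of the keys -/
noncomputable def ext (P : Par) (x : Fin (Vl P).length → ℝ) (v : Key) : ℝ :=
  if h : (Vl P).idxOf v < (Vl P).length then x ⟨_, h⟩ else 0

theorem ext_get (P : Par) (x : Fin (Vl P).length → ℝ) (j : Fin (Vl P).length) :
    ext P x (Vl P)[j] = x j := by
  unfold ext
  have h : (Vl P).idxOf (Vl P)[j] = j := (nodup_Vl P).idxOf_getElem _ _
  have h2 : (Vl P).idxOf (Vl P)[j] < (Vl P).length := by rw [h]; exact j.2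
  rw [dif_pos h2]
  congr 1
  exact Fin.ext h

theorem sum_coef (P : Par) (x : Fin (Vl P).length → ℝ) (ts : List (ℤ × Key))
    (h : ∀ p ∈ ts, IsVar P p.2) :
    ∑ j, (coef ts (Vl P)[j] : ℝ) * x j = ev (ext P x) ts := by
  induction ts with
  | nil => simp [coef_nil, ev]
  | cons p ts ih =>
    have h1 := ih fun q hq => h q (by simp [hq])
    have h2 : ev (ext P x) (p :: ts) = p.1 * ext P x p.2 + ev (ext P x) ts := by simp [ev]
    rw [h2, ← h1]
    obtain ⟨k, hk, hk'⟩ := List.getElem_of_mem (mem_Vl.2 (h p (by simp)))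
    have h3 : ext P x p.2 = x ⟨k, hk⟩ := by
      rw [← hk']
      exact ext_get P x ⟨k, hk⟩
    have h4 : ∑ j : Fin (Vl P).length, ((if p.2 = (Vl P)[j] then p.1 else 0 : ℤ) : ℝ) * x j =
        p.1 * x ⟨k, hk⟩ := by
      rw [Finset.sum_eq_single ⟨k, hk⟩]
      · change ((if p.2 = (Vl P)[k] then p.1 else 0 : ℤ) : ℝ) * _ = _
        rw [if_pos hk'.symm]
      · intro j _ hj
        rw [if_neg]
        · simp
        · intro e
          apply hj
          refine Fin.ext ?_
          rw [← hk'] at e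
          exact ((nodup_Vl P).getElem_inj_iff.1 e).symm
      · intro h; simp at h
    rw [h3, ← h4, ← Finset.sum_add_distrib]
    refine Finset.sum_congr rfl fun j _ => ?_
    rw [coef_cons]
    push_cast
    ring

/-- the matrix -/
def mA (P : Par) : Fin (Rl P).length → Fin (Vl P).length → ℚ :=
  fun i j => coef (terms P (Rl P)[i]) (Vl P)[j]

/-- the right sides -/
def mb (P : Par) : Fin (Rl P).length → ℚ := fun i => rhs P (Rl P)[i]

/-- the objective function -/
def mc (P : Par) : Fin (Vl P).length → ℚ := fun j => coef (cterms P) (Vl P)[j]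

theorem cterms_var {P : Par} (hP : P.Ok) : ∀ p ∈ cterms P, IsVar P p.2 := by
  have hI := hP.I2
  intro p hp
  change p ∈ [(1, kE (2 * P.m) (3 * (P.I - 2 * P.m))),
    (-1, kE (2 * P.m + 1) (3 * (P.I - 2 * P.m - 1)))] at hp
  simp only [List.mem_cons, List.not_mem_nil, or_false] at hp
  rcases hp with rfl | rfl
  · exact isVar_E (by omega) (by omega)
  · exact isVar_E (by omega) (by omega)

theorem mem_polyhedron {P : Par} (hP : P.Ok) {x : Fin (Vl P).length → ℝ} :
    x ∈ polyhedron (mA P) (mb P) ↔ Feas P (ext P x) := by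
  unfold polyhedron
  rw [Set.mem_ofPred_eq]
  constructor
  · rintro ⟨h1, h2⟩
    refine ⟨fun v hv => ?_, fun r hr => ?_⟩
    · obtain ⟨k, hk, rfl⟩ := List.getElem_of_mem (mem_Vl.2 hv)
      rw [show ext P x (Vl P)[k] = x ⟨k, hk⟩ from ext_get P x ⟨k, hk⟩]
      exact h2 _
    · obtain ⟨k, hk, rfl⟩ := List.getElem_of_mem ((mem_Rl hP).2 hr)
      rw [← sum_coef P x _ fun p hp => (good hP hr p hp).var]
      have := h1 ⟨k, hk⟩
      simpa [mA, mb] using this
  · intro h
    refine ⟨fun i => ?_, fun j => ?_⟩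
    · have hr : IsRow P (Rl P)[i] := (mem_Rl hP).1 (List.getElem_mem _)
      have := h.row _ hr
      rw [← sum_coef P x _ fun p hp => (good hP hr p hp).var] at this
      simpa [mA, mb] using this
    · rw [← ext_get P x j]
      exact h.nonneg _ (mem_Vl.1 (List.getElem_mem _))

theorem obj_mc {P : Par} (hP : P.Ok) (x : Fin (Vl P).length → ℝ) :
    obj (mc P) x = ev (ext P x) (cterms P) := by
  rw [← sum_coef P x _ (cterms_var hP)]
  simp [obj, mc]

/-- the solution with given values of the vertical wires -/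
noncomputable def vec (P : Par) (Y : ℕ → ℝ) : Fin (Vl P).length → ℝ :=
  fun j => val P Y (Vl P)[j]

theorem ext_vec {P : Par} {Y : ℕ → ℝ} {v : Key} (hv : IsVar P v) :
    ext P (vec P Y) v = val P Y v := by
  obtain ⟨k, hk, rfl⟩ := List.getElem_of_mem (mem_Vl.2 hv)
  exact ext_get P (vec P Y) ⟨k, hk⟩

theorem ev_congr {X X' : Key → ℝ} {ts : List (ℤ × Key)} (h : ∀ p ∈ ts, X p.2 = X' p.2) :
    ev X ts = ev X' ts := by
  unfold ev
  congr 1
  refine List.map_congr_left fun p hp => ?_
  rw [h p hp]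

theorem Feas.congr {P : Par} (hP : P.Ok) {X X' : Key → ℝ} (h : Feas P X)
    (h' : ∀ v, IsVar P v → X v = X' v) : Feas P X' := by
  refine ⟨fun v hv => ?_, fun r hr => ?_⟩
  · rw [← h' v hv]; exact h.nonneg v hv
  · rw [← ev_congr fun p hp => h' _ (good hP hr p hp).var]; exact h.row r hr

/-- the polyhedron of the planar system -/
theorem polyhedron_eq {P : Par} (hP : P.Ok) :
    polyhedron (mA P) (mb P) = vec P '' {Y | Adm P Y} := by
  ext x
  rw [mem_polyhedron hP, Set.mem_image]
  constructor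
  · intro h
    refine ⟨_, h.adm hP, ?_⟩
    funext j
    have h1 := h.forced hP (v := (Vl P)[j]) (mem_Vl.1 (List.getElem_mem _))
    unfold vec
    rw [← h1]
    exact ext_get P x j
  · rintro ⟨Y, hY, rfl⟩
    exact (hY.feas hP).congr hP fun v hv => (ext_vec hv).symm

theorem obj_vec {P : Par} (hP : P.Ok) (Y : ℕ → ℝ) : obj (mc P) (vec P Y) =
    ps P.be Y (2 * P.m) P.J - ps P.be Y (2 * P.m + 1) P.J := by
  rw [obj_mc hP, ev_congr fun p hp => ext_vec (cterms_var hP p hp), ev_cterms]

/-! ### The shape of the matrix -/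

theorem yv_fst (I l r c : ℕ) : (yv I l r c).1 = 0 ∨ (yv I l r c).1 = 3 := by
  unfold yv
  split_ifs
  · exact Or.inl rfl
  · exact Or.inl rfl
  · exact Or.inr rfl

theorem sv_fst (I J l r c : ℕ) : (sv I J l r c).1 = 1 ∨ (sv I J l r c).1 = 2 := by
  unfold sv
  split_ifs
  · exact Or.inl rfl
  · exact Or.inl rfl
  · exact Or.inr rfl

theorem ne_yv {I l r c : ℕ} {v : Key} (h0 : v.1 ≠ 0) (h3 : v.1 ≠ 3) : v ≠ yv I l r c := by
  rintro rfl
  rcases yv_fst I l r c with h | h <;> contradiction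

theorem ne_sv {I J l r c : ℕ} {v : Key} (h0 : v.1 ≠ 1) (h3 : v.1 ≠ 2) : sv I J l r c ≠ v := by
  rintro rfl
  rcases sv_fst I J l r c with h | h <;> contradiction

theorem nodup_terms {P : Par} {r : Key} (hr : IsRow P r) :
    ((terms P r).map Prod.snd).Nodup ∧ (terms P r).length ≤ 3 := by
  obtain ⟨t, l, a, b⟩ := r
  simp only [IsRow] at hr
  rcases hr with ⟨rfl, rfl, h1, h2⟩ | ⟨rfl, rfl, h1, h2⟩ | ⟨ht, h0, h1, h2⟩ | ⟨rfl, h0, h1, rfl⟩ |
    ⟨rfl, rfl, h1, rfl⟩ | ⟨rfl, rfl, h1, rfl⟩ | ⟨ht, h0, h1, rfl, h2⟩ | ⟨rfl, h0, rfl, rfl⟩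
  · simp [terms, kN]
  · simp [terms, kE]
  · rcases ht with rfl | rfl | rfl | ⟨rfl, -⟩ | ⟨rfl, -⟩ | rfl | rfl
    · refine ⟨?_, le_rfl⟩
      change [kP l a b, kS l a b, yv P.I l a b].Nodup
      have e1 : kP l a b ≠ kS l a b := by simp [kP, kS]
      have e2 : kP l a b ≠ yv P.I l a b := ne_yv (by simp [kP]) (by simp [kP])
      have e3 : kS l a b ≠ yv P.I l a b := ne_yv (by simp [kS]) (by simp [kS])
      simp only [List.nodup_cons, List.mem_cons, List.not_mem_nil, or_false, not_or,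
        List.nodup_nil, not_false_eq_true, and_true]
      exact ⟨⟨e1, e2⟩, e3⟩
    · simp [terms, kP, kS, kZ]
    · simp [terms, kP, kQ, kT]
    · simp [terms, kZ, kT]
    · simp [terms, kT]
    · simp [terms, kY, kZ]
    · refine ⟨?_, by simp [terms]⟩
      change [sv P.I P.J l a (b + 1), kQ l a b].Nodup
      have e1 : sv P.I P.J l a (b + 1) ≠ kQ l a b := ne_sv (by simp [kQ]) (by simp [kQ])
      simp only [List.nodup_cons, List.mem_cons, List.not_mem_nil, or_false,
        List.nodup_nil, not_false_eq_true, and_true]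
      exact e1
  · simp [terms]
  · simp [terms, kY]
  · simp [terms, kE]
  · obtain rfl | rfl : l = 0 ∨ l = 1 := by omega
    · rcases ht with rfl | rfl
      · simp [terms, kN, kG]
      · simp [terms, kN, kG]
    · rcases ht with rfl | rfl
      · simp [terms, kN, kG]
      · simp [terms, kN, kG]
  · obtain rfl | rfl : l = 0 ∨ l = 1 := by omega
    · simp [terms]
    · simp [terms]

theorem ncard_le {α : Type*} [DecidableEq α] {l : List α} (hl : l.Nodup) (S : List α)
    {p : Fin l.length → Prop} (h : ∀ j, p j → l[j] ∈ S) : {j | p j}.ncard ≤ S.length := by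
  have hinj : Function.Injective fun j : Fin l.length => l[j] := by
    intro i j hij
    exact Fin.ext (hl.getElem_inj_iff.1 hij)
  rw [← Set.ncard_image_of_injective _ hinj]
  refine (Set.ncard_le_ncard (t := (S.toFinset : Set α)) ?_ (Finset.finite_toSet _)).trans ?_
  · rintro _ ⟨j, hj, rfl⟩
    simpa using h j hj
  · rw [Set.ncard_coe_finset]
    exact List.toFinset_card_le _

theorem mem_of_coef {ts : List (ℤ × Key)} {v : Key} (h : coef ts v ≠ 0) :
    v ∈ ts.map Prod.snd := by
  by_contra hv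
  exact h (coef_eq_zero hv)

theorem mA_entry {P : Par} (hP : P.Ok) (i : Fin (Rl P).length) (j : Fin (Vl P).length) :
    mA P i j = 0 ∨ mA P i j = 1 ∨ mA P i j = -1 := by
  have hr : IsRow P (Rl P)[i] := (mem_Rl hP).1 (List.getElem_mem _)
  have h1 := coef_unit (v := (Vl P)[j]) (nodup_terms hr).1 fun p hp => (good hP hr p hp).unit
  unfold mA
  rcases h1 with h | h | h <;> rw [h] <;> simp

theorem mA_row {P : Par} (hP : P.Ok) (i : Fin (Rl P).length) :
    {j | mA P i j ≠ 0}.ncard ≤ 3 := by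
  have hr : IsRow P (Rl P)[i] := (mem_Rl hP).1 (List.getElem_mem _)
  refine (ncard_le (nodup_Vl P) ((terms P (Rl P)[i]).map Prod.snd) fun j hj => ?_).trans ?_
  · refine mem_of_coef fun h => hj ?_
    unfold mA
    rw [h]
    rfl
  · rw [List.length_map]
    exact (nodup_terms hr).2

theorem mc_entry {P : Par} (j : Fin (Vl P).length) :
    mc P j = 0 ∨ mc P j = 1 ∨ mc P j = -1 := by
  have h1 := coef_unit (ts := cterms P) (v := (Vl P)[j]) (by simp [cterms, kE]) (by simp [cterms])
  unfold mc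
  rcases h1 with h | h | h <;> rw [h] <;> simp

theorem mc_card (P : Par) : {j | mc P j ≠ 0}.ncard ≤ 2 := by
  refine ncard_le (nodup_Vl P) ((cterms P).map Prod.snd) fun j hj => ?_
  refine mem_of_coef fun h => hj ?_
  unfold mc
  rw [h]
  rfl

theorem mb_entry (P : Par) (i : Fin (Rl P).length) :
    mb P i = 0 ∨ mb P i = 1 ∨ mb P i = -1 := by
  unfold mb rhs
  split_ifs <;> simp

theorem mb_card {P : Par} (hP : P.Ok) (hb : P.box = false) : {i | mb P i ≠ 0}.ncard ≤ 2 := by
  refine ncard_le (nodup_Rl P) [(14, 0, 0, 0), (14, 1, 0, 0)] fun i hi => ?_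
  have hr : IsRow P (Rl P)[i] := (mem_Rl hP).1 (List.getElem_mem _)
  have h1 : (Rl P)[i].1 = 14 := by
    by_contra h
    apply hi
    unfold mb rhs
    rw [if_neg h, hb]
    simp
  revert hr h1
  generalize (Rl P)[i] = r
  obtain ⟨t, l, a, b⟩ := r
  intro hr h1
  simp only [IsRow] at hr
  dsimp only at h1
  subst h1
  have h2 : l < 2 ∧ a = 0 ∧ b = 0 := by omega
  obtain ⟨h2, rfl, rfl⟩ := h2
  obtain rfl | rfl : l = 0 ∨ l = 1 := by omega
  · simp
  · simp

theorem places {P : Par} (hP : P.Ok) :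
    ∃ (f : Fin (Rl P).length → ℤ × ℤ) (g : Fin (Vl P).length → ℤ × ℤ),
      Function.Injective f ∧ Function.Injective g ∧ (∀ i j, f i ≠ g j) ∧
      ∀ i j, mA P i j ≠ 0 → |(f i).1 - (g j).1| + |(f i).2 - (g j).2| = 1 := by
  refine ⟨fun i => posR P (Rl P)[i], fun j => posV P (Vl P)[j], fun i j hij => ?_,
    fun i j hij => ?_, fun i j hij => ?_, fun i j hij => ?_⟩
  · have := posR_inj hP ((mem_Rl hP).1 (List.getElem_mem _)) ((mem_Rl hP).1 (List.getElem_mem _)) hij
    exact Fin.ext ((nodup_Rl P).getElem_inj_iff.1 this)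
  · have := posV_inj hP (mem_Vl.1 (List.getElem_mem _)) (mem_Vl.1 (List.getElem_mem _)) hij
    exact Fin.ext ((nodup_Vl P).getElem_inj_iff.1 this)
  · have h1 : IsRow P (Rl P)[i] := (mem_Rl hP).1 (List.getElem_mem _)
    have h2 : IsVar P (Vl P)[j] := mem_Vl.1 (List.getElem_mem _)
    have e1 := oddR hP (specR (t := (Rl P)[i].1) (l := (Rl P)[i].2.1) (a := (Rl P)[i].2.2.1)
      (b := (Rl P)[i].2.2.2) h1)
    have e2 := evenV (specV (t := (Vl P)[j].1) (l := (Vl P)[j].2.1) (a := (Vl P)[j].2.2.1)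
      (b := (Vl P)[j].2.2.2) h2)
    change ((posR P (Rl P)[i]).1 + (posR P (Rl P)[i]).2) % 2 = 1 at e1
    change ((posV P (Vl P)[j]).1 + (posV P (Vl P)[j]).2) % 2 = 0 at e2
    dsimp only at hij
    rw [hij] at e1
    omega
  · have h1 : IsRow P (Rl P)[i] := (mem_Rl hP).1 (List.getElem_mem _)
    have h2 : coef (terms P (Rl P)[i]) (Vl P)[j] ≠ 0 := by
      intro h
      apply hij
      unfold mA
      rw [h]
      rfl
    obtain ⟨p, hp, hp'⟩ := List.mem_map.1 (mem_of_coef h2)
    have h3 := (good hP h1 p hp).adj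
    rw [hp'] at h3
    exact adj_abs h3

end Pool.Agent.H43.PL
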