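import Pool.Agent.H43.PL.Lin
set_option autoImplicit false

/-!
# The planar system can be computed in polynomial time
-/

namespace Pool.Agent.NPC.H43PL

open Pool.Agent.Y644.QS Pool.Agent.NPC Pool.Agent.NPC.Y644 Pool.Agent.NPC.H532.RP
  Pool.Agent.H687R2.LLL Pool.Agent.H43.PL

variable {α : Type} [TEnc α]

theorem poly_Zr {x : α → Inp} (hx : Poly x) : Poly (fun a => Zr (x a)) := by
  have h1 := poly_rowsA.comp hx
  have h2 := poly_crow.comp hx
  unfold Zr
  fun_prop

attribute [fun_prop] poly_Zr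

theorem uPoly_Wd {x : α → Inp} (hx : Poly x) : UPoly (fun a => Wd (x a)) :=
  UPoly.sz (poly_Zr hx)

attribute [fun_prop] uPoly_Wd

theorem poly_Wd {x : α → Inp} (hx : Poly x) : Poly (fun a => Wd (x a)) :=
  (uPoly_Wd hx).toPoly

attribute [fun_prop] poly_Wd Poly_pw

theorem poly_bt {W l : α → ℕ} {z : α → ℤ} (hW : UPoly W) (hz : Poly z) (hl : Poly l) :
    Poly (fun a => bt (W a) (z a) (l a)) := by
  unfold bt
  fun_prop

attribute [fun_prop] poly_bt

theorem poly_ent {x : α → Inp} {r j : α → ℕ} (hx : Poly x) (hr : Poly r) (hj : Poly j) :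
    Poly (fun a => ent (x a) (r a) (j a)) := by
  unfold ent
  fun_prop

attribute [fun_prop] poly_ent

theorem poly_rowsA' {x : α → Inp} (hx : Poly x) : Poly (fun a => rowsA (x a)) :=
  poly_rowsA.comp hx

attribute [fun_prop] poly_rowsA'

theorem poly_be {x : α → Inp} {r j : α → ℕ} (hx : Poly x) (hr : Poly r) (hj : Poly j) :
    Poly (fun a => pbe (x a) (r a) (j a)) := by
  unfold pbe
  fun_prop

theorem poly_db {x : α → Inp} {j : α → ℕ} (hx : Poly x) (hj : Poly j) :
    Poly (fun a => pdb (x a) (j a)) := by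
  unfold pdb
  fun_prop

attribute [fun_prop] poly_be poly_db

theorem uPoly_I {x : α → Inp} (hx : Poly x) : UPoly (fun a => pI (x a)) := by
  unfold pI
  fun_prop

theorem uPoly_J {x : α → Inp} (hx : Poly x) : UPoly (fun a => pJ (x a)) := by
  unfold pJ
  fun_prop

theorem uPoly_m {x : α → Inp} (hx : Poly x) : UPoly (fun a => pm (x a)) := by
  unfold pm
  fun_prop

theorem uPoly_c {x : α → Inp} (hx : Poly x) : UPoly (fun a => H43.PL.pc (x a)) := by
  unfold H43.PL.pc
  fun_prop

theorem poly_I {x : α → Inp} (hx : Poly x) : Poly (fun a => pI (x a)) := (uPoly_I hx).toPoly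
theorem poly_J {x : α → Inp} (hx : Poly x) : Poly (fun a => pJ (x a)) := (uPoly_J hx).toPoly
theorem poly_m {x : α → Inp} (hx : Poly x) : Poly (fun a => pm (x a)) := (uPoly_m hx).toPoly
theorem poly_c {x : α → Inp} (hx : Poly x) : Poly (fun a => H43.PL.pc (x a)) := (uPoly_c hx).toPoly
theorem poly_box : Poly (fun _ : α => false) := Poly.const false

attribute [fun_prop] uPoly_I uPoly_J uPoly_m uPoly_c poly_I poly_J poly_m poly_c

attribute [local irreducible] pI pJ pm H43.PL.pc pbe pdb

/-- tests of single conditions -/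
theorem poly_and {f g : α → Bool} (hf : Poly f) (hg : Poly g) : Poly (fun a => f a && g a) :=
  Poly.and hf hg
theorem poly_or {f g : α → Bool} (hf : Poly f) (hg : Poly g) : Poly (fun a => f a || g a) :=
  Poly.or hf hg
theorem poly_tag {v : α → Key} (hv : Poly v) (k : ℕ) : Poly (fun a => decide ((v a).1 = k)) := by
  fun_prop
theorem poly_lay {v : α → Key} (hv : Poly v) (k : ℕ) : Poly (fun a => decide ((v a).2.1 = k)) := by
  fun_prop
theorem poly_lay2 {v : α → Key} (hv : Poly v) : Poly (fun a => decide ((v a).2.1 < 2)) := by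
  fun_prop
theorem poly_b0 {v : α → Key} (hv : Poly v) : Poly (fun a => decide ((v a).2.2.2 = 0)) := by
  fun_prop
theorem poly_a0 {v : α → Key} (hv : Poly v) : Poly (fun a => decide ((v a).2.2.1 = 0)) := by
  fun_prop
theorem poly_aJ {x : α → Inp} {v : α → Key} (hx : Poly x) (hv : Poly v) :
    Poly (fun a => decide ((v a).2.2.1 < pJ (x a))) := by fun_prop
theorem poly_aJ' {x : α → Inp} {v : α → Key} (hx : Poly x) (hv : Poly v) :
    Poly (fun a => decide ((v a).2.2.1 + 1 < pJ (x a))) := by fun_prop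
theorem poly_aI {x : α → Inp} {v : α → Key} (hx : Poly x) (hv : Poly v) :
    Poly (fun a => decide ((v a).2.2.1 < pI (x a))) := by fun_prop
theorem poly_aI' {x : α → Inp} {v : α → Key} (hx : Poly x) (hv : Poly v) :
    Poly (fun a => decide ((v a).2.2.1 ≤ pI (x a))) := by fun_prop
theorem poly_am {x : α → Inp} {v : α → Key} (hx : Poly x) (hv : Poly v) :
    Poly (fun a => decide ((v a).2.2.1 < pm (x a))) := by fun_prop
theorem poly_a1 {v : α → Key} (hv : Poly v) : Poly (fun a => decide (1 ≤ (v a).2.2.1)) := by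
  fun_prop
theorem poly_bJ {x : α → Inp} {v : α → Key} (hx : Poly x) (hv : Poly v) :
    Poly (fun a => decide ((v a).2.2.2 < pJ (x a))) := by fun_prop
theorem poly_bK {x : α → Inp} {v : α → Key} (hx : Poly x) (hv : Poly v) :
    Poly (fun a => decide ((v a).2.2.2 ≤ K (pI (x a)) (v a).2.2.1)) := by
  unfold K
  fun_prop
theorem poly_bK' {x : α → Inp} {v : α → Key} (hx : Poly x) (hv : Poly v) :
    Poly (fun a => decide ((v a).2.2.2 < K (pI (x a)) (v a).2.2.1)) := by
  unfold K
  fun_prop
theorem poly_bE {x : α → Inp} {v : α → Key} (hx : Poly x) (hv : Poly v) :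
    Poly (fun a => decide ((v a).2.2.2 ≤ 6 * (pI (x a) - (v a).2.2.1))) := by fun_prop
theorem poly_bE' {x : α → Inp} {v : α → Key} (hx : Poly x) (hv : Poly v) :
    Poly (fun a => decide ((v a).2.2.2 < 6 * (pI (x a) - (v a).2.2.1))) := by fun_prop
theorem poly_beV {x : α → Inp} {v : α → Key} (hx : Poly x) (hv : Poly v) :
    Poly (fun a => pbe (x a) (v a).2.2.1 (v a).2.2.2) := by fun_prop
theorem poly_dbV {x : α → Inp} {v : α → Key} (hx : Poly x) (hv : Poly v) :
    Poly (fun a => pdb (x a) (v a).2.2.1) := by fun_prop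

end Pool.Agent.NPC.H43PL
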