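import Pool.Agent.H43.PL.PolyA
set_option autoImplicit false

/-!
# The lists of variables and rows can be computed in polynomial time
-/

namespace Pool.Agent.NPC.H43PL

open Pool.Agent.Y644.QS Pool.Agent.NPC Pool.Agent.NPC.Y644 Pool.Agent.NPC.H532.RP
  Pool.Agent.H687R2.LLL Pool.Agent.H43.PL

variable {α : Type} [TEnc α]

attribute [local irreducible] pI pJ pm H43.PL.pc pbe pdb

/-- the test of variables -/
def isVarB (P : Par) (v : Key) : Bool :=
  (decide (v.1 = 0) && (decide (v.2.1 = 0) && (decide (v.2.2.1 < P.J) &&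
    decide (v.2.2.2 ≤ K P.I v.2.2.1)))) ||
  ((decide (v.1 = 1) && (decide (v.2.1 = 0) && (decide (v.2.2.1 < P.I) &&
    decide (v.2.2.2 ≤ 6 * (P.I - v.2.2.1))))) ||
  ((decide (v.1 = 3) && (decide (v.2.1 < 2) && (decide (1 ≤ v.2.2.1) &&
    (decide (v.2.2.1 ≤ P.I) && decide (v.2.2.2 < P.J))))) ||
  (((decide (v.1 = 2) || (decide (v.1 = 4) || (decide (v.1 = 5) || (decide (v.1 = 6) ||
    decide (v.1 = 7))))) && (decide (v.2.1 < 2) && (decide (v.2.2.1 < P.I) &&
    decide (v.2.2.2 < P.J)))) ||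
  (decide (v.1 = 8) && (decide (v.2.1 < 2) && (decide (v.2.2.1 + 1 < P.J) &&
    (decide (v.2.2.2 = 0) && P.db v.2.2.1)))))))

theorem isVarB_eq (P : Par) (v : Key) : isVarB P v = decide (IsVar P v) := by
  rw [Bool.eq_iff_iff, decide_eq_true_eq]
  unfold isVarB IsVar
  simp only [Bool.or_eq_true, Bool.and_eq_true, decide_eq_true_eq]

/-- the test of rows -/
def isRowB (P : Par) (r : Key) : Bool :=
  (decide (r.1 = 0) && (decide (r.2.1 = 0) && (decide (r.2.2.1 < P.J) &&
    decide (r.2.2.2 < K P.I r.2.2.1)))) ||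
  ((decide (r.1 = 1) && (decide (r.2.1 = 0) && (decide (r.2.2.1 < P.I) &&
    decide (r.2.2.2 < 6 * (P.I - r.2.2.1))))) ||
  (((decide (r.1 = 2) || (decide (r.1 = 3) || (decide (r.1 = 4) ||
    ((decide (r.1 = 5) && (P.box || !(P.be r.2.2.1 r.2.2.2))) ||
    ((decide (r.1 = 6) && (P.box || P.be r.2.2.1 r.2.2.2)) ||
    (decide (r.1 = 7) || decide (r.1 = 8))))))) &&
    (decide (r.2.1 < 2) && (decide (r.2.2.1 < P.I) && decide (r.2.2.2 < P.J)))) ||
  ((decide (r.1 = 9) && (decide (r.2.1 < 2) && (decide (r.2.2.1 < P.I) &&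
    decide (r.2.2.2 = 0)))) ||
  ((decide (r.1 = 10) && (decide (r.2.1 = 0) && (decide (r.2.2.1 < P.J) &&
    decide (r.2.2.2 = 0)))) ||
  ((decide (r.1 = 11) && (decide (r.2.1 = 0) && (decide (r.2.2.1 < P.m) &&
    decide (r.2.2.2 = 0)))) ||
  (((decide (r.1 = 12) || decide (r.1 = 13)) && (decide (r.2.1 < 2) &&
    (decide (r.2.2.1 + 1 < P.J) && (decide (r.2.2.2 = 0) && P.db r.2.2.1)))) ||
  (decide (r.1 = 14) && (decide (r.2.1 < 2) && (decide (r.2.2.1 = 0) &&
    decide (r.2.2.2 = 0))))))))))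

theorem isRowB_eq (P : Par) (r : Key) : isRowB P r = decide (IsRow P r) := by
  rw [Bool.eq_iff_iff, decide_eq_true_eq]
  unfold isRowB IsRow
  simp only [Bool.or_eq_true, Bool.and_eq_true, decide_eq_true_eq, Bool.not_eq_true']

theorem poly_isVar {x : α → Inp} {v : α → Key} (hx : Poly x) (hv : Poly v) :
    Poly (fun a => decide (IsVar (par (x a)) (v a))) := by
  refine Poly.congr ?_ fun a => isVarB_eq _ _
  unfold isVarB
  exact poly_or (poly_and (poly_tag hv 0) (poly_and (poly_lay hv 0) (poly_and (poly_aJ hx hv)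
      (poly_bK hx hv))))
    (poly_or (poly_and (poly_tag hv 1) (poly_and (poly_lay hv 0) (poly_and (poly_aI hx hv)
      (poly_bE hx hv))))
    (poly_or (poly_and (poly_tag hv 3) (poly_and (poly_lay2 hv) (poly_and (poly_a1 hv)
      (poly_and (poly_aI' hx hv) (poly_bJ hx hv)))))
    (poly_or (poly_and (poly_or (poly_tag hv 2) (poly_or (poly_tag hv 4) (poly_or (poly_tag hv 5)
      (poly_or (poly_tag hv 6) (poly_tag hv 7))))) (poly_and (poly_lay2 hv)
      (poly_and (poly_aI hx hv) (poly_bJ hx hv))))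
    (poly_and (poly_tag hv 8) (poly_and (poly_lay2 hv) (poly_and (poly_aJ' hx hv)
      (poly_and (poly_b0 hv) (poly_dbV hx hv))))))))

theorem poly_isRow {x : α → Inp} {v : α → Key} (hx : Poly x) (hv : Poly v) :
    Poly (fun a => decide (IsRow (par (x a)) (v a))) := by
  refine Poly.congr ?_ fun a => isRowB_eq _ _
  unfold isRowB
  exact poly_or (poly_and (poly_tag hv 0) (poly_and (poly_lay hv 0) (poly_and (poly_aJ hx hv)
      (poly_bK' hx hv))))
    (poly_or (poly_and (poly_tag hv 1) (poly_and (poly_lay hv 0) (poly_and (poly_aI hx hv)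
      (poly_bE' hx hv))))
    (poly_or (poly_and (poly_or (poly_tag hv 2) (poly_or (poly_tag hv 3) (poly_or (poly_tag hv 4)
      (poly_or (poly_and (poly_tag hv 5) (poly_or poly_box (Poly.not (poly_beV hx hv))))
      (poly_or (poly_and (poly_tag hv 6) (poly_or poly_box (poly_beV hx hv)))
      (poly_or (poly_tag hv 7) (poly_tag hv 8))))))) (poly_and (poly_lay2 hv)
      (poly_and (poly_aI hx hv) (poly_bJ hx hv))))
    (poly_or (poly_and (poly_tag hv 9) (poly_and (poly_lay2 hv) (poly_and (poly_aI hx hv)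
      (poly_b0 hv))))
    (poly_or (poly_and (poly_tag hv 10) (poly_and (poly_lay hv 0) (poly_and (poly_aJ hx hv)
      (poly_b0 hv))))
    (poly_or (poly_and (poly_tag hv 11) (poly_and (poly_lay hv 0) (poly_and (poly_am hx hv)
      (poly_b0 hv))))
    (poly_or (poly_and (poly_or (poly_tag hv 12) (poly_tag hv 13)) (poly_and (poly_lay2 hv)
      (poly_and (poly_aJ' hx hv) (poly_and (poly_b0 hv) (poly_dbV hx hv)))))
    (poly_and (poly_tag hv 14) (poly_and (poly_lay2 hv) (poly_and (poly_a0 hv)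
      (poly_b0 hv))))))))))

theorem poly_keys {T : ℕ} {A : α → ℕ} (hA : UPoly A) : Poly (fun a => keys T (A a)) := by
  unfold keys
  fun_prop

attribute [fun_prop] poly_keys

theorem uPoly_Sz {x : α → Inp} (hx : Poly x) : UPoly (fun a => Sz (par (x a))) := by
  change UPoly (fun a => 8 * pJ (x a) + 6 * pI (x a) + 16)
  fun_prop

attribute [fun_prop] uPoly_Sz

theorem poly_Vl {x : α → Inp} (hx : Poly x) : Poly (fun a => Vl (par (x a))) := by
  unfold Vl
  exact Poly.filter (p := fun a v => decide (IsVar (par (x a)) v)) (poly_keys (uPoly_Sz hx))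
    (poly_isVar (hx.comp (Poly.fst Poly.id)) (Poly.snd Poly.id))

theorem poly_Rl {x : α → Inp} (hx : Poly x) : Poly (fun a => Rl (par (x a))) := by
  unfold Rl
  exact Poly.filter (p := fun a v => decide (IsRow (par (x a)) v)) (poly_keys (uPoly_Sz hx))
    (poly_isRow (hx.comp (Poly.fst Poly.id)) (Poly.snd Poly.id))

attribute [fun_prop] poly_Vl poly_Rl

theorem poly_coef {ts : α → List (ℤ × Key)} {v : α → Key} (ht : Poly ts) (hv : Poly v) :
    Poly (fun a => coef (ts a) (v a)) := by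
  unfold coef
  fun_prop

attribute [fun_prop] poly_coef

end Pool.Agent.NPC.H43PL
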