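import Pool.Agent.H43.PL.PolyB
set_option autoImplicit false

/-!
# The rows can be computed in polynomial time
-/

namespace Pool.Agent.NPC.H43PL

open Pool.Agent.Y644.QS Pool.Agent.NPC Pool.Agent.NPC.Y644 Pool.Agent.NPC.H532.RP
  Pool.Agent.H687R2.LLL Pool.Agent.H43.PL

variable {α : Type} [TEnc α]

section

variable {l c k I J : α → ℕ}

theorem poly_kN (hc : Poly c) (hk : Poly k) : Poly (fun a => kN (c a) (k a)) := by
  unfold kN; fun_prop
theorem poly_kE (hc : Poly c) (hk : Poly k) : Poly (fun a => kE (c a) (k a)) := by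
  unfold kE; fun_prop
theorem poly_kS (hl : Poly l) (hc : Poly c) (hk : Poly k) :
    Poly (fun a => kS (l a) (c a) (k a)) := by unfold kS; fun_prop
theorem poly_kY (hl : Poly l) (hc : Poly c) (hk : Poly k) :
    Poly (fun a => kY (l a) (c a) (k a)) := by unfold kY; fun_prop
theorem poly_kP (hl : Poly l) (hc : Poly c) (hk : Poly k) :
    Poly (fun a => kP (l a) (c a) (k a)) := by unfold kP; fun_prop
theorem poly_kZ (hl : Poly l) (hc : Poly c) (hk : Poly k) :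
    Poly (fun a => kZ (l a) (c a) (k a)) := by unfold kZ; fun_prop
theorem poly_kT (hl : Poly l) (hc : Poly c) (hk : Poly k) :
    Poly (fun a => kT (l a) (c a) (k a)) := by unfold kT; fun_prop
theorem poly_kQ (hl : Poly l) (hc : Poly c) (hk : Poly k) :
    Poly (fun a => kQ (l a) (c a) (k a)) := by unfold kQ; fun_prop
theorem poly_kG (hl : Poly l) (hc : Poly c) : Poly (fun a => kG (l a) (c a)) := by
  unfold kG; fun_prop

attribute [fun_prop] poly_kN poly_kE poly_kS poly_kY poly_kP poly_kZ poly_kT poly_kQ poly_kG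

theorem poly_yv (hI : Poly I) (hl : Poly l) (hc : Poly c) (hk : Poly k) :
    Poly (fun a => yv (I a) (l a) (c a) (k a)) := by unfold yv K; fun_prop
theorem poly_sv (hI : Poly I) (hJ : Poly J) (hl : Poly l) (hc : Poly c) (hk : Poly k) :
    Poly (fun a => sv (I a) (J a) (l a) (c a) (k a)) := by unfold sv; fun_prop
theorem poly_sg (hl : Poly l) : Poly (fun a => sg (l a)) := by
  unfold sg
  fun_prop

attribute [fun_prop] poly_yv poly_sv poly_sg Poly.ineg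

end

/-- the left side of a row -/
def termsX (I J c0 : ℕ) (r : Key) : List (ℤ × Key) :=
  if r.1 = 0 then [(1, kN r.2.2.1 r.2.2.2), (-1, kN r.2.2.1 (r.2.2.2 + 1))]
  else if r.1 = 1 then [(1, kE r.2.2.1 (r.2.2.2 + 1)), (-1, kE r.2.2.1 r.2.2.2)]
  else if r.1 = 2 then [(sg r.2.1, kP r.2.1 r.2.2.1 r.2.2.2), (-sg r.2.1, kS r.2.1 r.2.2.1 r.2.2.2),
    (-sg r.2.1, yv I r.2.1 r.2.2.1 r.2.2.2)]
  else if r.1 = 3 then [(sg r.2.1, kZ r.2.1 r.2.2.1 r.2.2.2), (sg r.2.1, kS r.2.1 r.2.2.1 r.2.2.2),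
    (-sg r.2.1, kP r.2.1 r.2.2.1 r.2.2.2)]
  else if r.1 = 4 then [(sg r.2.1, kQ r.2.1 r.2.2.1 r.2.2.2), (sg r.2.1, kT r.2.1 r.2.2.1 r.2.2.2),
    (-sg r.2.1, kP r.2.1 r.2.2.1 r.2.2.2)]
  else if r.1 = 5 then [(sg r.2.1, kZ r.2.1 r.2.2.1 r.2.2.2), (-sg r.2.1, kT r.2.1 r.2.2.1 r.2.2.2)]
  else if r.1 = 6 then [(1, kT r.2.1 r.2.2.1 r.2.2.2)]
  else if r.1 = 7 then [(sg r.2.1, kY r.2.1 (r.2.2.1 + 1) r.2.2.2),
    (-sg r.2.1, kZ r.2.1 r.2.2.1 r.2.2.2)]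
  else if r.1 = 8 then [(sg r.2.1, sv I J r.2.1 r.2.2.1 (r.2.2.2 + 1)),
    (-sg r.2.1, kQ r.2.1 r.2.2.1 r.2.2.2)]
  else if r.1 = 9 then [(1, kS r.2.1 r.2.2.1 0)]
  else if r.1 = 10 then [(1, kY 1 I r.2.2.1), (-1, kY 0 I r.2.2.1)]
  else if r.1 = 11 then [(1, kE (2 * r.2.2.1) (3 * (I - 2 * r.2.2.1))),
    (-1, kE (2 * r.2.2.1 + 1) (3 * (I - 2 * r.2.2.1 - 1)))]
  else if r.1 = 12 then
    (if r.2.1 = 0 then
      [(1, kN (r.2.2.1 + 1) (4 * r.2.2.1 + 9 + 4 * (r.2.2.1 % 2))),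
        (-1, kN r.2.2.1 (4 * r.2.2.1 + 5 + 4 * (r.2.2.1 % 2))), (-1, kG 0 r.2.2.1)]
    else [(1, kN r.2.2.1 (4 * r.2.2.1 + 7 + 4 * (r.2.2.1 % 2))), (1, kG 1 r.2.2.1),
        (-1, kN (r.2.2.1 + 1) (4 * r.2.2.1 + 11 + 4 * (r.2.2.1 % 2)))])
  else if r.1 = 13 then
    (if r.2.1 = 0 then
      [(1, kG 0 r.2.2.1), (-1, kN r.2.2.1 (4 * r.2.2.1 + 6 + 4 * (r.2.2.1 % 2)))]
    else [(1, kN r.2.2.1 (4 * r.2.2.1 + 8 + 4 * (r.2.2.1 % 2))), (-1, kG 1 r.2.2.1)])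
  else if r.2.1 = 0 then [(1, kN c0 (4 * c0 + 13))] else [(-1, kN c0 (4 * c0 + 14))]

theorem terms_eq (P : Par) (r : Key) : terms P r = termsX P.I P.J P.c0 r := rfl

attribute [local irreducible] kN kE kS kY kP kZ kT kQ kG yv sv sg

theorem poly_termsX {I J c : α → ℕ} {r : α → Key} (hI : Poly I) (hJ : Poly J) (hc : Poly c)
    (hr : Poly r) : Poly (fun a => termsX (I a) (J a) (c a) (r a)) := by
  unfold termsX
  refine Poly.ite (poly_tag hr 0) (by fun_prop) (Poly.ite (poly_tag hr 1) (by fun_prop)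
    (Poly.ite (poly_tag hr 2) (by fun_prop) (Poly.ite (poly_tag hr 3) (by fun_prop)
    (Poly.ite (poly_tag hr 4) (by fun_prop) (Poly.ite (poly_tag hr 5) (by fun_prop)
    (Poly.ite (poly_tag hr 6) (by fun_prop) (Poly.ite (poly_tag hr 7) (by fun_prop)
    (Poly.ite (poly_tag hr 8) (by fun_prop) (Poly.ite (poly_tag hr 9) (by fun_prop)
    (Poly.ite (poly_tag hr 10) (by fun_prop) (Poly.ite (poly_tag hr 11) (by fun_prop)
    (Poly.ite (poly_tag hr 12) (Poly.ite (poly_lay hr 0) (by fun_prop) (by fun_prop))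
    (Poly.ite (poly_tag hr 13) (Poly.ite (poly_lay hr 0) (by fun_prop) (by fun_prop))
    (Poly.ite (poly_lay hr 0) (by fun_prop) (by fun_prop)))))))))))))))

end Pool.Agent.NPC.H43PL
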