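import Pool.Agent.H43.PL.PolyC
set_option autoImplicit false

/-!
# The coding and decoding functions
-/

namespace Pool.Agent.H43.PL

open Pool.Agent.Y644.QS Pool.Agent.NPC Pool.Agent.NPC.H532.RP Pool.Agent.H687R2.LLL

/-- integer values of the vertical wires at the given vertex -/
def wv (x : Inp) (c : ℕ) : ℤ := pw (Wd x) 2 (c % Wd x) * (startV x).getD (c / Wd x) 0

/-- partial sums -/
def psL (x : Inp) (r c : ℕ) : ℤ :=
  ((List.range (pJ x)).map fun d => if d < c ∧ pbe x r d = true then wv x d else 0).sum

/-- the integer values of the variables -/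
def valX (x : Inp) (v : Key) : ℤ :=
  if v.1 = 1 then psL x v.2.2.1 (pJ x)
  else if v.1 = 2 then psL x v.2.2.1 v.2.2.2
  else if v.1 = 4 then psL x v.2.2.1 v.2.2.2 + wv x v.2.2.2
  else if v.1 = 6 then (if pbe x v.2.2.1 v.2.2.2 = true then 0 else wv x v.2.2.2)
  else if v.1 = 7 then psL x v.2.2.1 (v.2.2.2 + 1)
  else if v.1 = 0 ∨ v.1 = 8 then wv x v.2.2.1
  else wv x v.2.2.2

/-- the common denominator of the vertex -/
def dn (x : Inp) : ℕ := ((startV x).getD x.2.2.1.length 0).toNat

/-- the planar linear program -/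
def encL (x : Inp) : Inp :=
  ((Rl (par x)).map fun r => (Vl (par x)).map fun v => mkRat (coef (terms (par x) r) v) 1,
    (Rl (par x)).map fun r => mkRat (rhs (par x) r) 1,
    (Vl (par x)).map fun v => mkRat (coef (cterms (par x)) v) 1,
    (Vl (par x)).map fun v => mkRat (valX x v) (dn x))

/-- the place of a key in a list -/
def place (L : List Key) (k : Key) : ℕ :=
  ((List.range L.length).map fun i => if L.getD i (0, 0, 0, 0) = k then i else 0).sum

/-- the place of an original coordinate -/
def idx (x : Inp) (j : ℕ) : ℕ := place (Vl (par x)) (kN (j * Wd x) 0)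

/-- the original coordinates of a vector -/
def selL (x : Inp) (l : List ℚ) : List ℚ :=
  (List.range x.2.2.1.length).map fun j => l.getD (idx x j) 0

/-- the path in the original polyhedron -/
def decL (x : Inp) (o : Outp) : Outp := (o.1.map fun l => selL x l, o.2.map fun l => selL x l)

end Pool.Agent.H43.PL

namespace Pool.Agent.NPC.H43PL

open Pool.Agent.Y644.QS Pool.Agent.NPC Pool.Agent.NPC.Y644 Pool.Agent.NPC.H532.RP
  Pool.Agent.H687R2.LLL Pool.Agent.H43.PL

variable {α : Type} [TEnc α]

attribute [local irreducible] pI pJ pm H43.PL.pc pbe pdb kN kE kS kY kP kZ kT kQ kG yv sv sg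

theorem poly_startV' {x : α → Inp} (hx : Poly x) : Poly (fun a => startV (x a)) :=
  poly_startV.comp hx

attribute [fun_prop] poly_startV' Poly.isum Poly.imul Poly.iadd

theorem poly_wv {x : α → Inp} {c : α → ℕ} (hx : Poly x) (hc : Poly c) :
    Poly (fun a => wv (x a) (c a)) := by
  unfold wv
  fun_prop

attribute [fun_prop] poly_wv

theorem poly_psL {x : α → Inp} {r c : α → ℕ} (hx : Poly x) (hr : Poly r) (hc : Poly c) :
    Poly (fun a => psL (x a) (r a) (c a)) := by
  unfold psL
  fun_prop

attribute [fun_prop] poly_psL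

theorem poly_valX {x : α → Inp} {v : α → Key} (hx : Poly x) (hv : Poly v) :
    Poly (fun a => valX (x a) (v a)) := by
  unfold valX
  refine Poly.ite (poly_tag hv 1) (by fun_prop) (Poly.ite (poly_tag hv 2) (by fun_prop)
    (Poly.ite (poly_tag hv 4) (by fun_prop) (Poly.ite (poly_tag hv 6) (by fun_prop)
    (Poly.ite (poly_tag hv 7) (by fun_prop) (Poly.ite (by fun_prop) (by fun_prop)
    (by fun_prop))))))

theorem poly_dn {x : α → Inp} (hx : Poly x) : Poly (fun a => dn (x a)) := by
  unfold dn
  fun_prop

attribute [fun_prop] poly_valX poly_dn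

theorem poly_terms {x : α → Inp} {r : α → Key} (hx : Poly x) (hr : Poly r) :
    Poly (fun a => terms (par (x a)) (r a)) :=
  poly_termsX (poly_I hx) (poly_J hx) (poly_c hx) hr

theorem poly_rhs {x : α → Inp} {r : α → Key} (hr : Poly r) :
    Poly (fun a => rhs (par (x a)) (r a)) := by
  have h : Poly (fun a => if (r a).1 = 14 then (if (r a).2.1 = 0 then (1 : ℤ) else -1) else 0) :=
    Poly.ite (poly_tag hr 14) (Poly.ite (poly_lay hr 0) (Poly.const _) (Poly.const _))
      (Poly.const _)
  refine h.congr fun a => ?_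
  unfold rhs
  split_ifs with h1 h2 h3 <;> first | rfl | (exact absurd h3 (by simp [par]))

theorem poly_cterms {x : α → Inp} (hx : Poly x) : Poly (fun a => cterms (par (x a))) := by
  change Poly (fun a => [(1, kE (2 * pm (x a)) (3 * (pI (x a) - 2 * pm (x a)))),
    (-1, kE (2 * pm (x a) + 1) (3 * (pI (x a) - 2 * pm (x a) - 1)))])
  fun_prop

attribute [fun_prop] poly_terms poly_cterms

theorem poly_encL {x : α → Inp} (hx : Poly x) : Poly (fun a => encL (x a)) := by
  unfold encL
  have hV := poly_Vl hx
  have hR := poly_Rl hx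
  have h1 : Poly (fun a => (Rl (par (x a))).map fun r => (Vl (par (x a))).map fun v =>
      mkRat (coef (terms (par (x a)) r) v) 1) := by
    refine Poly.map (F := fun a r => (Vl (par (x a))).map fun v =>
      mkRat (coef (terms (par (x a)) r) v) 1) hR ?_
    refine Poly.map (α := α × Key) (F := fun p v => mkRat (coef (terms (par (x p.1)) p.2) v) 1)
      (poly_Vl (hx.comp (Poly.fst Poly.id))) ?_
    refine poly_mkRat (poly_coef (poly_terms (hx.comp (Poly.fst (Poly.fst Poly.id)))
      (Poly.snd (Poly.fst Poly.id))) (Poly.snd Poly.id)) (Poly.const 1)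
  have h2 : Poly (fun a => (Rl (par (x a))).map fun r => mkRat (rhs (par (x a)) r) 1) :=
    Poly.map (F := fun a r => mkRat (rhs (par (x a)) r) 1) hR
      (poly_mkRat (poly_rhs (Poly.snd Poly.id)) (Poly.const 1))
  have h3 : Poly (fun a => (Vl (par (x a))).map fun v => mkRat (coef (cterms (par (x a))) v) 1) :=
    Poly.map (F := fun a v => mkRat (coef (cterms (par (x a))) v) 1) hV
      (poly_mkRat (poly_coef (poly_cterms (hx.comp (Poly.fst Poly.id))) (Poly.snd Poly.id))
        (Poly.const 1))
  have h4 : Poly (fun a => (Vl (par (x a))).map fun v => mkRat (valX (x a) v) (dn (x a))) :=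
    Poly.map (F := fun a v => mkRat (valX (x a) v) (dn (x a))) hV
      (poly_mkRat (poly_valX (hx.comp (Poly.fst Poly.id)) (Poly.snd Poly.id))
        (poly_dn (hx.comp (Poly.fst Poly.id))))
  exact Poly.pair h1 (Poly.pair h2 (Poly.pair h3 h4))

theorem poly_place {L : α → List Key} {k : α → Key} (hL : Poly L) (hk : Poly k) :
    Poly (fun a => place (L a) (k a)) := by
  unfold place
  fun_prop

theorem poly_idx {x : α → Inp} {j : α → ℕ} (hx : Poly x) (hj : Poly j) :
    Poly (fun a => idx (x a) (j a)) := by
  unfold idx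
  exact poly_place (poly_Vl hx) (by fun_prop)

attribute [fun_prop] poly_idx

theorem poly_selL {x : α → Inp} {l : α → List ℚ} (hx : Poly x) (hl : Poly l) :
    Poly (fun a => selL (x a) (l a)) := by
  unfold selL
  fun_prop

attribute [fun_prop] poly_selL

theorem poly_decL {x : α → Inp} {o : α → Outp} (hx : Poly x) (ho : Poly o) :
    Poly (fun a => decL (x a) (o a)) := by
  unfold decL
  exact Poly.pair (Poly.map (F := fun a l => selL (x a) l) (Poly.fst ho)
    (poly_selL (hx.comp (Poly.fst Poly.id)) (Poly.snd Poly.id)))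
    (Poly.optMap_fp (h := fun a l => selL (x a) l) (Poly.snd ho)
    (poly_selL (hx.comp (Poly.fst Poly.id)) (Poly.snd Poly.id)))

end Pool.Agent.NPC.H43PL
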