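import Pool.Agent.H43.PL.Data
set_option autoImplicit false

/-!
# The places of variables and rows
-/

namespace Pool.Agent.H43.PL

/-- the coordinates of a variable -/
inductive SpecV (P : Par) : ℕ → ℕ → ℕ → ℕ → ℤ → ℤ → Prop
  | n1 {a b : ℕ} {x y : ℤ} (h0 : a < P.J) (h1 : b ≤ 8 * a + 10 + 4 * P.I) (h2 : 2 * b ≤ a + 2)
    (hx : x = 4 * (a : ℤ) + 1) (hy : y = -1 - 2 * (b : ℤ)) :
    SpecV P 0 0 a b x y
  | n2 {a b : ℕ} {x y : ℤ} (h0 : a < P.J) (h1 : b ≤ 8 * a + 10 + 4 * P.I) (h2 : a + 2 < 2 * b) (h3 : 2 * b ≤ 7 * a + 7)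
    (hx : x = 5 * (a : ℤ) + 3 - 2 * b) (hy : y = -((a : ℤ) + 3)) :
    SpecV P 0 0 a b x y
  | n3 {a b : ℕ} {x y : ℤ} (h0 : a < P.J) (h1 : b ≤ 8 * a + 10 + 4 * P.I) (h2 : 7 * a + 7 < 2 * b) (h3 : 2 * b ≤ 9 * a + 13 + 8 * P.I)
    (hx : x = -4 - 2 * (a : ℤ)) (hy : y = 2 * (b : ℤ) - 8 * a - 10) :
    SpecV P 0 0 a b x y
  | n4 {a b : ℕ} {x y : ℤ} (h0 : a < P.J) (h1 : b ≤ 8 * a + 10 + 4 * P.I) (h2 : 9 * a + 13 + 8 * P.I < 2 * b) (h3 : 2 * b ≤ 15 * a + 18 + 8 * P.I)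
    (hx : x = 2 * (b : ℤ) - 11 * a - 17 - 8 * P.I) (hy : y = 8 * (P.I : ℤ) + a + 3) :
    SpecV P 0 0 a b x y
  | n5 {a b : ℕ} {x y : ℤ} (h0 : a < P.J) (h1 : b ≤ 8 * a + 10 + 4 * P.I) (h2 : 15 * a + 18 + 8 * P.I < 2 * b)
    (hx : x = 4 * (a : ℤ) + 1) (hy : y = 16 * (P.I : ℤ) + 16 * a + 21 - 2 * b) :
    SpecV P 0 0 a b x y
  | e1 {a b : ℕ} {x y : ℤ} (h0 : a < P.I) (h1 : b ≤ 6 * (P.I - a)) (h2 : 2 * b ≤ 2 * (P.I - a))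
    (hx : x = 4 * (P.J : ℤ) + 2 * b) (hy : y = 4 * (a : ℤ)) :
    SpecV P 1 0 a b x y
  | e2 {a b : ℕ} {x y : ℤ} (h0 : a < P.I) (h1 : b ≤ 6 * (P.I - a)) (h2 : 2 * (P.I - a) < 2 * b) (h3 : 2 * b ≤ 10 * (P.I - a))
    (hx : x = 4 * (P.J : ℤ) + 2 * (P.I - a : ℕ)) (hy : y = 4 * (a : ℤ) + 2 * b - 2 * (P.I - a : ℕ)) :
    SpecV P 1 0 a b x y
  | e3 {a b : ℕ} {x y : ℤ} (h0 : a < P.I) (h1 : b ≤ 6 * (P.I - a)) (h2 : 10 * (P.I - a) < 2 * b)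
    (hx : x = 4 * (P.J : ℤ) + 12 * (P.I - a : ℕ) - 2 * b) (hy : y = 8 * (P.I : ℤ) - 4 * a) :
    SpecV P 1 0 a b x y
  | y0 {a b : ℕ} {x y : ℤ} (h0 : 1 ≤ a) (h1 : a ≤ P.I) (h2 : b < P.J)
    (hx : x = 4 * (b : ℤ) + 1) (hy : y = 4 * (a : ℤ) + (-1)) :
    SpecV P 3 0 a b x y
  | y1 {a b : ℕ} {x y : ℤ} (h0 : 1 ≤ a) (h1 : a ≤ P.I) (h2 : b < P.J)
    (hx : x = 4 * (b : ℤ) + 1) (hy : y = 8 * (P.I : ℤ) - 4 * a - (-1)) :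
    SpecV P 3 1 a b x y
  | s0 {a b : ℕ} {x y : ℤ} (h0 : a < P.I) (h1 : b < P.J)
    (hx : x = 4 * (b : ℤ) + 0) (hy : y = 4 * (a : ℤ) + 0) :
    SpecV P 2 0 a b x y
  | s1 {a b : ℕ} {x y : ℤ} (h0 : a < P.I) (h1 : b < P.J)
    (hx : x = 4 * (b : ℤ) + 0) (hy : y = 8 * (P.I : ℤ) - 4 * a - 0) :
    SpecV P 2 1 a b x y
  | p0 {a b : ℕ} {x y : ℤ} (h0 : a < P.I) (h1 : b < P.J)
    (hx : x = 4 * (b : ℤ) + 1) (hy : y = 4 * (a : ℤ) + 1) :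
    SpecV P 4 0 a b x y
  | p1 {a b : ℕ} {x y : ℤ} (h0 : a < P.I) (h1 : b < P.J)
    (hx : x = 4 * (b : ℤ) + 1) (hy : y = 8 * (P.I : ℤ) - 4 * a - 1) :
    SpecV P 4 1 a b x y
  | z0 {a b : ℕ} {x y : ℤ} (h0 : a < P.I) (h1 : b < P.J)
    (hx : x = 4 * (b : ℤ) + 0) (hy : y = 4 * (a : ℤ) + 2) :
    SpecV P 5 0 a b x y
  | z1 {a b : ℕ} {x y : ℤ} (h0 : a < P.I) (h1 : b < P.J)
    (hx : x = 4 * (b : ℤ) + 0) (hy : y = 8 * (P.I : ℤ) - 4 * a - 2) :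
    SpecV P 5 1 a b x y
  | t0 {a b : ℕ} {x y : ℤ} (h0 : a < P.I) (h1 : b < P.J)
    (hx : x = 4 * (b : ℤ) + 2) (hy : y = 4 * (a : ℤ) + 2) :
    SpecV P 6 0 a b x y
  | t1 {a b : ℕ} {x y : ℤ} (h0 : a < P.I) (h1 : b < P.J)
    (hx : x = 4 * (b : ℤ) + 2) (hy : y = 8 * (P.I : ℤ) - 4 * a - 2) :
    SpecV P 6 1 a b x y
  | q0 {a b : ℕ} {x y : ℤ} (h0 : a < P.I) (h1 : b < P.J)
    (hx : x = 4 * (b : ℤ) + 3) (hy : y = 4 * (a : ℤ) + 1) :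
    SpecV P 7 0 a b x y
  | q1 {a b : ℕ} {x y : ℤ} (h0 : a < P.I) (h1 : b < P.J)
    (hx : x = 4 * (b : ℤ) + 3) (hy : y = 8 * (P.I : ℤ) - 4 * a - 1) :
    SpecV P 7 1 a b x y
  | g {l a : ℕ} {x y : ℤ} (h0 : l < 2) (h1 : a + 1 < P.J)
    (hx : x = -5 - 2 * (a : ℤ)) (hy : y = 8 * ((a % 2 : ℕ) : ℤ) + 1 + 4 * (l : ℤ)) :
    SpecV P 8 l a 0 x y

/-- the coordinates of a row -/
inductive SpecR (P : Par) : ℕ → ℕ → ℕ → ℕ → ℤ → ℤ → Prop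
  | n1 {a b : ℕ} {x y : ℤ} (h0 : a < P.J) (h1 : b < 8 * a + 10 + 4 * P.I) (h2 : 2 * b + 1 ≤ a + 2)
    (hx : x = 4 * (a : ℤ) + 1) (hy : y = -1 - (2 * (b : ℤ) + 1)) :
    SpecR P 0 0 a b x y
  | n2 {a b : ℕ} {x y : ℤ} (h0 : a < P.J) (h1 : b < 8 * a + 10 + 4 * P.I) (h2 : a + 2 < 2 * b + 1) (h3 : 2 * b + 1 ≤ 7 * a + 7)
    (hx : x = 5 * (a : ℤ) + 3 - (2 * b + 1)) (hy : y = -((a : ℤ) + 3)) :
    SpecR P 0 0 a b x y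
  | n3 {a b : ℕ} {x y : ℤ} (h0 : a < P.J) (h1 : b < 8 * a + 10 + 4 * P.I) (h2 : 7 * a + 7 < 2 * b + 1) (h3 : 2 * b + 1 ≤ 9 * a + 13 + 8 * P.I)
    (hx : x = -4 - 2 * (a : ℤ)) (hy : y = (2 * (b : ℤ) + 1) - 8 * a - 10) :
    SpecR P 0 0 a b x y
  | n4 {a b : ℕ} {x y : ℤ} (h0 : a < P.J) (h1 : b < 8 * a + 10 + 4 * P.I) (h2 : 9 * a + 13 + 8 * P.I < 2 * b + 1) (h3 : 2 * b + 1 ≤ 15 * a + 18 + 8 * P.I)
    (hx : x = (2 * (b : ℤ) + 1) - 11 * a - 17 - 8 * P.I) (hy : y = 8 * (P.I : ℤ) + a + 3) :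
    SpecR P 0 0 a b x y
  | n5 {a b : ℕ} {x y : ℤ} (h0 : a < P.J) (h1 : b < 8 * a + 10 + 4 * P.I) (h2 : 15 * a + 18 + 8 * P.I < 2 * b + 1)
    (hx : x = 4 * (a : ℤ) + 1) (hy : y = 16 * (P.I : ℤ) + 16 * a + 21 - (2 * b + 1)) :
    SpecR P 0 0 a b x y
  | e1 {a b : ℕ} {x y : ℤ} (h0 : a < P.I) (h1 : b < 6 * (P.I - a)) (h2 : 2 * b + 1 ≤ 2 * (P.I - a))
    (hx : x = 4 * (P.J : ℤ) + (2 * b + 1)) (hy : y = 4 * (a : ℤ)) :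
    SpecR P 1 0 a b x y
  | e2 {a b : ℕ} {x y : ℤ} (h0 : a < P.I) (h1 : b < 6 * (P.I - a)) (h2 : 2 * (P.I - a) < 2 * b + 1) (h3 : 2 * b + 1 ≤ 10 * (P.I - a))
    (hx : x = 4 * (P.J : ℤ) + 2 * (P.I - a : ℕ)) (hy : y = 4 * (a : ℤ) + (2 * b + 1) - 2 * (P.I - a : ℕ)) :
    SpecR P 1 0 a b x y
  | e3 {a b : ℕ} {x y : ℤ} (h0 : a < P.I) (h1 : b < 6 * (P.I - a)) (h2 : 10 * (P.I - a) < 2 * b + 1)
    (hx : x = 4 * (P.J : ℤ) + 12 * (P.I - a : ℕ) - (2 * b + 1)) (hy : y = 8 * (P.I : ℤ) - 4 * a) :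
    SpecR P 1 0 a b x y
  | a0 {a b : ℕ} {x y : ℤ} (h0 : a < P.I) (h1 : b < P.J)
    (hx : x = 4 * (b : ℤ) + 1) (hy : y = 4 * (a : ℤ) + 0) :
    SpecR P 2 0 a b x y
  | a1 {a b : ℕ} {x y : ℤ} (h0 : a < P.I) (h1 : b < P.J)
    (hx : x = 4 * (b : ℤ) + 1) (hy : y = 8 * (P.I : ℤ) - 4 * a - 0) :
    SpecR P 2 1 a b x y
  | b0 {a b : ℕ} {x y : ℤ} (h0 : a < P.I) (h1 : b < P.J)
    (hx : x = 4 * (b : ℤ) + 0) (hy : y = 4 * (a : ℤ) + 1) :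
    SpecR P 3 0 a b x y
  | b1 {a b : ℕ} {x y : ℤ} (h0 : a < P.I) (h1 : b < P.J)
    (hx : x = 4 * (b : ℤ) + 0) (hy : y = 8 * (P.I : ℤ) - 4 * a - 1) :
    SpecR P 3 1 a b x y
  | c0 {a b : ℕ} {x y : ℤ} (h0 : a < P.I) (h1 : b < P.J)
    (hx : x = 4 * (b : ℤ) + 2) (hy : y = 4 * (a : ℤ) + 1) :
    SpecR P 4 0 a b x y
  | c1 {a b : ℕ} {x y : ℤ} (h0 : a < P.I) (h1 : b < P.J)
    (hx : x = 4 * (b : ℤ) + 2) (hy : y = 8 * (P.I : ℤ) - 4 * a - 1) :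
    SpecR P 4 1 a b x y
  | d0 {a b : ℕ} {x y : ℤ} (h0 : a < P.I) (h1 : b < P.J)
    (hx : x = 4 * (b : ℤ) + 1) (hy : y = 4 * (a : ℤ) + 2) :
    SpecR P 5 0 a b x y
  | d1 {a b : ℕ} {x y : ℤ} (h0 : a < P.I) (h1 : b < P.J)
    (hx : x = 4 * (b : ℤ) + 1) (hy : y = 8 * (P.I : ℤ) - 4 * a - 2) :
    SpecR P 5 1 a b x y
  | f0 {a b : ℕ} {x y : ℤ} (h0 : a < P.I) (h1 : b < P.J)
    (hx : x = 4 * (b : ℤ) + 2) (hy : y = 4 * (a : ℤ) + 3) :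
    SpecR P 6 0 a b x y
  | f1 {a b : ℕ} {x y : ℤ} (h0 : a < P.I) (h1 : b < P.J)
    (hx : x = 4 * (b : ℤ) + 2) (hy : y = 8 * (P.I : ℤ) - 4 * a - 3) :
    SpecR P 6 1 a b x y
  | h0 {a b : ℕ} {x y : ℤ} (h0 : a < P.I) (h1 : b < P.J)
    (hx : x = 4 * (b : ℤ) + 0) (hy : y = 4 * (a : ℤ) + 3) :
    SpecR P 7 0 a b x y
  | h1 {a b : ℕ} {x y : ℤ} (h0 : a < P.I) (h1 : b < P.J)
    (hx : x = 4 * (b : ℤ) + 0) (hy : y = 8 * (P.I : ℤ) - 4 * a - 3) :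
    SpecR P 7 1 a b x y
  | i0 {a b : ℕ} {x y : ℤ} (h0 : a < P.I) (h1 : b < P.J)
    (hx : x = 4 * (b : ℤ) + 3) (hy : y = 4 * (a : ℤ) + 0) :
    SpecR P 8 0 a b x y
  | i1 {a b : ℕ} {x y : ℤ} (h0 : a < P.I) (h1 : b < P.J)
    (hx : x = 4 * (b : ℤ) + 3) (hy : y = 8 * (P.I : ℤ) - 4 * a - 0) :
    SpecR P 8 1 a b x y
  | o0 {a : ℕ} {x y : ℤ} (h0 : a < P.I)
    (hx : x = -1) (hy : y = 4 * (a : ℤ)) :
    SpecR P 9 0 a 0 x y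
  | o1 {a : ℕ} {x y : ℤ} (h0 : a < P.I)
    (hx : x = -1) (hy : y = 8 * (P.I : ℤ) - 4 * a) :
    SpecR P 9 1 a 0 x y
  | m {a : ℕ} {x y : ℤ} (h0 : a < P.J)
    (hx : x = 4 * (a : ℤ) + 1) (hy : y = 4 * (P.I : ℤ)) :
    SpecR P 10 0 a 0 x y
  | u {a : ℕ} {x y : ℤ} (h0 : a < P.m)
    (hx : x = 4 * (P.J : ℤ) + 2 * P.I - 4 * a - 1) (hy : y = 4 * (P.I : ℤ)) :
    SpecR P 11 0 a 0 x y
  | v {l a : ℕ} {x y : ℤ} (h0 : l < 2) (h1 : a + 1 < P.J)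
    (hx : x = -5 - 2 * (a : ℤ)) (hy : y = 8 * ((a % 2 : ℕ) : ℤ) + 4 * (l : ℤ)) :
    SpecR P 12 l a 0 x y
  | w {l a : ℕ} {x y : ℤ} (h0 : l < 2) (h1 : a + 1 < P.J)
    (hx : x = -5 - 2 * (a : ℤ)) (hy : y = 8 * ((a % 2 : ℕ) : ℤ) + 2 + 4 * (l : ℤ)) :
    SpecR P 13 l a 0 x y
  | k {l : ℕ} {x y : ℤ} (h0 : l < 2)
    (hx : x = -3 - 2 * (P.c0 : ℤ)) (hy : y = 16 + 2 * (l : ℤ)) :
    SpecR P 14 l 0 0 x y

theorem specV {P : Par} {t l a b : ℕ} (h : IsVar P (t, l, a, b)) :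
    SpecV P t l a b (posV P (t, l, a, b)).1 (posV P (t, l, a, b)).2 := by
  simp only [IsVar] at h
  rcases h with ⟨rfl, rfl, h1, h2⟩ | ⟨rfl, rfl, h1, h2⟩ | ⟨rfl, h0, h1, h2, h3⟩ | ⟨ht, h0, h1, h2⟩ |
    ⟨rfl, h0, h1, rfl, h2⟩
  · have e : posV P (0, 0, a, b) = npos P.I a (2 * b) := rfl
    rw [e]
    unfold K at h2
    unfold npos
    split_ifs with g1 g2 g3 g4
    · exact .n1 h1 h2 (by omega) rfl (by push_cast; ring)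
    · exact .n2 h1 h2 (by omega) (by omega) (by push_cast; ring) rfl
    · exact .n3 h1 h2 (by omega) (by omega) rfl (by push_cast; ring)
    · exact .n4 h1 h2 (by omega) (by omega) (by push_cast; ring) rfl
    · exact .n5 h1 h2 (by omega) rfl (by push_cast; ring)
  · have e : posV P (1, 0, a, b) = epos P.I P.J a (2 * b) := rfl
    rw [e]
    unfold epos
    split_ifs with g1 g2
    · exact .e1 h1 h2 (by omega) (by push_cast; ring) rfl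
    · exact .e2 h1 h2 (by omega) (by omega) rfl (by push_cast; ring)
    · exact .e3 h1 h2 (by omega) (by push_cast; ring) rfl
  · obtain rfl | rfl : l = 0 ∨ l = 1 := by omega
    · exact .y0 h1 h2 h3 rfl rfl
    · exact .y1 h1 h2 h3 rfl rfl
  · obtain rfl | rfl : l = 0 ∨ l = 1 := by omega
    · rcases ht with rfl | rfl | rfl | rfl | rfl
      · exact .s0 h1 h2 rfl rfl
      · exact .p0 h1 h2 rfl rfl
      · exact .z0 h1 h2 rfl rfl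
      · exact .t0 h1 h2 rfl rfl
      · exact .q0 h1 h2 rfl rfl
    · rcases ht with rfl | rfl | rfl | rfl | rfl
      · exact .s1 h1 h2 rfl rfl
      · exact .p1 h1 h2 rfl rfl
      · exact .z1 h1 h2 rfl rfl
      · exact .t1 h1 h2 rfl rfl
      · exact .q1 h1 h2 rfl rfl
  · exact .g h0 h1 rfl rfl

theorem specR {P : Par} {t l a b : ℕ} (h : IsRow P (t, l, a, b)) :
    SpecR P t l a b (posR P (t, l, a, b)).1 (posR P (t, l, a, b)).2 := by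
  simp only [IsRow] at h
  rcases h with ⟨rfl, rfl, h1, h2⟩ | ⟨rfl, rfl, h1, h2⟩ | ⟨ht, h0, h1, h2⟩ | ⟨rfl, h0, h1, rfl⟩ |
    ⟨rfl, rfl, h1, rfl⟩ | ⟨rfl, rfl, h1, rfl⟩ | ⟨ht, h0, h1, rfl, h2⟩ | ⟨rfl, h0, rfl, rfl⟩
  · have e : posR P (0, 0, a, b) = npos P.I a (2 * b + 1) := rfl
    rw [e]
    unfold K at h2
    unfold npos
    split_ifs with g1 g2 g3 g4
    · exact .n1 h1 h2 (by omega) rfl (by push_cast; ring)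
    · exact .n2 h1 h2 (by omega) (by omega) (by push_cast; ring) rfl
    · exact .n3 h1 h2 (by omega) (by omega) rfl (by push_cast; ring)
    · exact .n4 h1 h2 (by omega) (by omega) (by push_cast; ring) rfl
    · exact .n5 h1 h2 (by omega) rfl (by push_cast; ring)
  · have e : posR P (1, 0, a, b) = epos P.I P.J a (2 * b + 1) := rfl
    rw [e]
    unfold epos
    split_ifs with g1 g2
    · exact .e1 h1 h2 (by omega) (by push_cast; ring) rfl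
    · exact .e2 h1 h2 (by omega) (by omega) rfl (by push_cast; ring)
    · exact .e3 h1 h2 (by omega) (by push_cast; ring) rfl
  · obtain rfl | rfl : l = 0 ∨ l = 1 := by omega
    · rcases ht with rfl | rfl | rfl | ⟨rfl, -⟩ | ⟨rfl, -⟩ | rfl | rfl
      · exact .a0 h1 h2 rfl rfl
      · exact .b0 h1 h2 rfl rfl
      · exact .c0 h1 h2 rfl rfl
      · exact .d0 h1 h2 rfl rfl
      · exact .f0 h1 h2 rfl rfl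
      · exact .h0 h1 h2 rfl rfl
      · exact .i0 h1 h2 rfl rfl
    · rcases ht with rfl | rfl | rfl | ⟨rfl, -⟩ | ⟨rfl, -⟩ | rfl | rfl
      · exact .a1 h1 h2 rfl rfl
      · exact .b1 h1 h2 rfl rfl
      · exact .c1 h1 h2 rfl rfl
      · exact .d1 h1 h2 rfl rfl
      · exact .f1 h1 h2 rfl rfl
      · exact .h1 h1 h2 rfl rfl
      · exact .i1 h1 h2 rfl rfl
  · obtain rfl | rfl : l = 0 ∨ l = 1 := by omega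
    · exact .o0 h1 rfl (by show 4 * (a : ℤ) + 0 = _; ring)
    · exact .o1 h1 rfl (by show 8 * (P.I : ℤ) - 4 * a - 0 = _; ring)
  · exact .m h1 rfl rfl
  · exact .u h1 rfl rfl
  · rcases ht with rfl | rfl
    · exact .v h0 h1 rfl rfl
    · exact .w h0 h1 rfl rfl
  · exact .k h0 rfl rfl

theorem evenV {P : Par} {t l a b : ℕ} {x y : ℤ} (h : SpecV P t l a b x y) : (x + y) % 2 = 0 := by
  cases h <;> omega

theorem oddR {P : Par} (hP : P.Ok) {t l a b : ℕ} {x y : ℤ} (h : SpecR P t l a b x y) :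
    (x + y) % 2 = 1 := by
  have h2 := hP.I2
  cases h <;> omega

end Pool.Agent.H43.PL
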