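import Pool.Agent.H43.PL.Adj
set_option autoImplicit false

/-!
# The solutions of the planar system
-/

namespace Pool.Agent.H43.PL

/-- the value of a row -/
noncomputable def ev (X : Key → ℝ) (ts : List (ℤ × Key)) : ℝ :=
  (ts.map fun p => (p.1 : ℝ) * X p.2).sum

/-- solutions of the system -/
structure Feas (P : Par) (X : Key → ℝ) : Prop where
  nonneg : ∀ v, IsVar P v → 0 ≤ X v
  row : ∀ r, IsRow P r → ev X (terms P r) ≤ rhs P r

/-- admissible values of the vertical wires -/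
structure Adm (P : Par) (Y : ℕ → ℝ) : Prop where
  nonneg : ∀ c < P.J, 0 ≤ Y c
  one : Y P.c0 = 1
  dbl : ∀ c, c + 1 < P.J → P.db c = true → Y (c + 1) = 2 * Y c
  le : ∀ i < P.m, ps P.be Y (2 * i) P.J ≤ ps P.be Y (2 * i + 1) P.J
  box : P.box = true → ∀ c < P.J, Y c ≤ 1

theorem ev_1 (X : Key → ℝ) (a : ℤ) (u : Key) : ev X [(a, u)] = a * X u := by simp [ev]
theorem ev_2 (X : Key → ℝ) (a b : ℤ) (u v : Key) :
    ev X [(a, u), (b, v)] = a * X u + b * X v := by simp [ev]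
theorem ev_3 (X : Key → ℝ) (a b c : ℤ) (u v w : Key) :
    ev X [(a, u), (b, v), (c, w)] = a * X u + b * X v + c * X w := by simp [ev]; ring

theorem sg_zero : sg 0 = 1 := rfl
theorem sg_one : sg 1 = -1 := rfl

section

variable {P : Par} {X : Key → ℝ}

theorem isRow_0 {c k : ℕ} (h1 : c < P.J) (h2 : k < K P.I c) : IsRow P (0, 0, c, k) :=
  Or.inl ⟨rfl, rfl, h1, h2⟩
theorem isRow_1 {r k : ℕ} (h1 : r < P.I) (h2 : k < 6 * (P.I - r)) : IsRow P (1, 0, r, k) :=
  Or.inr (Or.inl ⟨rfl, rfl, h1, h2⟩)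
theorem isRow_cell {t l r c : ℕ} (ht : t = 2 ∨ t = 3 ∨ t = 4 ∨
    (t = 5 ∧ (P.box = true ∨ P.be r c = false)) ∨ (t = 6 ∧ (P.box = true ∨ P.be r c = true)) ∨
    t = 7 ∨ t = 8) (hl : l < 2) (h1 : r < P.I) (h2 : c < P.J) : IsRow P (t, l, r, c) :=
  Or.inr (Or.inr (Or.inl ⟨ht, hl, h1, h2⟩))
theorem isRow_9 {l r : ℕ} (hl : l < 2) (h1 : r < P.I) : IsRow P (9, l, r, 0) :=
  Or.inr (Or.inr (Or.inr (Or.inl ⟨rfl, hl, h1, rfl⟩)))
theorem isRow_10 {c : ℕ} (h1 : c < P.J) : IsRow P (10, 0, c, 0) :=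
  Or.inr (Or.inr (Or.inr (Or.inr (Or.inl ⟨rfl, rfl, h1, rfl⟩))))
theorem isRow_11 {i : ℕ} (h1 : i < P.m) : IsRow P (11, 0, i, 0) :=
  Or.inr (Or.inr (Or.inr (Or.inr (Or.inr (Or.inl ⟨rfl, rfl, h1, rfl⟩)))))
theorem isRow_H {t l c : ℕ} (ht : t = 12 ∨ t = 13) (hl : l < 2) (h1 : c + 1 < P.J)
    (h2 : P.db c = true) : IsRow P (t, l, c, 0) :=
  Or.inr (Or.inr (Or.inr (Or.inr (Or.inr (Or.inr (Or.inl ⟨ht, hl, h1, rfl, h2⟩))))))
theorem isRow_14 {l : ℕ} (hl : l < 2) : IsRow P (14, l, 0, 0) :=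
  Or.inr (Or.inr (Or.inr (Or.inr (Or.inr (Or.inr (Or.inr ⟨rfl, hl, rfl, rfl⟩))))))

theorem rhs_zero {r : Key} (h : r.1 ≠ 5) (h' : r.1 ≠ 6) (h'' : r.1 ≠ 14) : rhs P r = 0 := by
  unfold rhs
  rw [if_neg h'']
  split_ifs <;> rfl

theorem rhs_5 (l a b : ℕ) : rhs P (5, l, a, b) =
    if P.box = true ∧ P.be a b = true then 1 else 0 := by
  unfold rhs
  by_cases h1 : P.box = true <;> by_cases h2 : P.be a b = true <;> simp [h1, h2]

theorem rhs_6 (l a b : ℕ) : rhs P (6, l, a, b) =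
    if P.box = true ∧ P.be a b = false then 1 else 0 := by
  unfold rhs
  by_cases h1 : P.box = true <;> by_cases h2 : P.be a b = true <;> simp [h1, h2]

namespace Feas

variable (h : Feas P X)
include h

theorem f0 {c k : ℕ} (h1 : c < P.J) (h2 : k < K P.I c) : X (kN c k) ≤ X (kN c (k + 1)) := by
  have := h.row _ (isRow_0 h1 h2)
  rw [rhs_zero (by simp) (by simp) (by simp)] at this
  change ev X [(1, kN c k), (-1, kN c (k + 1))] ≤ _ at this
  rw [ev_2] at this
  push_cast at this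
  linarith

theorem f1 {r k : ℕ} (h1 : r < P.I) (h2 : k < 6 * (P.I - r)) :
    X (kE r (k + 1)) ≤ X (kE r k) := by
  have := h.row _ (isRow_1 h1 h2)
  rw [rhs_zero (by simp) (by simp) (by simp)] at this
  change ev X [(1, kE r (k + 1)), (-1, kE r k)] ≤ _ at this
  rw [ev_2] at this
  push_cast at this
  linarith

theorem f2 {l r c : ℕ} (hl : l < 2) (h1 : r < P.I) (h2 : c < P.J) :
    (sg l : ℝ) * (X (kP l r c) - X (kS l r c) - X (yv P.I l r c)) ≤ 0 := by
  have := h.row _ (isRow_cell (t := 2) (by simp) hl h1 h2)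
  rw [rhs_zero (by simp) (by simp) (by simp)] at this
  change ev X [(sg l, kP l r c), (-sg l, kS l r c), (-sg l, yv P.I l r c)] ≤ _ at this
  rw [ev_3] at this
  push_cast at this
  linarith

theorem f3 {l r c : ℕ} (hl : l < 2) (h1 : r < P.I) (h2 : c < P.J) :
    (sg l : ℝ) * (X (kZ l r c) + X (kS l r c) - X (kP l r c)) ≤ 0 := by
  have := h.row _ (isRow_cell (t := 3) (by simp) hl h1 h2)
  rw [rhs_zero (by simp) (by simp) (by simp)] at this
  change ev X [(sg l, kZ l r c), (sg l, kS l r c), (-sg l, kP l r c)] ≤ _ at this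
  rw [ev_3] at this
  push_cast at this
  linarith

theorem f4 {l r c : ℕ} (hl : l < 2) (h1 : r < P.I) (h2 : c < P.J) :
    (sg l : ℝ) * (X (kQ l r c) + X (kT l r c) - X (kP l r c)) ≤ 0 := by
  have := h.row _ (isRow_cell (t := 4) (by simp) hl h1 h2)
  rw [rhs_zero (by simp) (by simp) (by simp)] at this
  change ev X [(sg l, kQ l r c), (sg l, kT l r c), (-sg l, kP l r c)] ≤ _ at this
  rw [ev_3] at this
  push_cast at this
  linarith

theorem f5 {l r c : ℕ} (hl : l < 2) (h1 : r < P.I) (h2 : c < P.J)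
    (hb : P.box = true ∨ P.be r c = false) :
    (sg l : ℝ) * (X (kZ l r c) - X (kT l r c)) ≤
      if P.box = true ∧ P.be r c = true then 1 else 0 := by
  have := h.row _ (isRow_cell (t := 5) (by simp [hb]) hl h1 h2)
  rw [rhs_5] at this
  change ev X [(sg l, kZ l r c), (-sg l, kT l r c)] ≤ _ at this
  rw [ev_2] at this
  push_cast at this
  linarith

theorem f6 {l r c : ℕ} (hl : l < 2) (h1 : r < P.I) (h2 : c < P.J)
    (hb : P.box = true ∨ P.be r c = true) :
    X (kT l r c) ≤ if P.box = true ∧ P.be r c = false then 1 else 0 := by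
  have := h.row _ (isRow_cell (t := 6) (by simp [hb]) hl h1 h2)
  rw [rhs_6] at this
  change ev X [(1, kT l r c)] ≤ _ at this
  rw [ev_1] at this
  push_cast at this
  linarith

theorem f7 {l r c : ℕ} (hl : l < 2) (h1 : r < P.I) (h2 : c < P.J) :
    (sg l : ℝ) * (X (kY l (r + 1) c) - X (kZ l r c)) ≤ 0 := by
  have := h.row _ (isRow_cell (t := 7) (by simp) hl h1 h2)
  rw [rhs_zero (by simp) (by simp) (by simp)] at this
  change ev X [(sg l, kY l (r + 1) c), (-sg l, kZ l r c)] ≤ _ at this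
  rw [ev_2] at this
  push_cast at this
  linarith

theorem f8 {l r c : ℕ} (hl : l < 2) (h1 : r < P.I) (h2 : c < P.J) :
    (sg l : ℝ) * (X (sv P.I P.J l r (c + 1)) - X (kQ l r c)) ≤ 0 := by
  have := h.row _ (isRow_cell (t := 8) (by simp) hl h1 h2)
  rw [rhs_zero (by simp) (by simp) (by simp)] at this
  change ev X [(sg l, sv P.I P.J l r (c + 1)), (-sg l, kQ l r c)] ≤ _ at this
  rw [ev_2] at this
  push_cast at this
  linarith

theorem f9 {l r : ℕ} (hl : l < 2) (h1 : r < P.I) : X (kS l r 0) ≤ 0 := by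
  have := h.row _ (isRow_9 hl h1)
  rw [rhs_zero (by simp) (by simp) (by simp)] at this
  change ev X [(1, kS l r 0)] ≤ _ at this
  rw [ev_1] at this
  push_cast at this
  linarith

theorem f10 {c : ℕ} (h1 : c < P.J) : X (kY 1 P.I c) ≤ X (kY 0 P.I c) := by
  have := h.row _ (isRow_10 h1)
  rw [rhs_zero (by simp) (by simp) (by simp)] at this
  change ev X [(1, kY 1 P.I c), (-1, kY 0 P.I c)] ≤ _ at this
  rw [ev_2] at this
  push_cast at this
  linarith

theorem f11 {i : ℕ} (h1 : i < P.m) : X (kE (2 * i) (3 * (P.I - 2 * i))) ≤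
    X (kE (2 * i + 1) (3 * (P.I - 2 * i - 1))) := by
  have := h.row _ (isRow_11 h1)
  rw [rhs_zero (by simp) (by simp) (by simp)] at this
  change ev X [(1, kE (2 * i) (3 * (P.I - 2 * i))),
    (-1, kE (2 * i + 1) (3 * (P.I - 2 * i - 1)))] ≤ _ at this
  rw [ev_2] at this
  push_cast at this
  linarith

theorem f12 {c : ℕ} (h1 : c + 1 < P.J) (h2 : P.db c = true) :
    X (kN (c + 1) (4 * c + 9 + 4 * (c % 2))) ≤
      X (kN c (4 * c + 5 + 4 * (c % 2))) + X (kG 0 c) := by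
  have := h.row _ (isRow_H (t := 12) (l := 0) (by simp) (by simp) h1 h2)
  rw [rhs_zero (by simp) (by simp) (by simp)] at this
  change ev X [(1, kN (c + 1) (4 * c + 9 + 4 * (c % 2))),
    (-1, kN c (4 * c + 5 + 4 * (c % 2))), (-1, kG 0 c)] ≤ _ at this
  rw [ev_3] at this
  push_cast at this
  linarith

theorem f12' {c : ℕ} (h1 : c + 1 < P.J) (h2 : P.db c = true) :
    X (kN c (4 * c + 7 + 4 * (c % 2))) + X (kG 1 c) ≤
      X (kN (c + 1) (4 * c + 11 + 4 * (c % 2))) := by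
  have := h.row _ (isRow_H (t := 12) (l := 1) (by simp) (by simp) h1 h2)
  rw [rhs_zero (by simp) (by simp) (by simp)] at this
  change ev X [(1, kN c (4 * c + 7 + 4 * (c % 2))), (1, kG 1 c),
    (-1, kN (c + 1) (4 * c + 11 + 4 * (c % 2)))] ≤ _ at this
  rw [ev_3] at this
  push_cast at this
  linarith

theorem f13 {c : ℕ} (h1 : c + 1 < P.J) (h2 : P.db c = true) :
    X (kG 0 c) ≤ X (kN c (4 * c + 6 + 4 * (c % 2))) := by
  have := h.row _ (isRow_H (t := 13) (l := 0) (by simp) (by simp) h1 h2)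
  rw [rhs_zero (by simp) (by simp) (by simp)] at this
  change ev X [(1, kG 0 c), (-1, kN c (4 * c + 6 + 4 * (c % 2)))] ≤ _ at this
  rw [ev_2] at this
  push_cast at this
  linarith

theorem f13' {c : ℕ} (h1 : c + 1 < P.J) (h2 : P.db c = true) :
    X (kN c (4 * c + 8 + 4 * (c % 2))) ≤ X (kG 1 c) := by
  have := h.row _ (isRow_H (t := 13) (l := 1) (by simp) (by simp) h1 h2)
  rw [rhs_zero (by simp) (by simp) (by simp)] at this
  change ev X [(1, kN c (4 * c + 8 + 4 * (c % 2))), (-1, kG 1 c)] ≤ _ at this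
  rw [ev_2] at this
  push_cast at this
  linarith

theorem f14 : X (kN P.c0 (4 * P.c0 + 13)) ≤ 1 := by
  have := h.row _ (isRow_14 (l := 0) (by simp))
  change ev X [(1, kN P.c0 (4 * P.c0 + 13))] ≤ ((1 : ℤ) : ℝ) at this
  rw [ev_1] at this
  push_cast at this
  linarith

theorem f14' : 1 ≤ X (kN P.c0 (4 * P.c0 + 14)) := by
  have := h.row _ (isRow_14 (l := 1) (by simp))
  change ev X [(-1, kN P.c0 (4 * P.c0 + 14))] ≤ ((-1 : ℤ) : ℝ) at this
  rw [ev_1] at this
  push_cast at this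
  linarith

/-! ### The vertical wires -/

theorem chainN {c : ℕ} (h1 : c < P.J) {j k : ℕ} (hjk : j ≤ k) (hk : k ≤ K P.I c) :
    X (kN c j) ≤ X (kN c k) := by
  induction k, hjk using Nat.le_induction with
  | base => exact le_rfl
  | succ k hk' ih => exact (ih (by omega)).trans (h.f0 h1 (by omega))

theorem chainE {r : ℕ} (h1 : r < P.I) {j k : ℕ} (hjk : j ≤ k) (hk : k ≤ 6 * (P.I - r)) :
    X (kE r k) ≤ X (kE r j) := by
  induction k, hjk using Nat.le_induction with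
  | base => exact le_rfl
  | succ k hk' ih => exact (h.f1 h1 (by omega)).trans (ih (by omega))

theorem stepY0 {r c : ℕ} (h1 : r < P.I) (h2 : c < P.J) :
    X (yv P.I 0 (r + 1) c) ≤ X (yv P.I 0 r c) := by
  have e1 := h.f2 (l := 0) (by simp) h1 h2
  have e2 := h.f3 (l := 0) (by simp) h1 h2
  have e3 := h.f7 (l := 0) (by simp) h1 h2
  rw [sg_zero] at e1 e2 e3
  push_cast at e1 e2 e3
  have e4 : yv P.I 0 (r + 1) c = kY 0 (r + 1) c := by unfold yv; rw [if_neg (by omega)]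
  rw [e4]
  linarith

theorem stepY1 {r c : ℕ} (h1 : r < P.I) (h2 : c < P.J) :
    X (yv P.I 1 r c) ≤ X (yv P.I 1 (r + 1) c) := by
  have e1 := h.f2 (l := 1) (by simp) h1 h2
  have e2 := h.f3 (l := 1) (by simp) h1 h2
  have e3 := h.f7 (l := 1) (by simp) h1 h2
  rw [sg_one] at e1 e2 e3
  push_cast at e1 e2 e3
  have e4 : yv P.I 1 (r + 1) c = kY 1 (r + 1) c := by unfold yv; rw [if_neg (by omega)]
  rw [e4]
  linarith

theorem chainY0 {c : ℕ} (h2 : c < P.J) {j k : ℕ} (hjk : j ≤ k) (hk : k ≤ P.I) :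
    X (yv P.I 0 k c) ≤ X (yv P.I 0 j c) := by
  induction k, hjk using Nat.le_induction with
  | base => exact le_rfl
  | succ k hk' ih => exact (h.stepY0 (by omega) h2).trans (ih (by omega))

theorem chainY1 {c : ℕ} (h2 : c < P.J) {j k : ℕ} (hjk : j ≤ k) (hk : k ≤ P.I) :
    X (yv P.I 1 j c) ≤ X (yv P.I 1 k c) := by
  induction k, hjk using Nat.le_induction with
  | base => exact le_rfl
  | succ k hk' ih => exact (ih (by omega)).trans (h.stepY1 (by omega) h2)

theorem turn {c : ℕ} (hI : 1 ≤ P.I) (h2 : c < P.J) :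
    X (yv P.I 1 P.I c) ≤ X (yv P.I 0 P.I c) := by
  have e4 : yv P.I 1 P.I c = kY 1 P.I c := by unfold yv; rw [if_neg (by omega)]
  have e5 : yv P.I 0 P.I c = kY 0 P.I c := by unfold yv; rw [if_neg (by omega)]
  rw [e4, e5]
  exact h.f10 h2

omit h in
theorem yv00 (c : ℕ) : yv P.I 0 0 c = kN c 0 := rfl
omit h in
theorem yv10 (c : ℕ) : yv P.I 1 0 c = kN c (K P.I c) := rfl

theorem eqY0 {r c : ℕ} (hI : 1 ≤ P.I) (hr : r ≤ P.I) (h2 : c < P.J) :
    X (yv P.I 0 r c) = X (kN c 0) := by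
  have e1 := h.chainY0 h2 (Nat.zero_le r) hr
  have e2 := h.chainY0 h2 hr le_rfl
  have e3 := h.turn hI h2
  have e4 := h.chainY1 h2 (Nat.zero_le P.I) le_rfl
  have e5 := h.chainN h2 (Nat.zero_le (K P.I c)) le_rfl
  rw [yv00] at e1
  rw [yv10] at e4
  linarith

theorem eqY1 {r c : ℕ} (hI : 1 ≤ P.I) (hr : r ≤ P.I) (h2 : c < P.J) :
    X (yv P.I 1 r c) = X (kN c 0) := by
  have e1 := h.chainY1 h2 (Nat.zero_le r) hr
  have e2 := h.chainY1 h2 hr le_rfl
  have e3 := h.turn hI h2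
  have e4 := h.chainY0 h2 (Nat.zero_le P.I) le_rfl
  have e5 := h.chainN h2 (Nat.zero_le (K P.I c)) le_rfl
  rw [yv10] at e1
  rw [yv00] at e4
  linarith

theorem eqN {c k : ℕ} (hI : 1 ≤ P.I) (h2 : c < P.J) (hk : k ≤ K P.I c) :
    X (kN c k) = X (kN c 0) := by
  have e1 := h.chainN h2 (Nat.zero_le k) hk
  have e2 := h.chainN h2 hk le_rfl
  have e3 := h.eqY1 (r := 0) hI (by omega) h2
  rw [yv10] at e3
  linarith

theorem eqZ0 {r c : ℕ} (hr : r < P.I) (h2 : c < P.J) :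
    X (kZ 0 r c) = X (kN c 0) ∧ X (kP 0 r c) = X (kS 0 r c) + X (kN c 0) := by
  have hI : 1 ≤ P.I := by omega
  have e1 := h.f2 (l := 0) (by simp) hr h2
  have e2 := h.f3 (l := 0) (by simp) hr h2
  have e3 := h.f7 (l := 0) (by simp) hr h2
  rw [sg_zero] at e1 e2 e3
  push_cast at e1 e2 e3
  have e4 : yv P.I 0 (r + 1) c = kY 0 (r + 1) c := by unfold yv; rw [if_neg (by omega)]
  have e5 := h.eqY0 (r := r) hI hr.le h2
  have e6 := h.eqY0 (r := r + 1) hI hr h2
  rw [e4] at e6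
  constructor <;> linarith

theorem eqZ1 {r c : ℕ} (hr : r < P.I) (h2 : c < P.J) :
    X (kZ 1 r c) = X (kN c 0) ∧ X (kP 1 r c) = X (kS 1 r c) + X (kN c 0) := by
  have hI : 1 ≤ P.I := by omega
  have e1 := h.f2 (l := 1) (by simp) hr h2
  have e2 := h.f3 (l := 1) (by simp) hr h2
  have e3 := h.f7 (l := 1) (by simp) hr h2
  rw [sg_one] at e1 e2 e3
  push_cast at e1 e2 e3
  have e4 : yv P.I 1 (r + 1) c = kY 1 (r + 1) c := by unfold yv; rw [if_neg (by omega)]
  have e5 := h.eqY1 (r := r) hI hr.le h2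
  have e6 := h.eqY1 (r := r + 1) hI hr h2
  rw [e4] at e6
  constructor <;> linarith

/-! ### The horizontal wires -/

theorem q0 {r c : ℕ} (hr : r < P.I) (h2 : c < P.J) :
    X (kQ 0 r c) ≤ X (kS 0 r c) + if P.be r c = true then X (kN c 0) else 0 := by
  have e1 := h.f4 (l := 0) (by simp) hr h2
  rw [sg_zero] at e1
  push_cast at e1
  obtain ⟨e2, e3⟩ := h.eqZ0 hr h2
  by_cases hb : P.be r c = true
  · rw [if_pos hb]
    have e4 := h.nonneg _ (isVar_T (l := 0) (by simp) hr h2)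
    linarith
  · rw [if_neg hb]
    have e4 := h.f5 (l := 0) (by simp) hr h2 (Or.inr (by simpa using hb))
    rw [sg_zero, if_neg (by simp [hb])] at e4
    push_cast at e4
    linarith

theorem q1 {r c : ℕ} (hr : r < P.I) (h2 : c < P.J) :
    (X (kS 1 r c) + if P.be r c = true then X (kN c 0) else 0) ≤ X (kQ 1 r c) := by
  have e1 := h.f4 (l := 1) (by simp) hr h2
  rw [sg_one] at e1
  push_cast at e1
  obtain ⟨e2, e3⟩ := h.eqZ1 hr h2
  by_cases hb : P.be r c = true
  · rw [if_pos hb]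
    have e4 := h.f6 (l := 1) (by simp) hr h2 (Or.inr hb)
    rw [if_neg (by simp [hb])] at e4
    linarith
  · rw [if_neg hb]
    have e4 := h.f5 (l := 1) (by simp) hr h2 (Or.inr (by simpa using hb))
    rw [sg_one, if_neg (by simp [hb])] at e4
    push_cast at e4
    linarith

theorem s0 {r c : ℕ} (hr : r < P.I) (h2 : c < P.J) :
    X (sv P.I P.J 0 r (c + 1)) ≤ X (kQ 0 r c) := by
  have e1 := h.f8 (l := 0) (by simp) hr h2
  rw [sg_zero] at e1
  push_cast at e1
  linarith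

theorem s1 {r c : ℕ} (hr : r < P.I) (h2 : c < P.J) :
    X (kQ 1 r c) ≤ X (sv P.I P.J 1 r (c + 1)) := by
  have e1 := h.f8 (l := 1) (by simp) hr h2
  rw [sg_one] at e1
  push_cast at e1
  linarith

omit h in
theorem sv_lt {l r c : ℕ} (hc : c < P.J) : sv P.I P.J l r c = kS l r c := by
  unfold sv; rw [if_neg (by omega)]

omit h in
theorem sv0J (r : ℕ) : sv P.I P.J 0 r P.J = kE r 0 := by unfold sv; rw [if_pos rfl, if_pos rfl]
omit h in
theorem sv1J (r : ℕ) : sv P.I P.J 1 r P.J = kE r (6 * (P.I - r)) := by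
  unfold sv; rw [if_pos rfl, if_neg (by omega)]

/-- the deficit in layer 0 grows -/
theorem mono0 {r : ℕ} (hr : r < P.I) {j k : ℕ} (hjk : j ≤ k) (hk : k ≤ P.J) :
    ps P.be (fun c => X (kN c 0)) r j - X (sv P.I P.J 0 r j) ≤
      ps P.be (fun c => X (kN c 0)) r k - X (sv P.I P.J 0 r k) := by
  induction k, hjk using Nat.le_induction with
  | base => exact le_rfl
  | succ k hk' ih =>
    refine (ih (by omega)).trans ?_
    have e1 := h.q0 hr (c := k) (by omega)
    have e2 := h.s0 hr (c := k) (by omega)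
    have e3 : sv P.I P.J 0 r k = kS 0 r k := sv_lt (by omega)
    rw [e3]
    simp only [ps]
    linarith

theorem mono1 {r : ℕ} (hr : r < P.I) {j k : ℕ} (hjk : j ≤ k) (hk : k ≤ P.J) :
    X (sv P.I P.J 1 r j) - ps P.be (fun c => X (kN c 0)) r j ≤
      X (sv P.I P.J 1 r k) - ps P.be (fun c => X (kN c 0)) r k := by
  induction k, hjk using Nat.le_induction with
  | base => exact le_rfl
  | succ k hk' ih =>
    refine (ih (by omega)).trans ?_
    have e1 := h.q1 hr (c := k) (by omega)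
    have e2 := h.s1 hr (c := k) (by omega)
    have e3 : sv P.I P.J 1 r k = kS 1 r k := sv_lt (by omega)
    rw [e3]
    simp only [ps]
    linarith

theorem start {l r : ℕ} (hl : l < 2) (hr : r < P.I) (hJ : 0 < P.J) :
    X (sv P.I P.J l r 0) = 0 := by
  rw [sv_lt hJ]
  exact le_antisymm (h.f9 hl hr) (h.nonneg _ (isVar_S hl hr hJ))

theorem eqS {r c : ℕ} (hr : r < P.I) (hJ : 0 < P.J) (hc : c ≤ P.J) :
    X (sv P.I P.J 0 r c) = ps P.be (fun c => X (kN c 0)) r c ∧
    X (sv P.I P.J 1 r c) = ps P.be (fun c => X (kN c 0)) r c := by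
  have e1 := h.mono0 hr (Nat.zero_le c) hc
  have e2 := h.mono0 hr hc le_rfl
  have e3 := h.mono1 hr (Nat.zero_le c) hc
  have e4 := h.mono1 hr hc le_rfl
  have e5 := h.start (l := 0) (by simp) hr hJ
  have e6 := h.start (l := 1) (by simp) hr hJ
  have e7 := h.chainE hr (Nat.zero_le (6 * (P.I - r))) le_rfl
  rw [← sv0J, ← sv1J] at e7
  simp only [ps] at e1 e3
  constructor <;> linarith

theorem eqE {r k : ℕ} (hr : r < P.I) (hJ : 0 < P.J) (hk : k ≤ 6 * (P.I - r)) :
    X (kE r k) = ps P.be (fun c => X (kN c 0)) r P.J := by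
  have e1 := h.chainE hr (Nat.zero_le k) hk
  have e2 := h.chainE hr hk le_rfl
  obtain ⟨e3, e4⟩ := h.eqS hr hJ le_rfl
  rw [sv0J] at e3
  rw [sv1J] at e4
  linarith

theorem eqQ {l r c : ℕ} (hl : l < 2) (hr : r < P.I) (hc : c < P.J) :
    X (kQ l r c) = ps P.be (fun c => X (kN c 0)) r (c + 1) := by
  obtain ⟨e1, e2⟩ := h.eqS hr (by omega) hc.le
  obtain ⟨e3, e4⟩ := h.eqS hr (by omega) (c := c + 1) hc
  rw [sv_lt hc] at e1 e2
  obtain rfl | rfl : l = 0 ∨ l = 1 := by omega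
  · have e5 := h.q0 hr hc
    have e6 := h.s0 hr hc
    simp only [ps] at *
    linarith
  · have e5 := h.q1 hr hc
    have e6 := h.s1 hr hc
    simp only [ps] at *
    linarith

theorem eqT {l r c : ℕ} (hl : l < 2) (hr : r < P.I) (hc : c < P.J) :
    X (kT l r c) = if P.be r c = true then 0 else X (kN c 0) := by
  have e0 := h.eqQ hl hr hc
  obtain ⟨e1, e2⟩ := h.eqS hr (by omega) hc.le
  rw [sv_lt hc] at e1 e2
  by_cases hb : P.be r c = true
  · rw [if_pos hb]
    have e3 := h.f6 hl hr hc (Or.inr hb)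
    rw [if_neg (by simp [hb])] at e3
    exact le_antisymm e3 (h.nonneg _ (isVar_T hl hr hc))
  · rw [if_neg hb]
    simp only [ps, if_neg hb, add_zero] at e0
    have e3 := h.f5 hl hr hc (Or.inr (by simpa using hb))
    have e4 := h.f4 hl hr hc
    rw [if_neg (by simp [hb])] at e3
    obtain rfl | rfl : l = 0 ∨ l = 1 := by omega
    · obtain ⟨e5, e6⟩ := h.eqZ0 hr hc
      rw [sg_zero] at e3 e4
      push_cast at e3 e4
      linarith
    · obtain ⟨e5, e6⟩ := h.eqZ1 hr hc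
      rw [sg_one] at e3 e4
      push_cast at e3 e4
      linarith

theorem eqG (hI : 1 ≤ P.I) {l c : ℕ} (hl : l < 2) (h1 : c + 1 < P.J) (h2 : P.db c = true) :
    X (kG l c) = X (kN c 0) ∧ X (kN (c + 1) 0) = 2 * X (kN c 0) := by
  have hh : c % 2 < 2 := Nat.mod_lt _ (by norm_num)
  have e1 := h.f12 h1 h2
  have e2 := h.f12' h1 h2
  have e3 := h.f13 h1 h2
  have e4 := h.f13' h1 h2
  have g1 := h.eqN (c := c + 1) (k := 4 * c + 9 + 4 * (c % 2)) hI (by omega) (by unfold K; omega)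
  have g2 := h.eqN (c := c) (k := 4 * c + 5 + 4 * (c % 2)) hI (by omega) (by unfold K; omega)
  have g3 := h.eqN (c := c) (k := 4 * c + 7 + 4 * (c % 2)) hI (by omega) (by unfold K; omega)
  have g4 := h.eqN (c := c + 1) (k := 4 * c + 11 + 4 * (c % 2)) hI (by omega) (by unfold K; omega)
  have g5 := h.eqN (c := c) (k := 4 * c + 6 + 4 * (c % 2)) hI (by omega) (by unfold K; omega)
  have g6 := h.eqN (c := c) (k := 4 * c + 8 + 4 * (c % 2)) hI (by omega) (by unfold K; omega)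
  obtain rfl | rfl : l = 0 ∨ l = 1 := by omega
  · constructor <;> linarith
  · constructor <;> linarith

theorem boxed (hbox : P.box = true) (hI : 0 < P.I) {c : ℕ} (hc : c < P.J) : X (kN c 0) ≤ 1 := by
  obtain ⟨e1, -⟩ := h.eqZ0 hI hc
  have e2 := h.f5 (l := 0) (by simp) hI hc (Or.inl hbox)
  have e3 := h.f6 (l := 0) (by simp) hI hc (Or.inl hbox)
  rw [sg_zero] at e2
  push_cast at e2
  by_cases hb : P.be 0 c = true
  · rw [if_pos ⟨hbox, hb⟩] at e2
    rw [if_neg (by simp [hb])] at e3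
    linarith
  · rw [if_neg (by simp [hb])] at e2
    rw [if_pos (by simp [hb, hbox])] at e3
    linarith

/-- all solutions come from admissible values of the vertical wires -/
theorem adm (hP : P.Ok) : Adm P (fun c => X (kN c 0)) := by
  have hI := hP.I2
  have hc := hP.c0
  refine ⟨fun c hc => h.nonneg _ (isVar_N hc (Nat.zero_le _)), ?_,
    fun c h1 h2 => (h.eqG (by omega) (l := 0) (by simp) h1 h2).2, fun i hi => ?_,
    fun hb c hc => h.boxed hb (by omega) hc⟩
  · have e1 := h.f14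
    have e2 := h.f14'
    rw [h.eqN (by omega) hc (by unfold K; omega)] at e1 e2
    exact le_antisymm e1 e2
  · have e1 := h.f11 hi
    rw [h.eqE (by omega) (by omega) (by omega), h.eqE (by omega) (by omega) (by omega)] at e1
    exact e1

theorem forced (hP : P.Ok) {v : Key} (hv : IsVar P v) :
    X v = val P (fun c => X (kN c 0)) v := by
  have hI := hP.I2
  have hc := hP.c0
  obtain ⟨t, l, a, b⟩ := v
  simp only [IsVar] at hv
  rcases hv with ⟨rfl, rfl, h1, h2⟩ | ⟨rfl, rfl, h1, h2⟩ | ⟨rfl, h0, h1, h2, h3⟩ |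
    ⟨ht, h0, h1, h2⟩ | ⟨rfl, h0, h1, rfl, h2⟩
  · exact h.eqN (by omega) h1 h2
  · exact h.eqE h1 (by omega) h2
  · obtain rfl | rfl : l = 0 ∨ l = 1 := by omega
    · have e4 : yv P.I 0 a b = kY 0 a b := by unfold yv; rw [if_neg (by omega)]
      have := h.eqY0 (r := a) (c := b) (by omega) h2 h3
      rw [e4] at this
      exact this
    · have e4 : yv P.I 1 a b = kY 1 a b := by unfold yv; rw [if_neg (by omega)]
      have := h.eqY1 (r := a) (c := b) (by omega) h2 h3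
      rw [e4] at this
      exact this
  · obtain ⟨e1, e2⟩ := h.eqS h1 (by omega) h2.le
    rw [sv_lt h2] at e1 e2
    rcases ht with rfl | rfl | rfl | rfl | rfl
    · obtain rfl | rfl : l = 0 ∨ l = 1 := by omega
      · exact e1
      · exact e2
    · obtain rfl | rfl : l = 0 ∨ l = 1 := by omega
      · refine (h.eqZ0 h1 h2).2.trans ?_
        rw [e1]
        rfl
      · refine (h.eqZ1 h1 h2).2.trans ?_
        rw [e2]
        rfl
    · obtain rfl | rfl : l = 0 ∨ l = 1 := by omega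
      · exact (h.eqZ0 h1 h2).1
      · exact (h.eqZ1 h1 h2).1
    · exact h.eqT h0 h1 h2
    · exact h.eqQ h0 h1 h2
  · exact (h.eqG (by omega) h0 h1 h2).1

end Feas

end

end Pool.Agent.H43.PL
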