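import Pool.Agent.H43.PL.Sem
set_option autoImplicit false

/-!
# Admissible values of the vertical wires give solutions
-/

namespace Pool.Agent.H43.PL

section

variable {R : Type*} [AddCommMonoid R] (P : Par) (Y : ℕ → R)

theorem val_N (c k : ℕ) : val P Y (kN c k) = Y c := rfl
theorem val_E (r k : ℕ) : val P Y (kE r k) = ps P.be Y r P.J := rfl
theorem val_S (l r c : ℕ) : val P Y (kS l r c) = ps P.be Y r c := rfl
theorem val_Y (l r c : ℕ) : val P Y (kY l r c) = Y c := rfl
theorem val_P (l r c : ℕ) : val P Y (kP l r c) = ps P.be Y r c + Y c := rfl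
theorem val_Z (l r c : ℕ) : val P Y (kZ l r c) = Y c := rfl
theorem val_T (l r c : ℕ) : val P Y (kT l r c) = if P.be r c = true then 0 else Y c := rfl
theorem val_Q (l r c : ℕ) : val P Y (kQ l r c) = ps P.be Y r (c + 1) := rfl
theorem val_G (l c : ℕ) : val P Y (kG l c) = Y c := rfl

theorem val_yv (l r c : ℕ) : val P Y (yv P.I l r c) = Y c := by
  unfold yv
  split_ifs <;> rfl

theorem val_sv (l r c : ℕ) : val P Y (sv P.I P.J l r c) = ps P.be Y r c := by
  unfold sv
  split_ifs with h1 h2
  · rw [h1]; rfl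
  · rw [h1]; rfl
  · rfl

theorem ps_congr {be : ℕ → ℕ → Bool} {Y Y' : ℕ → R} {r : ℕ} : ∀ {c : ℕ},
    (∀ d < c, Y d = Y' d) → ps be Y r c = ps be Y' r c
  | 0, _ => rfl
  | c + 1, h => by
    simp only [ps]
    rw [ps_congr (c := c) fun d hd => h d (by omega), h c (by omega)]

theorem val_congr {P : Par} {Y Y' : ℕ → R} {v : Key} (hv : IsVar P v)
    (h : ∀ c < P.J, Y c = Y' c) : val P Y v = val P Y' v := by
  obtain ⟨t, l, a, b⟩ := v
  simp only [IsVar] at hv
  rcases hv with ⟨rfl, rfl, h1, h2⟩ | ⟨rfl, rfl, h1, h2⟩ | ⟨rfl, h0, h1, h2, h3⟩ |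
    ⟨ht, h0, h1, h2⟩ | ⟨rfl, h0, h1, rfl, h2⟩
  · exact h a h1
  · exact ps_congr h
  · exact h b h3
  · rcases ht with rfl | rfl | rfl | rfl | rfl
    · exact ps_congr (c := b) fun d hd => h d (by omega)
    · change ps P.be Y a b + Y b = ps P.be Y' a b + Y' b
      rw [ps_congr fun d hd => h d (by omega), h b h2]
    · exact h b h2
    · change (if P.be a b = true then 0 else Y b) = if P.be a b = true then 0 else Y' b
      rw [h b h2]
    · exact ps_congr (c := b + 1) fun d hd => h d (by omega)
  · exact h a (by omega)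

end

theorem ps_nonneg {be : ℕ → ℕ → Bool} {Y : ℕ → ℝ} {r : ℕ} : ∀ {c : ℕ},
    (∀ d < c, 0 ≤ Y d) → 0 ≤ ps be Y r c
  | 0, _ => le_rfl
  | c + 1, h => by
    simp only [ps]
    have h1 := ps_nonneg (be := be) (r := r) (c := c) fun d hd => h d (by omega)
    have h2 := h c (by omega)
    split_ifs <;> linarith

variable {P : Par} {Y : ℕ → ℝ}

theorem Adm.feas (h : Adm P Y) (hP : P.Ok) : Feas P (val P Y) := by
  have hI := hP.I2
  have hc := hP.c0
  refine ⟨fun v hv => ?_, fun r hr => ?_⟩
  · obtain ⟨t, l, a, b⟩ := v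
    simp only [IsVar] at hv
    rcases hv with ⟨rfl, rfl, h1, h2⟩ | ⟨rfl, rfl, h1, h2⟩ | ⟨rfl, h0, h1, h2, h3⟩ |
      ⟨ht, h0, h1, h2⟩ | ⟨rfl, h0, h1, rfl, h2⟩
    · exact h.nonneg a h1
    · exact ps_nonneg h.nonneg
    · exact h.nonneg b h3
    · rcases ht with rfl | rfl | rfl | rfl | rfl
      · exact ps_nonneg (c := b) fun d hd => h.nonneg d (by omega)
      · exact add_nonneg (ps_nonneg (c := b) fun d hd => h.nonneg d (by omega)) (h.nonneg b h2)
      · exact h.nonneg b h2
      · change 0 ≤ if P.be a b = true then 0 else Y b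
        split_ifs
        · exact le_rfl
        · exact h.nonneg b h2
      · exact ps_nonneg (c := b + 1) fun d hd => h.nonneg d (by omega)
    · exact h.nonneg a (by omega)
  · obtain ⟨t, l, a, b⟩ := r
    simp only [IsRow] at hr
    rcases hr with ⟨rfl, rfl, h1, h2⟩ | ⟨rfl, rfl, h1, h2⟩ | ⟨ht, h0, h1, h2⟩ |
      ⟨rfl, h0, h1, rfl⟩ | ⟨rfl, rfl, h1, rfl⟩ | ⟨rfl, rfl, h1, rfl⟩ | ⟨ht, h0, h1, rfl, h2⟩ |
      ⟨rfl, h0, rfl, rfl⟩
    · rw [rhs_zero (by simp) (by simp) (by simp)]
      change ev _ [(1, kN a b), (-1, kN a (b + 1))] ≤ _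
      rw [ev_2, val_N, val_N]
      push_cast; linarith
    · rw [rhs_zero (by simp) (by simp) (by simp)]
      change ev _ [(1, kE a (b + 1)), (-1, kE a b)] ≤ _
      rw [ev_2, val_E, val_E]
      push_cast; linarith
    · rcases ht with rfl | rfl | rfl | ⟨rfl, hb⟩ | ⟨rfl, hb⟩ | rfl | rfl
      · rw [rhs_zero (by simp) (by simp) (by simp)]
        change ev _ [(sg l, kP l a b), (-sg l, kS l a b), (-sg l, yv P.I l a b)] ≤ _
        rw [ev_3, val_P, val_S, val_yv]
        push_cast; linarith
      · rw [rhs_zero (by simp) (by simp) (by simp)]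
        change ev _ [(sg l, kZ l a b), (sg l, kS l a b), (-sg l, kP l a b)] ≤ _
        rw [ev_3, val_Z, val_S, val_P]
        push_cast; linarith
      · rw [rhs_zero (by simp) (by simp) (by simp)]
        change ev _ [(sg l, kQ l a b), (sg l, kT l a b), (-sg l, kP l a b)] ≤ _
        rw [ev_3, val_Q, val_T, val_P]
        simp only [ps]
        push_cast
        split_ifs <;> linarith
      · rw [rhs_5]
        change ev _ [(sg l, kZ l a b), (-sg l, kT l a b)] ≤ _
        rw [ev_2, val_Z, val_T]
        by_cases hbe : P.be a b = true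
        · have hbox : P.box = true := by
            rcases hb with hb | hb
            · exact hb
            · rw [hbe] at hb; simp at hb
          rw [if_pos hbe, if_pos ⟨hbox, hbe⟩]
          have e1 := h.nonneg b h2
          have e2 := h.box hbox b h2
          rcases sg_unit l with e | e <;> rw [e] <;> push_cast <;> linarith
        · rw [if_neg hbe, if_neg (by simp [hbe])]
          push_cast; linarith
      · rw [rhs_6]
        change ev _ [(1, kT l a b)] ≤ _
        rw [ev_1, val_T]
        by_cases hbe : P.be a b = true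
        · rw [if_pos hbe, if_neg (by simp [hbe])]
          push_cast; linarith
        · have hbox : P.box = true := by
            rcases hb with hb | hb
            · exact hb
            · exact absurd hb hbe
          rw [if_neg hbe, if_pos ⟨hbox, by simpa using hbe⟩]
          have e2 := h.box hbox b h2
          push_cast; linarith
      · rw [rhs_zero (by simp) (by simp) (by simp)]
        change ev _ [(sg l, kY l (a + 1) b), (-sg l, kZ l a b)] ≤ _
        rw [ev_2, val_Y, val_Z]
        push_cast; linarith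
      · rw [rhs_zero (by simp) (by simp) (by simp)]
        change ev _ [(sg l, sv P.I P.J l a (b + 1)), (-sg l, kQ l a b)] ≤ _
        rw [ev_2, val_sv, val_Q]
        push_cast; linarith
    · rw [rhs_zero (by simp) (by simp) (by simp)]
      change ev _ [(1, kS l a 0)] ≤ _
      rw [ev_1, val_S]
      simp [ps]
    · rw [rhs_zero (by simp) (by simp) (by simp)]
      change ev _ [(1, kY 1 P.I a), (-1, kY 0 P.I a)] ≤ _
      rw [ev_2, val_Y, val_Y]
      push_cast; linarith
    · rw [rhs_zero (by simp) (by simp) (by simp)]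
      change ev _ [(1, kE (2 * a) (3 * (P.I - 2 * a))),
        (-1, kE (2 * a + 1) (3 * (P.I - 2 * a - 1)))] ≤ _
      rw [ev_2, val_E, val_E]
      have := h.le a h1
      push_cast; linarith
    · have hd := h.dbl a h1 h2
      obtain rfl | rfl : l = 0 ∨ l = 1 := by omega
      · rcases ht with rfl | rfl
        · rw [rhs_zero (by simp) (by simp) (by simp)]
          change ev _ [(1, kN (a + 1) (4 * a + 9 + 4 * (a % 2))),
            (-1, kN a (4 * a + 5 + 4 * (a % 2))), (-1, kG 0 a)] ≤ _
          rw [ev_3, val_N, val_N, val_G]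
          push_cast; linarith
        · rw [rhs_zero (by simp) (by simp) (by simp)]
          change ev _ [(1, kG 0 a), (-1, kN a (4 * a + 6 + 4 * (a % 2)))] ≤ _
          rw [ev_2, val_N, val_G]
          push_cast; linarith
      · rcases ht with rfl | rfl
        · rw [rhs_zero (by simp) (by simp) (by simp)]
          change ev _ [(1, kN a (4 * a + 7 + 4 * (a % 2))), (1, kG 1 a),
            (-1, kN (a + 1) (4 * a + 11 + 4 * (a % 2)))] ≤ _
          rw [ev_3, val_N, val_N, val_G]
          push_cast; linarith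
        · rw [rhs_zero (by simp) (by simp) (by simp)]
          change ev _ [(1, kN a (4 * a + 8 + 4 * (a % 2))), (-1, kG 1 a)] ≤ _
          rw [ev_2, val_N, val_G]
          push_cast; linarith
    · obtain rfl | rfl : l = 0 ∨ l = 1 := by omega
      · change ev _ [(1, kN P.c0 (4 * P.c0 + 13))] ≤ ((1 : ℤ) : ℝ)
        rw [ev_1, val_N, h.one]
        push_cast; linarith
      · change ev _ [(-1, kN P.c0 (4 * P.c0 + 14))] ≤ ((-1 : ℤ) : ℝ)
        rw [ev_1, val_N, h.one]
        push_cast; linarith

/-- the objective function -/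
theorem ev_cterms : ev (val P Y) (cterms P) =
    ps P.be Y (2 * P.m) P.J - ps P.be Y (2 * P.m + 1) P.J := by
  change ev _ [(1, kE (2 * P.m) (3 * (P.I - 2 * P.m))),
    (-1, kE (2 * P.m + 1) (3 * (P.I - 2 * P.m - 1)))] = _
  rw [ev_2, val_E, val_E]
  push_cast; ring

/-! ### Linearity -/

theorem ps_add {be : ℕ → ℕ → Bool} (Y Y' : ℕ → ℝ) (r : ℕ) : ∀ c : ℕ,
    ps be (fun d => Y d + Y' d) r c = ps be Y r c + ps be Y' r c
  | 0 => by simp [ps]
  | c + 1 => by
    simp only [ps]
    rw [ps_add Y Y' r c]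
    split_ifs <;> ring

theorem ps_smul {be : ℕ → ℕ → Bool} (s : ℝ) (Y : ℕ → ℝ) (r : ℕ) : ∀ c : ℕ,
    ps be (fun d => s * Y d) r c = s * ps be Y r c
  | 0 => by simp [ps]
  | c + 1 => by
    simp only [ps]
    rw [ps_smul s Y r c]
    split_ifs <;> ring

theorem val_add (P : Par) (Y Y' : ℕ → ℝ) (v : Key) :
    val P (fun d => Y d + Y' d) v = val P Y v + val P Y' v := by
  unfold val
  split_ifs <;> first | exact ps_add _ _ _ _ | (rw [ps_add]; ring) | rfl | (exact (add_zero _).symm)

theorem val_smul (P : Par) (s : ℝ) (Y : ℕ → ℝ) (v : Key) :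
    val P (fun d => s * Y d) v = s * val P Y v := by
  unfold val
  split_ifs <;> first | exact ps_smul _ _ _ _ | (rw [ps_smul]; ring) | rfl | (exact (mul_zero _).symm)

end Pool.Agent.H43.PL
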